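import Pool.Agent.W688.SD.SFour

/-!
Fourier representation of the smooth cut-off with arbitrarily fast decay.
-/

set_option autoImplicit false

namespace Pool.Agent.Y24.GL

open Complex Filter Topology Set MeasureTheory
open Pool.Agent.H24R2.DZ
open Pool.Agent.W688.SD
open scoped FourierTransform ContDiff

/-- the cut-off as a superposition of exponentials, with rapidly decaying weights -/
theorem four {θ : ℝ} (hθ : 0 < θ) : ∃ w : ℝ → ℂ, Continuous w ∧
    (∀ A : ℕ, ∃ W : ℝ, 0 < W ∧ ∀ τ : ℝ, ‖w τ‖ ≤ W * (1 + |τ|) ^ (-(A : ℝ))) ∧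
    ∀ u : ℝ, 0 ≤ u → ((ph (u / θ) : ℝ) : ℂ) = ∫ τ : ℝ, w τ * cexp (-((1 + I * τ) * u)) := by
  set e : ℝ → ℂ := fun u => cexp ((1 : ℂ) * u) with he
  set g : ℝ → ℂ := fun u => chi θ u * e u with hg
  have hec : ContDiff ℝ ∞ e := (contDiff_const.mul Complex.ofRealCLM.contDiff).cexp
  have hgc : ContDiff ℝ ∞ g := (chi_contDiff θ).mul hec
  have hgs : HasCompactSupport g := (chi_compact hθ).mul_right
  have hFc : Continuous (𝓕 g) := by
    have h1 := (𝓕 (hgs.toSchwartzMap hgc)).continuous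
    rw [SchwartzMap.fourier_coe] at h1
    exact h1
  have hFi : Integrable (𝓕 g) := by
    have h1 := (𝓕 (hgs.toSchwartzMap hgc)).integrable (μ := volume)
    rw [SchwartzMap.fourier_coe] at h1
    exact h1
  have hFd : ∀ k : ℕ, ∃ C : ℝ, ∀ x : ℝ, |x| ^ k * ‖𝓕 g x‖ ≤ C := by
    intro k
    obtain ⟨C, hC⟩ := (𝓕 (hgs.toSchwartzMap hgc)).decay' k 0
    refine ⟨C, fun x => ?_⟩
    have h1 := hC x
    rw [norm_iteratedFDeriv_zero, Real.norm_eq_abs] at h1
    have h2 : (𝓕 (hgs.toSchwartzMap hgc)).toFun x = 𝓕 g x := by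
      have h3 : ((𝓕 (hgs.toSchwartzMap hgc) : SchwartzMap ℝ ℂ) : ℝ → ℂ) = 𝓕 g := by
        rw [SchwartzMap.fourier_coe]
        rfl
      exact congrFun h3 x
    rw [h2] at h1
    exact h1
  have hgi : Integrable g := hgc.continuous.integrable_of_hasCompactSupport hgs
  have hinv : 𝓕⁻ (𝓕 g) = g := hgc.continuous.fourierInv_fourier_eq hgi hFi
  have hpi := Real.pi_pos
  refine ⟨fun τ => ((1 / (2 * Real.pi) : ℝ) : ℂ) * 𝓕 g (τ * (-1 / (2 * Real.pi))), ?_, ?_, ?_⟩
  · exact continuous_const.mul (hFc.comp (by fun_prop))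
  · intro A
    obtain ⟨C0, hC0⟩ := hFd 0
    obtain ⟨C1, hC1⟩ := hFd A
    have hC00 : 0 ≤ C0 := by
      have := hC0 0
      simp only [pow_zero, one_mul] at this
      exact (norm_nonneg _).trans this
    have hC10 : 0 ≤ C1 := (mul_nonneg (by positivity) (norm_nonneg _)).trans (hC1 0)
    refine ⟨2 ^ A * (C0 + (2 * Real.pi) ^ A * C1) + 1, by positivity, fun τ => ?_⟩
    have hτ0 : 0 ≤ |τ| := abs_nonneg τ
    set Φ := ‖𝓕 g (τ * (-1 / (2 * Real.pi)))‖ with hΦ
    have hΦ0 : 0 ≤ Φ := norm_nonneg _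
    have h0 : Φ ≤ C0 := by
      have := hC0 (τ * (-1 / (2 * Real.pi)))
      simpa using this
    have h1 : |τ| ^ A * Φ ≤ (2 * Real.pi) ^ A * C1 := by
      have h2 := hC1 (τ * (-1 / (2 * Real.pi)))
      have h3 : |τ * (-1 / (2 * Real.pi))| = |τ| / (2 * Real.pi) := by
        rw [abs_mul, abs_div, abs_neg, abs_one, abs_of_pos (by positivity : 0 < 2 * Real.pi)]
        ring
      rw [h3, div_pow, div_mul_eq_mul_div, div_le_iff₀ (by positivity)] at h2
      rw [mul_comm ((2 * Real.pi) ^ A)]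
      exact h2
    have h4 : (1 + |τ|) ^ A ≤ 2 ^ A * (1 + |τ| ^ A) := by
      rcases le_total 1 |τ| with h | h
      · calc (1 + |τ|) ^ A ≤ (2 * |τ|) ^ A := by gcongr; linarith
          _ = 2 ^ A * |τ| ^ A := by rw [mul_pow]
          _ ≤ _ := by
              have : (0 : ℝ) < 2 ^ A := by positivity
              nlinarith
      · calc (1 + |τ|) ^ A ≤ 2 ^ A := by gcongr; linarith
          _ ≤ _ := by
              have : 0 ≤ |τ| ^ A := by positivity
              have : (0 : ℝ) < 2 ^ A := by positivity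
              nlinarith
    rw [norm_mul, Complex.norm_real, Real.norm_of_nonneg (by positivity)]
    have h5 : (1 + |τ|) ^ (-(A : ℝ)) = ((1 + |τ|) ^ A)⁻¹ := by
      rw [Real.rpow_neg (by positivity)]
      congr 1
      exact_mod_cast Real.rpow_natCast (1 + |τ|) A
    rw [h5, ← div_eq_mul_inv, le_div_iff₀ (by positivity)]
    have h6 : 1 / (2 * Real.pi) ≤ 1 := by
      rw [div_le_one (by positivity)]
      have := Real.pi_gt_three
      linarith
    calc 1 / (2 * Real.pi) * Φ * (1 + |τ|) ^ A ≤ 1 * Φ * (2 ^ A * (1 + |τ| ^ A)) := by gcongr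
      _ = 2 ^ A * (Φ + |τ| ^ A * Φ) := by ring
      _ ≤ 2 ^ A * (C0 + (2 * Real.pi) ^ A * C1) := by gcongr
      _ ≤ _ := by linarith
  · intro u hu
    have h2 : ((ph (u / θ) : ℝ) : ℂ) = g u * cexp (-u) := by
      rw [← chi_eq hθ hu, hg, he]
      simp only
      rw [mul_assoc, ← Complex.exp_add, one_mul, add_neg_cancel, Complex.exp_zero, mul_one]
    have hgu : g u = 𝓕⁻ (𝓕 g) u := by rw [hinv]
    rw [h2, hgu, Real.fourierInv_eq', ← integral_mul_const]
    have h3 := Measure.integral_comp_mul_right (fun ξ : ℝ => cexp (((2 * Real.pi * inner ℝ ξ u : ℝ) : ℂ) * I) • 𝓕 g ξ * cexp (-u))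
      (-1 / (2 * Real.pi))
    have h4 : |(-1 / (2 * Real.pi))⁻¹| = 2 * Real.pi := by
      rw [inv_div, abs_div, abs_neg, abs_one, div_one, abs_of_pos (by positivity)]
    rw [h4] at h3
    have h5 : ∫ ξ : ℝ, cexp (((2 * Real.pi * inner ℝ ξ u : ℝ) : ℂ) * I) • 𝓕 g ξ * cexp (-u) =
        ((1 / (2 * Real.pi) : ℝ) : ℂ) * ∫ x : ℝ, (fun ξ : ℝ => cexp (((2 * Real.pi * inner ℝ ξ u : ℝ) : ℂ) * I) • 𝓕 g ξ * cexp (-u))
          (x * (-1 / (2 * Real.pi))) := by
      rw [h3, Complex.real_smul, ← mul_assoc, ← Complex.ofReal_mul]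
      have h8 : 1 / (2 * Real.pi) * (2 * Real.pi) = 1 := by field_simp
      rw [h8, Complex.ofReal_one, one_mul]
    rw [h5, ← integral_const_mul]
    congr 1
    ext τ
    simp only [smul_eq_mul]
    have h6 : cexp (((2 * Real.pi * inner ℝ (τ * (-1 / (2 * Real.pi))) u : ℝ) : ℂ) * I) * cexp (-u) =
        cexp (-((1 + I * τ) * u)) := by
      rw [← Complex.exp_add]
      congr 1
      have h7 : (inner ℝ (τ * (-1 / (2 * Real.pi))) u : ℝ) = u * (τ * (-1 / (2 * Real.pi))) := by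
        simp
      rw [h7]
      have : (Real.pi : ℂ) ≠ 0 := by exact_mod_cast hpi.ne'
      push_cast
      field_simp
      ring
    rw [← h6]
    generalize 𝓕 g (τ * (-1 / (2 * Real.pi))) = X
    generalize cexp (((2 * Real.pi * inner ℝ (τ * (-1 / (2 * Real.pi))) u : ℝ) : ℂ) * I) = Y
    ring

end Pool.Agent.Y24.GL
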