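import Pool.Agent.Y771.GL.EU1

set_option autoImplicit false

/-!
Sums of squares of the coefficients of `∏ᵢ F(s) / F(s + wᵢ)` for an L-function `F` of degree two.
-/

namespace Pool.Agent.Y24.GL

open Complex Finset
open Pool.Agent.Y771.GL
open Pool.Agent.Y671.GL (mf)

variable {ps lam : ℕ → ℂ}

/-! ### local bounds -/

/-- local bounds -/
structure LB (l P D : ℝ) (u : ℕ → ℂ) : Prop where
  z : u 0 = 1
  o : ‖u 1‖ ≤ D * l
  t : ∀ r, 2 ≤ r → ‖u r‖ ≤ D * (l * P ^ (r - 1) + P ^ (r - 2))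

lemma LB.q {l P D : ℝ} {u : ℕ → ℂ} (h : LB l P D u) (hP : 1 ≤ P) (hD : 0 ≤ D) {r : ℕ} (hr : 1 ≤ r) :
    ‖u r‖ ≤ D * (P ^ r * (l / P + 1 / P ^ 2)) := by
  have hP0 : 0 < P := by linarith
  rcases Nat.lt_or_ge r 2 with h1 | h1
  · have : r = 1 := by omega
    subst this
    refine h.o.trans (mul_le_mul_of_nonneg_left ?_ hD)
    rw [pow_one, mul_add, mul_div_cancel₀ _ hP0.ne']
    have : 0 ≤ P * (1 / P ^ 2) := by positivity
    linarith
  · refine (h.t r h1).trans (mul_le_mul_of_nonneg_left (le_of_eq ?_) hD)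
    obtain ⟨s, rfl⟩ : ∃ s, r = s + 2 := ⟨r - 2, by omega⟩
    have e1 : s + 2 - 1 = s + 1 := rfl
    have e2 : s + 2 - 2 = s := rfl
    rw [e1, e2]
    field_simp
    ring

/-- convolution -/
lemma LB.conv {l P D C : ℝ} {u v : ℕ → ℂ} (hu : LB l P D u) (hv : LB l P D v) (hP : 1 ≤ P) (hD : 1 ≤ D)
    (hl : 0 ≤ l) (hC : 1 ≤ C) (hlP : l ≤ C * P) {r : ℕ} (hr : 2 ≤ r) :
    ‖∑ i ∈ range (r + 1), u i * v (r - i)‖ ≤ ((r : ℝ) + 1) * (D ^ 2 * (C + 1)) * (l * P ^ (r - 1) + P ^ (r - 2)) := by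
  have hP0 : 0 < P := by linarith
  have hD0 : 0 ≤ D := by linarith
  set q := l / P + 1 / P ^ 2 with hq
  have hq0 : 0 ≤ q := by positivity
  have hq1 : q ≤ C + 1 := by
    have e1 : l / P ≤ C := by rw [div_le_iff₀ hP0]; exact hlP
    have e2 : 1 / P ^ 2 ≤ 1 := by
      rw [div_le_one (by positivity)]
      exact one_le_pow₀ hP
    linarith
  have hform : l * P ^ (r - 1) + P ^ (r - 2) = P ^ r * q := by
    obtain ⟨s, rfl⟩ : ∃ s, r = s + 2 := ⟨r - 2, by omega⟩
    have e1 : s + 2 - 1 = s + 1 := rfl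
    have e2 : s + 2 - 2 = s := rfl
    rw [e1, e2, hq]
    field_simp
    ring
  rw [hform]
  have hPr : 0 ≤ P ^ r * q := by positivity
  have hterm : ∀ i ∈ range (r + 1), ‖u i * v (r - i)‖ ≤ D ^ 2 * (C + 1) * (P ^ r * q) := by
    intro i hi
    rw [mem_range] at hi
    rw [norm_mul]
    have hDD : D ≤ D ^ 2 * (C + 1) := by nlinarith
    rcases Nat.eq_zero_or_pos i with h0 | h0
    · subst h0
      rw [hu.z, norm_one, one_mul, Nat.sub_zero]
      exact (hv.q hP hD0 (by omega)).trans (mul_le_mul_of_nonneg_right hDD hPr)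
    · rcases Nat.lt_or_ge i r with h1 | h1
      · have a1 := hu.q hP hD0 h0
        have a2 := hv.q hP hD0 (r := r - i) (by omega)
        rw [← hq] at a1 a2
        calc ‖u i‖ * ‖v (r - i)‖ ≤ (D * (P ^ i * q)) * (D * (P ^ (r - i) * q)) :=
              mul_le_mul a1 a2 (norm_nonneg _) (by positivity)
          _ = D ^ 2 * (P ^ (i + (r - i)) * q) * q := by rw [pow_add]; ring
          _ = D ^ 2 * (P ^ r * q) * q := by rw [Nat.add_sub_cancel' (by omega)]
          _ ≤ D ^ 2 * (P ^ r * q) * (C + 1) := mul_le_mul_of_nonneg_left hq1 (by positivity)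
          _ = _ := by ring
      · have : i = r := by omega
        subst this
        rw [Nat.sub_self, hv.z, norm_one, mul_one]
        exact (hu.q hP hD0 (by omega)).trans (mul_le_mul_of_nonneg_right hDD hPr)
  calc ‖∑ i ∈ range (r + 1), u i * v (r - i)‖ ≤ ∑ i ∈ range (r + 1), ‖u i * v (r - i)‖ := norm_sum_le _ _
    _ ≤ ∑ _i ∈ range (r + 1), D ^ 2 * (C + 1) * (P ^ r * q) := sum_le_sum hterm
    _ = _ := by
        rw [sum_const, card_range, nsmul_eq_mul]
        push_cast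
        ring

/-- enlarging the base -/
lemma LB.up {l P P' D ρ : ℝ} {u : ℕ → ℂ} (hz : u 0 = 1) (ho : ‖u 1‖ ≤ D * l)
    (ht : ∀ r : ℕ, 2 ≤ r → ‖u r‖ ≤ ((r : ℝ) + 1) * D * (l * P ^ (r - 1) + P ^ (r - 2)))
    (hP : 1 ≤ P) (hρ : 1 < ρ) (hPP : ρ * P ≤ P') (hl : 0 ≤ l) (hD : 0 ≤ D) :
    LB l P' ((3 + 1 / (ρ - 1)) * D) u := by
  have hρ1 : 0 < ρ - 1 := by linarith
  have h3 : 1 ≤ 3 + 1 / (ρ - 1) := by
    have : 0 ≤ 1 / (ρ - 1) := by positivity
    linarith
  have hP0 : 0 < P := by linarith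
  have key : ∀ n : ℕ, ((n : ℝ) + 3) ≤ (3 + 1 / (ρ - 1)) * ρ ^ n := by
    intro n
    have h4 := one_add_mul_le_pow (a := ρ - 1) (by linarith) n
    rw [add_sub_cancel] at h4
    have h5 : (3 + 1 / (ρ - 1)) * (1 + n * (ρ - 1)) ≤ (3 + 1 / (ρ - 1)) * ρ ^ n :=
      mul_le_mul_of_nonneg_left h4 (by linarith)
    refine le_trans ?_ h5
    have h6 : (3 + 1 / (ρ - 1)) * (1 + n * (ρ - 1)) = 3 + n + (1 / (ρ - 1) + 3 * n * (ρ - 1)) := by
      field_simp
      ring
    rw [h6]
    have : 0 ≤ 1 / (ρ - 1) + 3 * n * (ρ - 1) := by positivity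
    linarith
  refine ⟨hz, ?_, ?_⟩
  · refine ho.trans ?_
    have : 0 ≤ D * l := by positivity
    nlinarith
  · intro r hr
    refine (ht r hr).trans ?_
    obtain ⟨s, rfl⟩ : ∃ s, r = s + 2 := ⟨r - 2, by omega⟩
    have e1 : s + 2 - 1 = s + 1 := rfl
    have e2 : s + 2 - 2 = s := rfl
    rw [e1, e2]
    have hk := key s
    have hk1 : ((s : ℝ) + 3) ≤ (3 + 1 / (ρ - 1)) * ρ ^ (s + 1) := by
      refine hk.trans (mul_le_mul_of_nonneg_left ?_ (by linarith))
      exact pow_le_pow_right₀ hρ.le (by omega)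
    have a1 : ((s : ℝ) + 3) * P ^ s ≤ (3 + 1 / (ρ - 1)) * P' ^ s := by
      calc ((s : ℝ) + 3) * P ^ s ≤ ((3 + 1 / (ρ - 1)) * ρ ^ s) * P ^ s := mul_le_mul_of_nonneg_right hk (by positivity)
        _ = (3 + 1 / (ρ - 1)) * (ρ * P) ^ s := by rw [mul_pow]; ring
        _ ≤ _ := by
            apply mul_le_mul_of_nonneg_left _ (by linarith)
            exact pow_le_pow_left₀ (by positivity) hPP _
    have a2 : ((s : ℝ) + 3) * P ^ (s + 1) ≤ (3 + 1 / (ρ - 1)) * P' ^ (s + 1) := by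
      calc ((s : ℝ) + 3) * P ^ (s + 1) ≤ ((3 + 1 / (ρ - 1)) * ρ ^ (s + 1)) * P ^ (s + 1) :=
            mul_le_mul_of_nonneg_right hk1 (by positivity)
        _ = (3 + 1 / (ρ - 1)) * (ρ * P) ^ (s + 1) := by rw [mul_pow]; ring
        _ ≤ _ := by
            apply mul_le_mul_of_nonneg_left _ (by linarith)
            exact pow_le_pow_left₀ (by positivity) hPP _
    have a3 := mul_le_mul_of_nonneg_left a2 hl
    push_cast
    calc ((s : ℝ) + 2 + 1) * D * (l * P ^ (s + 1) + P ^ s)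
        = D * (l * (((s : ℝ) + 3) * P ^ (s + 1)) + ((s : ℝ) + 3) * P ^ s) := by ring
      _ ≤ D * (l * ((3 + 1 / (ρ - 1)) * P' ^ (s + 1)) + (3 + 1 / (ρ - 1)) * P' ^ s) := by
          apply mul_le_mul_of_nonneg_left _ hD
          linarith
      _ = _ := by ring

/-- the coefficients of `F(s) / F(s + w)` -/
noncomputable def CA (ps lam : ℕ → ℂ) (w : ℂ) : ArithmeticFunction ℂ :=
  af (fun h => mf ps lam h * (h : ℂ) ^ (-w)) * af lam

lemma CA_apply (ps lam : ℕ → ℂ) (w : ℂ) (n : ℕ) : CA ps lam w n = cv ps lam w n := (cv_eq ps lam w n).symm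

lemma CA_mult (H : Hk ps lam) (w : ℂ) : (CA ps lam w).IsMultiplicative := cv_is H w

/-- the product -/
noncomputable def CP (ps lam : ℕ → ℂ) {j : ℕ} (w : Fin j → ℂ) : ArithmeticFunction ℂ := ∏ i, CA ps lam (w i)

lemma CP_zero (w : Fin 0 → ℂ) : CP ps lam w = 1 := by
  unfold CP
  simp

lemma CP_succ {j : ℕ} (w : Fin (j + 1) → ℂ) : CP ps lam w = CA ps lam (w 0) * CP ps lam (fun i => w i.succ) := by
  unfold CP
  rw [Fin.prod_univ_succ]

lemma CP_mult (H : Hk ps lam) {j : ℕ} (w : Fin j → ℂ) : (CP ps lam w).IsMultiplicative := by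
  induction j with
  | zero => rw [CP_zero]; exact ArithmeticFunction.isMultiplicative_one
  | succ j ih => rw [CP_succ]; exact (CA_mult H _).mul (ih _)

lemma mul_pp (f g : ArithmeticFunction ℂ) {p : ℕ} (hp : p.Prime) (r : ℕ) :
    (f * g) (p ^ r) = ∑ i ∈ range (r + 1), f (p ^ i) * g (p ^ (r - i)) := by
  rw [ArithmeticFunction.mul_apply, Nat.sum_divisorsAntidiagonal (fun a b => f a * g b), Nat.divisors_prime_pow hp,
    sum_map]
  refine sum_congr rfl fun i hi => ?_
  rw [mem_range] at hi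
  simp only [Function.Embedding.coeFn_mk]
  rw [Nat.pow_div (by omega) hp.pos]

lemma CP_p (H : Hk ps lam) {p : ℕ} (hp : p.Prime) {j : ℕ} (w : Fin j → ℂ) :
    CP ps lam w p = (∑ i, (1 - (p : ℂ) ^ (-(w i)))) * lam p := by
  induction j with
  | zero =>
    rw [CP_zero]
    simp [hp.ne_one]
  | succ j ih =>
    rw [CP_succ, Fin.sum_univ_succ]
    have h1 := mul_pp (CA ps lam (w 0)) (CP ps lam (fun i => w i.succ)) hp 1
    rw [pow_one, sum_range_succ, sum_range_one] at h1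
    simp only [pow_zero, Nat.sub_zero, pow_one, Nat.sub_self] at h1
    rw [h1, (CA_mult H _).1, (CP_mult H _).1, ih, CA_apply, cv_p H hp]
    ring

lemma dat_mono {th th' C : ℝ} (h : Dat ps lam th C) (h1 : th ≤ th') (h2 : th' < 1 / 2) : Dat ps lam th' C where
  hk := h.hk
  ps_le := h.ps_le
  th0 := h.th0.trans h1
  th1 := h2
  C1 := h.C1
  bd n hn := (h.bd n hn).trans (mul_le_mul_of_nonneg_left (Real.rpow_le_rpow_of_exponent_le (by exact_mod_cast hn) h1)
    (by linarith [h.C1]))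
  rs := h.rs

/-- the local bound of the product -/
theorem loc {th C : ℝ} (h : Dat ps lam th C) (j : ℕ) : ∀ th' : ℝ, th < th' → th' < 1 / 2 → ∃ D : ℝ, 1 ≤ D ∧
    ∀ w : Fin j → ℂ, (∀ i, 0 ≤ (w i).re) → ∀ p : ℕ, p.Prime →
      LB ‖lam p‖ ((p : ℝ) ^ th') D (fun r => CP ps lam w (p ^ r)) := by
  induction j with
  | zero =>
    intro th' _ _
    refine ⟨1, le_rfl, fun w _ p hp => ⟨?_, ?_, ?_⟩⟩
    · rw [CP_zero]; simp
    · rw [CP_zero]
      simp [hp.ne_one]
    · intro r hr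
      rw [CP_zero]
      have : (p ^ r : ℕ) ≠ 1 := by
        intro h1
        rw [Nat.pow_eq_one] at h1
        rcases h1 with h1 | h1
        · exact hp.ne_one h1
        · omega
      simp only [ArithmeticFunction.one_apply, if_neg this, norm_zero]
      positivity
  | succ j ih =>
    intro th' ht1 ht2
    obtain ⟨t1, ht1d⟩ : ∃ t1 : ℝ, t1 = (th + th') / 2 := ⟨_, rfl⟩
    have hta : th < t1 := by rw [ht1d]; linarith
    have htb : t1 < th' := by rw [ht1d]; linarith
    obtain ⟨D1, hD1, h1⟩ := ih t1 hta (by linarith)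
    have hC := h.C1
    set D := max (2 * C) D1 with hD
    have hD0 : 1 ≤ D := hD1.trans (le_max_right _ _)
    set ρ : ℝ := (2 : ℝ) ^ (th' - t1) with hρ
    have hρ1 : 1 < ρ := Real.one_lt_rpow (by norm_num) (by linarith)
    have h3 : 1 ≤ 3 + 1 / (ρ - 1) := by
      have : 0 < ρ - 1 := by linarith
      have : 0 ≤ 1 / (ρ - 1) := by positivity
      linarith
    refine ⟨(3 + 1 / (ρ - 1)) * (D ^ 2 * (C + 1)), ?_, fun w hw p hp => ?_⟩
    · have : 1 ≤ D ^ 2 * (C + 1) := by nlinarith [one_le_pow₀ (n := 2) hD0]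
      nlinarith
    have hp2 : (2 : ℝ) ≤ p := by exact_mod_cast hp.two_le
    have hp1 : (1 : ℝ) ≤ p := by linarith
    have hp0 : (0 : ℝ) < p := by linarith
    set P := (p : ℝ) ^ t1 with hP
    have hP1 : 1 ≤ P := Real.one_le_rpow hp1 (by linarith [h.th0])
    have hP0 : 0 < P := by linarith
    have hd1 := dat_mono h hta.le (by linarith)
    -- the first factor
    have hA : LB ‖lam p‖ P D (fun r => CA ps lam (w 0) (p ^ r)) := by
      refine ⟨?_, ?_, ?_⟩
      · simp only [pow_zero]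
        exact (CA_mult h.hk _).1
      · simp only [pow_one]
        rw [CA_apply, cv_p h.hk hp, norm_mul]
        have h4 := norm_cpow_le_one hp.ne_zero (hw 0)
        have h5 : ‖1 - (p : ℂ) ^ (-(w 0))‖ ≤ 2 := (norm_sub_le _ _).trans (by rw [norm_one]; linarith)
        have h6 : 2 ≤ D := by
          refine le_trans ?_ (le_max_left _ _)
          linarith
        exact mul_le_mul_of_nonneg_right (h5.trans h6) (norm_nonneg _)
      · intro r hr
        rw [CA_apply]
        refine (hd1.cv_loc (hw 0) hp hr).trans (mul_le_mul_of_nonneg_right (le_max_left _ _) ?_)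
        positivity
    have hB : LB ‖lam p‖ P D (fun r => CP ps lam (fun i => w i.succ) (p ^ r)) := by
      have h4 := h1 (fun i => w i.succ) (fun i => hw i.succ) p hp
      refine ⟨h4.z, h4.o.trans (mul_le_mul_of_nonneg_right (le_max_right _ _) (norm_nonneg _)), fun r hr => ?_⟩
      refine (h4.t r hr).trans (mul_le_mul_of_nonneg_right (le_max_right _ _) ?_)
      positivity
    have hlP : ‖lam p‖ ≤ C * P := hd1.bp1 hp
    refine LB.up (P := P) (ρ := ρ) ?_ ?_ ?_ hP1 hρ1 ?_ (norm_nonneg _) (by positivity)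
    · simp only [pow_zero]
      exact (CP_mult h.hk _).1
    · simp only [pow_one]
      rw [CP_succ]
      have h4 := mul_pp (CA ps lam (w 0)) (CP ps lam (fun i => w i.succ)) hp 1
      rw [pow_one, sum_range_succ, sum_range_one] at h4
      simp only [pow_zero, Nat.sub_zero, pow_one, Nat.sub_self] at h4
      rw [h4, (CA_mult h.hk _).1, (CP_mult h.hk _).1, one_mul, mul_one]
      have a1 := hA.o
      have a2 := hB.o
      simp only [pow_one] at a1 a2
      refine (norm_add_le _ _).trans ((add_le_add a2 a1).trans ?_)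
      have : 0 ≤ ‖lam p‖ := norm_nonneg _
      have h5 : 2 * D ≤ D ^ 2 * (C + 1) := by nlinarith
      nlinarith
    · intro r hr
      rw [CP_succ, mul_pp _ _ hp]
      exact hA.conv hB hP1 hD0 (norm_nonneg _) hC hlP hr
    · rw [hρ, hP]
      have : (p : ℝ) ^ th' = (p : ℝ) ^ (th' - t1) * (p : ℝ) ^ t1 := by
        rw [← Real.rpow_add hp0]
        congr 1; ring
      rw [this]
      apply mul_le_mul_of_nonneg_right _ hP0.le
      exact Real.rpow_le_rpow (by norm_num) hp2 (by linarith)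

end Pool.Agent.Y24.GL
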