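import Pool.Agent.Y24.GL.G2

set_option autoImplicit false

/-!
The bound for the sum of squares.
-/

namespace Pool.Agent.Y24.GL

open Complex Finset
open Pool.Agent.Y771.GL
open Pool.Agent.Y671.GL (mf)

variable {ps lam : ℕ → ℂ}

/-- the sum of squares of the coefficients of the product -/
theorem eulj {th C : ℝ} (h : Dat ps lam th C) (j : ℕ) : ∃ K : ℝ, 0 < K ∧ ∀ (L : ℝ) (τ : Fin j → ℝ) (X : ℕ), 1 ≤ L →
    ∑ n ∈ Icc 1 X, (n : ℝ) ^ (-(1 + 1 / L)) * ‖CP ps lam (fun i => (1 + I * (τ i)) / L) n‖ ^ 2 ≤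
      K * ∏ i, (1 + |τ i|) ^ (16 * j) := by
  obtain ⟨t1, ht1d⟩ : ∃ t1 : ℝ, t1 = (th + 1 / 2) / 2 := ⟨_, rfl⟩
  have h00 := h.th0
  have h01 := h.th1
  have hta : th < t1 := by rw [ht1d]; linarith
  have htb : t1 < 1 / 2 := by rw [ht1d]; linarith
  have h0 : 0 ≤ t1 := by linarith
  obtain ⟨D, hD, hloc⟩ := loc h j t1 hta htb
  have hd1 := dat_mono h hta.le htb
  have hC := h.C1
  obtain ⟨K1, hK1, h2⟩ := hd1.err
  obtain ⟨K2, hK2, h3⟩ := h.rs.main (fun n => sq_nonneg _) (by linarith)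
  refine ⟨Real.exp (j * (j * K2) + 2 * D ^ 2 * kt t1 * K1), Real.exp_pos _, fun L τ X hL => ?_⟩
  have hL0 : 0 < L := by linarith
  obtain ⟨w, hwd⟩ : ∃ w : Fin j → ℂ, w = fun i => (1 + I * (τ i)) / L := ⟨_, rfl⟩
  rw [← hwd]
  have hwre : ∀ i, (w i).re = 1 / L := by
    intro i
    rw [hwd, Complex.div_ofReal_re]
    simp
  have hw0 : ∀ i, 0 ≤ (w i).re := by intro i; rw [hwre]; positivity
  have hwn : ∀ i, ‖w i‖ ≤ (1 + |τ i|) / L := by
    intro i
    rw [hwd]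
    simp only
    rw [norm_div, Complex.norm_real, Real.norm_of_nonneg hL0.le]
    apply div_le_div_of_nonneg_right _ hL0.le
    refine (norm_add_le _ _).trans ?_
    rw [norm_one, norm_mul, norm_I, one_mul, Complex.norm_real, Real.norm_eq_abs]
  have f0 : ∀ n : ℕ, 0 ≤ (n : ℝ) ^ (-(1 + 1 / L)) * ‖CP ps lam w n‖ ^ 2 := fun n =>
    mul_nonneg (Real.rpow_nonneg (Nat.cast_nonneg _) _) (sq_nonneg _)
  have hmult := CP_mult h.hk w
  refine (sum_le_exp (f := fun n : ℕ => (n : ℝ) ^ (-(1 + 1 / L)) * ‖CP ps lam w n‖ ^ 2) f0 ?_ ?_ X).trans ?_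
  · simp [hmult.1]
  · intro m n hmn
    rw [hmult.2 hmn, norm_mul]
    push_cast
    rw [Real.mul_rpow (Nat.cast_nonneg _) (Nat.cast_nonneg _)]
    ring
  · have h4 : ∏ i, (1 + |τ i|) ^ (16 * j) = Real.exp (∑ i, j * (16 * Real.log (1 + |τ i|))) := by
      rw [Real.exp_sum]
      refine prod_congr rfl fun i _ => ?_
      have : (0 : ℝ) < 1 + |τ i| := by positivity
      rw [show (j : ℝ) * (16 * Real.log (1 + |τ i|)) = ((16 * j : ℕ) : ℝ) * Real.log (1 + |τ i|) by push_cast; ring,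
        Real.exp_nat_mul, Real.exp_log this]
    rw [h4, ← Real.exp_add]
    apply Real.exp_le_exp.2
    have h5 : ∀ p ∈ pr X, ∑ r ∈ Icc 1 X, ((p ^ r : ℕ) : ℝ) ^ (-(1 + 1 / L)) * ‖CP ps lam w (p ^ r)‖ ^ 2 ≤
        ‖lam p‖ ^ 2 * (p : ℝ) ^ (-(1 + 1 / L)) * ‖∑ i, (1 - (p : ℂ) ^ (-(w i)))‖ ^ 2 +
          2 * D ^ 2 * kt t1 * er t1 ‖lam p‖ p := by
      intro p hp
      rw [mem_pr] at hp
      have hp0 : (0 : ℝ) < p := by exact_mod_cast hp.2.pos
      have hp1 : (1 : ℝ) ≤ p := by exact_mod_cast hp.2.one_le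
      have hpw : ∀ r : ℕ, ((p ^ r : ℕ) : ℝ) ^ (-(1 + 1 / L)) = ((p : ℝ) ^ (-(1 + 1 / L))) ^ r := fun r => by
        push_cast
        rw [← Real.rpow_natCast, ← Real.rpow_mul hp0.le, mul_comm, Real.rpow_mul hp0.le, Real.rpow_natCast]
      have hX1 : 1 ≤ X := hp.2.one_le.trans hp.1
      have h6 : Icc 1 X = insert 1 (Icc 2 X) := by
        ext r
        rw [mem_insert, mem_Icc, mem_Icc]
        omega
      rw [h6, sum_insert (by simp)]
      have hL2 := hloc w hw0 p hp.2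
      refine add_le_add (le_of_eq ?_) ?_
      · rw [pow_one, CP_p h.hk hp.2, norm_mul]
        ring
      · have h9 := tail (th := t1) (D := D) (ρ := (p : ℝ) ^ (-(1 + 1 / L))) (l := ‖lam p‖) hp.2.two_le h0 htb
          (Real.rpow_nonneg hp0.le _) (by
            rw [show (1 : ℝ) / p = (p : ℝ) ^ (-1 : ℝ) by rw [Real.rpow_neg_one, one_div]]
            apply Real.rpow_le_rpow_of_exponent_le hp1
            have : 0 ≤ 1 / L := by positivity
            linarith) (fun r => ‖CP ps lam w (p ^ r)‖)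
          (fun r => norm_nonneg _) (fun r hr => hL2.t r hr) X
        refine le_trans (le_of_eq ?_) h9
        refine sum_congr rfl fun r _ => ?_
        rw [hpw r]
    refine (sum_le_sum h5).trans ?_
    rw [sum_add_distrib, ← mul_sum]
    have h8 := (kt_pos htb).le
    have h9 := mul_le_mul_of_nonneg_left (h2 X) (by positivity : 0 ≤ 2 * D ^ 2 * kt t1)
    have h10 : ∀ i, ∑ p ∈ pr X, ‖lam p‖ ^ 2 * (p : ℝ) ^ (-(1 + 1 / L)) * ‖1 - (p : ℂ) ^ (-(w i))‖ ^ 2 ≤
        16 * Real.log (1 + |τ i|) + K2 := by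
      intro i
      have h10' := h3 L (τ i) X (fun p => if p = 0 then 0 else ‖1 - (p : ℂ) ^ (-(w i))‖ ^ 2) hL (fun p => by
        split_ifs with hp
        · norm_num
        · have h11 := norm_cpow_le_one hp (hw0 i)
          have h12 : ‖1 - (p : ℂ) ^ (-(w i))‖ ≤ 2 := (norm_sub_le _ _).trans (by rw [norm_one]; linarith)
          nlinarith [norm_nonneg (1 - (p : ℂ) ^ (-(w i)))]) (fun p => by
        split_ifs with hp
        · positivity
        · apply pow_le_pow_left₀ (norm_nonneg _)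
          have hl : 0 ≤ Real.log p := Real.log_natCast_nonneg p
          rw [cpow_eq_exp hp]
          refine (one_sub_exp ?_).trans ?_
          · have : (w i * ((Real.log p : ℝ) : ℂ)).re = (w i).re * Real.log p := by rw [Complex.re_mul_ofReal]
            rw [this]
            exact mul_nonneg (hw0 i) hl
          · rw [norm_mul, Complex.norm_real, Real.norm_of_nonneg hl]
            calc ‖w i‖ * Real.log p ≤ (1 + |τ i|) / L * Real.log p := mul_le_mul_of_nonneg_right (hwn i) hl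
              _ = _ := by ring)
      refine le_trans (le_of_eq ?_) h10'
      refine sum_congr rfl fun p hp => ?_
      rw [mem_pr] at hp
      rw [if_neg hp.2.ne_zero]
    have h12 : ∑ p ∈ pr X, ‖lam p‖ ^ 2 * (p : ℝ) ^ (-(1 + 1 / L)) * ‖∑ i, (1 - (p : ℂ) ^ (-(w i)))‖ ^ 2 ≤
        j * ∑ i, (16 * Real.log (1 + |τ i|) + K2) := by
      calc ∑ p ∈ pr X, ‖lam p‖ ^ 2 * (p : ℝ) ^ (-(1 + 1 / L)) * ‖∑ i, (1 - (p : ℂ) ^ (-(w i)))‖ ^ 2
          ≤ ∑ p ∈ pr X, ‖lam p‖ ^ 2 * (p : ℝ) ^ (-(1 + 1 / L)) * (j * ∑ i, ‖1 - (p : ℂ) ^ (-(w i))‖ ^ 2) := by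
            refine sum_le_sum fun p _ => mul_le_mul_of_nonneg_left ?_
              (mul_nonneg (sq_nonneg _) (Real.rpow_nonneg (Nat.cast_nonneg _) _))
            calc ‖∑ i, (1 - (p : ℂ) ^ (-(w i)))‖ ^ 2 ≤ (∑ i, ‖1 - (p : ℂ) ^ (-(w i))‖) ^ 2 :=
                  pow_le_pow_left₀ (norm_nonneg _) (norm_sum_le _ _) 2
              _ ≤ (univ : Finset (Fin j)).card * ∑ i, ‖1 - (p : ℂ) ^ (-(w i))‖ ^ 2 := sq_sum_le_card_mul_sum_sq
              _ = _ := by rw [card_univ, Fintype.card_fin]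
        _ = j * ∑ i, ∑ p ∈ pr X, ‖lam p‖ ^ 2 * (p : ℝ) ^ (-(1 + 1 / L)) * ‖1 - (p : ℂ) ^ (-(w i))‖ ^ 2 := by
            rw [sum_comm, mul_sum]
            refine sum_congr rfl fun p _ => ?_
            rw [mul_sum, mul_sum, mul_sum]
            refine sum_congr rfl fun i _ => ?_
            ring
        _ ≤ _ := mul_le_mul_of_nonneg_left (sum_le_sum fun i _ => h10 i) (Nat.cast_nonneg _)
    have h13 : (j : ℝ) * ∑ i : Fin j, (16 * Real.log (1 + |τ i|) + K2) = (∑ i : Fin j, j * (16 * Real.log (1 + |τ i|))) + j * (j * K2) := by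
      rw [sum_add_distrib, mul_add, mul_sum, sum_const, card_univ, Fintype.card_fin, nsmul_eq_mul]
    linarith

end Pool.Agent.Y24.GL
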