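import Pool.Agent.Y24.GL.G1
import Pool.Agent.Y24.GL.G3
import Pool.Agent.Y494.GL.MO

set_option autoImplicit false

/-!
Powers of the coefficients of `F m`.
-/

namespace Pool.Agent.Y24.GL

open Complex Finset MeasureTheory Filter
open Pool.Agent.H24R2.DZ (ph)
open Pool.Agent.Y771.GL
open Pool.Agent.Y671.GL (mf bq)
open Pool.Agent.W368.SD (cs)

variable {ps lam : ℕ → ℂ}

/-- the data of the representation -/
structure FW (θ : ℝ) (w : ℝ → ℂ) : Prop where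
  cont : Continuous w
  dec : ∀ A : ℕ, ∃ W : ℝ, 0 < W ∧ ∀ τ : ℝ, ‖w τ‖ ≤ W * (1 + |τ|) ^ (-(A : ℝ))
  eq : ∀ u : ℝ, 0 ≤ u → ((ph (u / θ) : ℝ) : ℂ) = ∫ τ : ℝ, w τ * cexp (-((1 + I * τ) * u))

lemma FW.int {θ : ℝ} {w : ℝ → ℂ} (h : FW θ w) (N : ℕ) : Integrable fun τ : ℝ => ‖w τ‖ * (1 + |τ|) ^ N := by
  obtain ⟨W, hW, hb⟩ := h.dec (N + 2)
  have hi := (Pool.Agent.W368.SD.rho_int 2 (by norm_num)).const_mul W
  refine hi.mono' ((h.cont.norm.mul (by fun_prop)).aestronglyMeasurable) (Eventually.of_forall fun τ => ?_)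
  have hp : (0 : ℝ) < 1 + |τ| := by positivity
  rw [norm_mul, norm_norm, Real.norm_of_nonneg (by positivity)]
  calc ‖w τ‖ * (1 + |τ|) ^ N ≤ (W * (1 + |τ|) ^ (-((N + 2 : ℕ) : ℝ))) * (1 + |τ|) ^ N := by gcongr; exact hb τ
    _ = W * Pool.Agent.W368.SD.rho 2 τ := by
        unfold Pool.Agent.W368.SD.rho
        rw [mul_assoc, ← Real.rpow_natCast (1 + |τ|) N, ← Real.rpow_add hp]
        congr 2
        push_cast
        ring

lemma FW.int0 {θ : ℝ} {w : ℝ → ℂ} (h : FW θ w) : Integrable w := by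
  have h1 := h.int 0
  simp only [pow_zero, mul_one] at h1
  exact (integrable_norm_iff h.cont.aestronglyMeasurable).mp h1

lemma ph_eq {θ : ℝ} {w : ℝ → ℂ} (h : FW θ w) {L : ℝ} (hL : 1 ≤ L) {m : ℕ} (hm : 1 ≤ m) :
    ((ph (Real.log m / (θ * L)) : ℝ) : ℂ) = ∫ τ : ℝ, w τ * (m : ℂ) ^ (-((1 + I * τ) / L)) := by
  have hL0 : 0 < L := by linarith
  have h1 := h.eq (Real.log m / L) (div_nonneg (Real.log_natCast_nonneg m) hL0.le)
  have e1 : Real.log m / L / θ = Real.log m / (θ * L) := by rw [div_div, mul_comm]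
  rw [e1] at h1
  rw [h1]
  refine integral_congr_ae (Eventually.of_forall fun τ => ?_)
  simp only
  congr 1
  rw [cpow_eq_exp (by omega : m ≠ 0)]
  congr 1
  push_cast
  have : (L : ℂ) ≠ 0 := by exact_mod_cast hL0.ne'
  field_simp

/-- coefficients of `F m` -/
noncomputable def BA (ps lam : ℕ → ℂ) (θ L : ℝ) : ArithmeticFunction ℂ := af (bq ps lam θ L 0) * af lam

lemma bq_int {θ : ℝ} {w : ℝ → ℂ} (h : FW θ w) {L : ℝ} (hL : 1 ≤ L) {m : ℕ} (hm : 1 ≤ m) :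
    bq ps lam θ L 0 m = ∫ τ : ℝ, w τ * (mf ps lam m * (m : ℂ) ^ (-((1 + I * τ) / L))) := by
  unfold bq
  rw [neg_zero, Complex.cpow_zero, mul_one, ph_eq h hL hm, ← integral_const_mul]
  refine integral_congr_ae (Eventually.of_forall fun τ => ?_)
  simp only
  ring

lemma ss_re {L : ℝ} (τ : ℝ) : ((1 + I * τ) / L : ℂ).re = 1 / L := by
  rw [Complex.div_ofReal_re]
  simp

lemma term_cont {L : ℝ} (a : ℕ) (ha : a ≠ 0) : Continuous fun τ : ℝ => (a : ℂ) ^ (-((1 + I * τ) / L) : ℂ) := by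
  have : (fun τ : ℝ => (a : ℂ) ^ (-((1 + I * τ) / L) : ℂ)) = fun τ : ℝ => cexp (-(((1 + I * τ) / L) * Real.log a)) := by
    funext τ
    rw [cpow_eq_exp ha]
  rw [this]
  fun_prop

lemma CA_mul_apply (w : ℂ) (G : ArithmeticFunction ℂ) (n : ℕ) :
    (CA ps lam w * G) n = ∑ x ∈ n.divisorsAntidiagonal, mf ps lam x.1 * (x.1 : ℂ) ^ (-w) * (af lam * G) x.2 := by
  unfold CA
  rw [mul_assoc, ArithmeticFunction.mul_apply]
  refine sum_congr rfl fun x hx => ?_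
  have h1 := Nat.ne_zero_of_mem_divisorsAntidiagonal hx
  rw [af_apply h1.1]

lemma CAG_cont {L : ℝ} (G : ArithmeticFunction ℂ) (n : ℕ) :
    Continuous fun τ : ℝ => (CA ps lam ((1 + I * τ) / L) * G) n := by
  simp only [CA_mul_apply]
  refine continuous_finsetSum _ fun x hx => ?_
  have h1 := Nat.ne_zero_of_mem_divisorsAntidiagonal hx
  exact (continuous_const.mul (term_cont x.1 h1.1)).mul continuous_const

lemma CAG_bdd {L : ℝ} (hL : 1 ≤ L) (G : ArithmeticFunction ℂ) (n : ℕ) (τ : ℝ) :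
    ‖(CA ps lam ((1 + I * τ) / L) * G) n‖ ≤ ∑ x ∈ n.divisorsAntidiagonal, ‖mf ps lam x.1‖ * ‖(af lam * G) x.2‖ := by
  rw [CA_mul_apply]
  refine (norm_sum_le _ _).trans (sum_le_sum fun x hx => ?_)
  have h1 := Nat.ne_zero_of_mem_divisorsAntidiagonal hx
  rw [norm_mul, norm_mul]
  have h2 : ‖(x.1 : ℂ) ^ (-((1 + I * τ) / L) : ℂ)‖ ≤ 1 := by
    apply norm_cpow_le_one h1.1
    rw [ss_re]
    positivity
  have h3 : 0 ≤ ‖mf ps lam x.1‖ * ‖(af lam * G) x.2‖ := by positivity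
  calc ‖mf ps lam x.1‖ * ‖(x.1 : ℂ) ^ (-((1 + I * τ) / L) : ℂ)‖ * ‖(af lam * G) x.2‖
      = (‖mf ps lam x.1‖ * ‖(af lam * G) x.2‖) * ‖(x.1 : ℂ) ^ (-((1 + I * τ) / L) : ℂ)‖ := by ring
    _ ≤ _ := mul_le_of_le_one_right h3 h2

/-- the integral representation of a product with `BA` -/
lemma BA_int {θ : ℝ} {w : ℝ → ℂ} (h : FW θ w) {L : ℝ} (hL : 1 ≤ L) (G : ArithmeticFunction ℂ) (n : ℕ) :
    (BA ps lam θ L * G) n = ∫ τ : ℝ, w τ * (CA ps lam ((1 + I * τ) / L) * G) n := by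
  have hint : ∀ x ∈ n.divisorsAntidiagonal, Integrable fun τ : ℝ => w τ * (mf ps lam x.1 *
      (x.1 : ℂ) ^ (-((1 + I * τ) / L) : ℂ)) * (af lam * G) x.2 := by
    intro x hx
    have h1 := Nat.ne_zero_of_mem_divisorsAntidiagonal hx
    refine Integrable.mul_const ?_ _
    refine Integrable.mul_bdd (c := ‖mf ps lam x.1‖) h.int0 ?_ (Eventually.of_forall fun τ => ?_)
    · exact (continuous_const.mul (term_cont x.1 h1.1)).aestronglyMeasurable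
    · rw [norm_mul]
      refine mul_le_of_le_one_right (norm_nonneg _) (norm_cpow_le_one h1.1 ?_)
      rw [ss_re]
      positivity
  unfold BA
  rw [mul_assoc, ArithmeticFunction.mul_apply]
  simp only [CA_mul_apply]
  have e1 : ∀ τ : ℝ, w τ * ∑ x ∈ n.divisorsAntidiagonal, mf ps lam x.1 * (x.1 : ℂ) ^ (-((1 + I * τ) / L) : ℂ) *
      (af lam * G) x.2 = ∑ x ∈ n.divisorsAntidiagonal, w τ * (mf ps lam x.1 *
      (x.1 : ℂ) ^ (-((1 + I * τ) / L) : ℂ)) * (af lam * G) x.2 := by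
    intro τ
    rw [mul_sum]
    exact sum_congr rfl fun x _ => by ring
  simp only [e1]
  rw [integral_finsetSum _ hint]
  refine sum_congr rfl fun x hx => ?_
  have h1 := Nat.ne_zero_of_mem_divisorsAntidiagonal hx
  rw [af_apply h1.1, bq_int h hL (by omega), integral_mul_const]

/-- sums of squares of integrals -/
lemma sum_int_sq {θ : ℝ} {w : ℝ → ℂ} (h : FW θ w) {ι : Type*} (s : Finset ι) (a : ι → ℝ) (ha : ∀ i ∈ s, 0 ≤ a i)
    (g : ι → ℝ → ℂ) (hg : ∀ i ∈ s, Continuous (g i)) (K : ι → ℝ) (hK : ∀ i ∈ s, ∀ τ, ‖g i τ‖ ≤ K i)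
    {C : ℝ} {N : ℕ} (hC : ∀ τ : ℝ, ∑ i ∈ s, a i * ‖g i τ‖ ^ 2 ≤ C * (1 + |τ|) ^ N) :
    ∑ i ∈ s, a i * ‖∫ τ, w τ * g i τ‖ ^ 2 ≤ (∫ τ, ‖w τ‖) * ((∫ τ, ‖w τ‖ * (1 + |τ|) ^ N) * C) := by
  have hw0 : 0 ≤ ∫ τ, ‖w τ‖ := integral_nonneg fun τ => norm_nonneg _
  have i1 : ∀ i ∈ s, ∀ k : ℕ, Integrable fun τ => ‖w τ‖ * ‖g i τ‖ ^ k := by
    intro i hi k
    refine Integrable.mul_bdd (c := K i ^ k) h.int0.norm ((hg i hi).norm.pow k).aestronglyMeasurable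
      (Eventually.of_forall fun τ => ?_)
    rw [norm_pow, norm_norm]
    exact pow_le_pow_left₀ (norm_nonneg _) (hK i hi τ) k
  have h1 : ∀ i ∈ s, ‖∫ τ, w τ * g i τ‖ ^ 2 ≤ (∫ τ, ‖w τ‖) * ∫ τ, ‖w τ‖ * ‖g i τ‖ ^ 2 := by
    intro i hi
    have h2 : ‖∫ τ, w τ * g i τ‖ ≤ ∫ τ, ‖w τ‖ * ‖g i τ‖ := by
      refine (norm_integral_le_integral_norm _).trans (le_of_eq ?_)
      refine integral_congr_ae (Eventually.of_forall fun τ => ?_)
      simp only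
      rw [norm_mul]
    have h3 := cs (fun τ => ‖w τ‖) (fun τ => ‖g i τ‖) (fun τ => norm_nonneg _) h.int0.norm
      (by simpa using i1 i hi 1) (i1 i hi 2)
    exact (pow_le_pow_left₀ (norm_nonneg _) h2 2).trans h3
  calc ∑ i ∈ s, a i * ‖∫ τ, w τ * g i τ‖ ^ 2
      ≤ ∑ i ∈ s, a i * ((∫ τ, ‖w τ‖) * ∫ τ, ‖w τ‖ * ‖g i τ‖ ^ 2) :=
        sum_le_sum fun i hi => mul_le_mul_of_nonneg_left (h1 i hi) (ha i hi)
    _ = (∫ τ, ‖w τ‖) * ∫ τ, ∑ i ∈ s, a i * (‖w τ‖ * ‖g i τ‖ ^ 2) := by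
        rw [integral_finsetSum _ fun i hi => (i1 i hi 2).const_mul _, mul_sum]
        refine sum_congr rfl fun i _ => ?_
        rw [integral_const_mul]
        ring
    _ ≤ _ := by
        refine mul_le_mul_of_nonneg_left ?_ hw0
        rw [← integral_mul_const]
        refine integral_mono (integrable_finsetSum _ fun i hi => (i1 i hi 2).const_mul _)
          ((h.int N).mul_const C) fun τ => ?_
        calc ∑ i ∈ s, a i * (‖w τ‖ * ‖g i τ‖ ^ 2) = ‖w τ‖ * ∑ i ∈ s, a i * ‖g i τ‖ ^ 2 := by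
              rw [mul_sum]
              exact sum_congr rfl fun i _ => by ring
          _ ≤ ‖w τ‖ * (C * (1 + |τ|) ^ N) := mul_le_mul_of_nonneg_left (hC τ) (norm_nonneg _)
          _ = _ := by ring

/-- the induction -/
theorem pow_bd {th C : ℝ} (hd : Dat ps lam th C) {θ : ℝ} {w : ℝ → ℂ} (h : FW θ w) (r : ℕ) : ∀ j : ℕ,
    ∃ K : ℝ, 0 < K ∧ ∀ (L : ℝ) (τ : Fin j → ℝ) (X : ℕ), 1 ≤ L →
    ∑ n ∈ Icc 1 X, (n : ℝ) ^ (-(1 + 1 / L)) *
      ‖(CP ps lam (fun i => (1 + I * (τ i)) / L) * BA ps lam θ L ^ r) n‖ ^ 2 ≤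
      K * ∏ i, (1 + |τ i|) ^ (16 * (j + r)) := by
  induction r with
  | zero =>
    intro j
    obtain ⟨K, hK, h1⟩ := eulj hd j
    refine ⟨K, hK, fun L τ X hL => ?_⟩
    simpa using h1 L τ X hL
  | succ r ih =>
    intro j
    obtain ⟨K, hK, h1⟩ := ih (j + 1)
    set N := 16 * (j + 1 + r) with hN
    have hW0 : 0 ≤ ∫ τ, ‖w τ‖ := integral_nonneg fun τ => norm_nonneg _
    have hW1 : 0 ≤ ∫ τ, ‖w τ‖ * (1 + |τ|) ^ N := integral_nonneg fun τ => by positivity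
    refine ⟨(∫ τ, ‖w τ‖) * ((∫ τ, ‖w τ‖ * (1 + |τ|) ^ N) * K) + 1, by positivity, fun L τ X hL => ?_⟩
    set Pr := ∏ i, (1 + |τ i|) ^ N with hPr
    have hPr1 : 0 ≤ Pr := prod_nonneg fun i _ => by positivity
    set G := CP ps lam (fun i => (1 + I * (τ i)) / L) * BA ps lam θ L ^ r with hG
    have e0 : CP ps lam (fun i => (1 + I * (τ i)) / L) * BA ps lam θ L ^ (r + 1) = BA ps lam θ L * G := by
      rw [hG, pow_succ]
      ring
    have e1 : ∀ t : ℝ, CA ps lam ((1 + I * t) / L) * G =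
        CP ps lam (fun i => (1 + I * ((Fin.cons t τ : Fin (j + 1) → ℝ) i)) / L) * BA ps lam θ L ^ r := by
      intro t
      rw [hG, CP_succ]
      simp only [Fin.cons_zero, Fin.cons_succ]
      ring
    simp only [e0, BA_int h hL]
    have key := sum_int_sq h (Icc 1 X) (fun n : ℕ => (n : ℝ) ^ (-(1 + 1 / L)))
      (fun n _ => Real.rpow_nonneg (Nat.cast_nonneg _) _)
      (fun n t => (CA ps lam ((1 + I * t) / L) * G) n) (fun n _ => CAG_cont G n) _ (fun n _ t => CAG_bdd hL G n t)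
      (C := K * Pr) (N := N) (fun t => by
        have h2 := h1 L (Fin.cons t τ) X hL
        rw [Fin.prod_univ_succ] at h2
        simp only [Fin.cons_zero, Fin.cons_succ] at h2
        rw [← hPr] at h2
        simp only [e1]
        refine le_trans (le_of_eq ?_) (h2.trans (le_of_eq (by ring)))
        rfl)
    refine key.trans ?_
    have e2 : 16 * (j + (r + 1)) = N := by rw [hN]; ring
    rw [e2, ← hPr]
    have : (∫ τ, ‖w τ‖) * ((∫ τ, ‖w τ‖ * (1 + |τ|) ^ N) * (K * Pr)) =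
        ((∫ τ, ‖w τ‖) * ((∫ τ, ‖w τ‖ * (1 + |τ|) ^ N) * K)) * Pr := by ring
    rw [this]
    nlinarith

/-- powers of the coefficients of `F m` -/
theorem BA_pow {th C : ℝ} (hd : Dat ps lam th C) {θ : ℝ} (hθ : 0 < θ) (r : ℕ) :
    ∃ K : ℝ, 0 < K ∧ ∀ (L : ℝ) (X : ℕ), 1 ≤ L →
    ∑ n ∈ Icc 1 X, (n : ℝ) ^ (-(1 + 1 / L)) * ‖(BA ps lam θ L ^ r) n‖ ^ 2 ≤ K := by
  obtain ⟨w, h1, h2, h3⟩ := four hθ
  obtain ⟨K, hK, h4⟩ := pow_bd hd (θ := θ) (w := w) ⟨h1, h2, h3⟩ r 0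
  refine ⟨K, hK, fun L X hL => ?_⟩
  have h5 := h4 L (fun i => i.elim0) X hL
  simpa [CP_zero] using h5

end Pool.Agent.Y24.GL
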