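import Pool.Agent.Y24.GL.G4
import Pool.Agent.W190.C1

set_option autoImplicit false

/-!
The inverse of `F m` as a Dirichlet polynomial: its mean square.
-/

namespace Pool.Agent.Y24.GL

open Complex Finset MeasureTheory Filter
open Pool.Agent.H24R2.DZ (MM)
open Pool.Agent.Y771.GL

variable {ps lam : ℕ → ℂ}

/-- families with bounded sums of squares -/
def SQ (f : ℝ → ArithmeticFunction ℂ) : Prop := ∃ K : ℝ, 0 < K ∧ ∀ (L : ℝ) (X : ℕ), 1 ≤ L →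
  ∑ n ∈ Icc 1 X, (n : ℝ) ^ (-(1 + 1 / L)) * ‖(f L) n‖ ^ 2 ≤ K

lemma SQ.sub {f g : ℝ → ArithmeticFunction ℂ} (hf : SQ f) (hg : SQ g) : SQ (fun L => f L - g L) := by
  obtain ⟨K1, hK1, h1⟩ := hf
  obtain ⟨K2, hK2, h2⟩ := hg
  refine ⟨2 * K1 + 2 * K2, by positivity, fun L X hL => ?_⟩
  calc ∑ n ∈ Icc 1 X, (n : ℝ) ^ (-(1 + 1 / L)) * ‖(f L - g L) n‖ ^ 2
      ≤ ∑ n ∈ Icc 1 X, (2 * ((n : ℝ) ^ (-(1 + 1 / L)) * ‖(f L) n‖ ^ 2) + 2 * ((n : ℝ) ^ (-(1 + 1 / L)) * ‖(g L) n‖ ^ 2)) := by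
        refine sum_le_sum fun n _ => ?_
        have h3 : 0 ≤ (n : ℝ) ^ (-(1 + 1 / L)) := Real.rpow_nonneg (Nat.cast_nonneg _) _
        have h4 : ‖(f L - g L) n‖ ^ 2 ≤ 2 * ‖(f L) n‖ ^ 2 + 2 * ‖(g L) n‖ ^ 2 := by
          have h5 : ‖(f L - g L) n‖ ≤ ‖(f L) n‖ + ‖(g L) n‖ := by
            rw [show (f L - g L) n = (f L) n - (g L) n by
              rw [sub_eq_add_neg, ArithmeticFunction.add_apply, ArithmeticFunction.neg_apply, sub_eq_add_neg]]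
            exact norm_sub_le _ _
          have h6 := pow_le_pow_left₀ (norm_nonneg _) h5 2
          nlinarith [sq_nonneg (‖(f L) n‖ - ‖(g L) n‖)]
        calc (n : ℝ) ^ (-(1 + 1 / L)) * ‖(f L - g L) n‖ ^ 2 ≤ (n : ℝ) ^ (-(1 + 1 / L)) * (2 * ‖(f L) n‖ ^ 2 + 2 * ‖(g L) n‖ ^ 2) :=
              mul_le_mul_of_nonneg_left h4 h3
          _ = _ := by ring
    _ ≤ _ := by
        rw [sum_add_distrib, ← mul_sum, ← mul_sum]
        have a1 := h1 L X hL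
        have a2 := h2 L X hL
        linarith

lemma SQ.add {f g : ℝ → ArithmeticFunction ℂ} (hf : SQ f) (hg : SQ g) : SQ (fun L => f L + g L) := by
  obtain ⟨K1, hK1, h1⟩ := hf
  obtain ⟨K2, hK2, h2⟩ := hg
  refine ⟨2 * K1 + 2 * K2, by positivity, fun L X hL => ?_⟩
  calc ∑ n ∈ Icc 1 X, (n : ℝ) ^ (-(1 + 1 / L)) * ‖(f L + g L) n‖ ^ 2
      ≤ ∑ n ∈ Icc 1 X, (2 * ((n : ℝ) ^ (-(1 + 1 / L)) * ‖(f L) n‖ ^ 2) + 2 * ((n : ℝ) ^ (-(1 + 1 / L)) * ‖(g L) n‖ ^ 2)) := by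
        refine sum_le_sum fun n _ => ?_
        have h3 : 0 ≤ (n : ℝ) ^ (-(1 + 1 / L)) := Real.rpow_nonneg (Nat.cast_nonneg _) _
        have h4 : ‖(f L + g L) n‖ ^ 2 ≤ 2 * ‖(f L) n‖ ^ 2 + 2 * ‖(g L) n‖ ^ 2 := by
          have h5 : ‖(f L + g L) n‖ ≤ ‖(f L) n‖ + ‖(g L) n‖ := by
            rw [ArithmeticFunction.add_apply]
            exact norm_add_le _ _
          have h6 := pow_le_pow_left₀ (norm_nonneg _) h5 2
          nlinarith [sq_nonneg (‖(f L) n‖ - ‖(g L) n‖)]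
        calc (n : ℝ) ^ (-(1 + 1 / L)) * ‖(f L + g L) n‖ ^ 2 ≤ (n : ℝ) ^ (-(1 + 1 / L)) * (2 * ‖(f L) n‖ ^ 2 + 2 * ‖(g L) n‖ ^ 2) :=
              mul_le_mul_of_nonneg_left h4 h3
          _ = _ := by ring
    _ ≤ _ := by
        rw [sum_add_distrib, ← mul_sum, ← mul_sum]
        have a1 := h1 L X hL
        have a2 := h2 L X hL
        linarith

lemma SQ.zero : SQ (fun _ => 0) := ⟨1, one_pos, fun L X _ => by simp⟩

/-- the truncated inverse of `F m` -/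
noncomputable def IV (ps lam : ℕ → ℂ) (θ L : ℝ) (K : ℕ) : ArithmeticFunction ℂ :=
  ∑ k ∈ range K, (1 - BA ps lam θ L) ^ k

lemma SQ_pow {th C : ℝ} (hd : Dat ps lam th C) {θ : ℝ} (hθ : 0 < θ) (k : ℕ) : ∀ m : ℕ,
    SQ (fun L => (1 - BA ps lam θ L) ^ k * BA ps lam θ L ^ m) := by
  induction k with
  | zero =>
    intro m
    have h := BA_pow hd hθ m
    simp only [pow_zero, one_mul]
    exact h
  | succ k ih =>
    intro m
    have e : (fun L => (1 - BA ps lam θ L) ^ (k + 1) * BA ps lam θ L ^ m) =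
        fun L => (1 - BA ps lam θ L) ^ k * BA ps lam θ L ^ m - (1 - BA ps lam θ L) ^ k * BA ps lam θ L ^ (m + 1) := by
      funext L
      ring
    rw [e]
    exact (ih m).sub (ih (m + 1))

theorem SQ_IV {th C : ℝ} (hd : Dat ps lam th C) {θ : ℝ} (hθ : 0 < θ) (K : ℕ) : SQ (fun L => IV ps lam θ L K) := by
  unfold IV
  induction K with
  | zero => simpa using SQ.zero
  | succ K ih =>
    have e : (fun L => ∑ k ∈ range (K + 1), (1 - BA ps lam θ L) ^ k) =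
        fun L => (∑ k ∈ range K, (1 - BA ps lam θ L) ^ k) + (1 - BA ps lam θ L) ^ K * BA ps lam θ L ^ 0 := by
      funext L
      rw [sum_range_succ, pow_zero, mul_one]
    rw [e]
    exact ih.add (SQ_pow hd hθ K 0)

/-- the mean square of a short Dirichlet polynomial -/
theorem msq (b : ℕ → ℂ) (Y : ℕ) {T : ℝ} (hT : 1 ≤ T) (hY : (Y : ℝ) ≤ T) :
    ∫ t in (T / 4)..(4 * T), ‖MM Y b (((1 / 2 : ℝ) : ℂ) + (t : ℂ) * I)‖ ^ 2 ≤
      (Real.exp 16 * (192 * Real.sqrt Real.pi)) * T * ∑ n ∈ Icc 1 Y, ‖b n‖ ^ 2 / n := by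
  have hT0 : 0 < T := by linarith
  have hYT : (Y : ℝ) ≤ T ^ 2 := by nlinarith
  have hS : ∀ n ∈ Icc 1 Y, 1 ≤ n ∧ n ≤ Y := fun n hn => mem_Icc.mp hn
  obtain ⟨i1, h1⟩ := Pool.Agent.W190.gmv (1 / 2) (Icc 1 Y) (fun n => (b n).re) Y hS T hT hYT
  obtain ⟨i2, h2⟩ := Pool.Agent.W190.gmv (1 / 2) (Icc 1 Y) (fun n => (b n).im) Y hS T hT hYT
  have hsplit : ∀ t : ℝ, ‖MM Y b (((1 / 2 : ℝ) : ℂ) + (t : ℂ) * I)‖ ^ 2 ≤
      2 * ‖∑ n ∈ Icc 1 Y, ((b n).re : ℂ) * (n : ℂ) ^ (-(((1 / 2 : ℝ) : ℂ) + t * I))‖ ^ 2 +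
      2 * ‖∑ n ∈ Icc 1 Y, ((b n).im : ℂ) * (n : ℂ) ^ (-(((1 / 2 : ℝ) : ℂ) + t * I))‖ ^ 2 := by
    intro t
    set A := ∑ n ∈ Icc 1 Y, ((b n).re : ℂ) * (n : ℂ) ^ (-(((1 / 2 : ℝ) : ℂ) + t * I)) with hA
    set B := ∑ n ∈ Icc 1 Y, ((b n).im : ℂ) * (n : ℂ) ^ (-(((1 / 2 : ℝ) : ℂ) + t * I)) with hB
    have e : MM Y b (((1 / 2 : ℝ) : ℂ) + (t : ℂ) * I) = A + I * B := by
      unfold Pool.Agent.H24R2.DZ.MM
      rw [hA, hB, mul_sum, ← sum_add_distrib]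
      refine sum_congr rfl fun n _ => ?_
      conv_lhs => rw [← Complex.re_add_im (b n)]
      ring
    rw [e]
    have h3 : ‖A + I * B‖ ≤ ‖A‖ + ‖B‖ := by
      refine (norm_add_le _ _).trans ?_
      rw [norm_mul, norm_I, one_mul]
    have h4 := pow_le_pow_left₀ (norm_nonneg _) h3 2
    nlinarith [sq_nonneg (‖A‖ - ‖B‖)]
  have hE : ∀ t ∈ Set.Icc (T / 4) (4 * T), 1 ≤ Real.exp 16 * Real.exp (-(t / T) ^ 2) := by
    intro t ht
    rw [← Real.exp_add]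
    apply Real.one_le_exp
    have h3 : t / T ≤ 4 := by rw [div_le_iff₀ hT0]; exact ht.2
    have h4 : 0 ≤ t / T := div_nonneg (by linarith [ht.1]) hT0.le
    nlinarith
  have hcont : Continuous fun t : ℝ => ‖MM Y b (((1 / 2 : ℝ) : ℂ) + (t : ℂ) * I)‖ ^ 2 := by
    unfold Pool.Agent.H24R2.DZ.MM
    refine Continuous.pow (continuous_norm.comp (continuous_finsetSum _ fun n hn => continuous_const.mul ?_)) 2
    have hn1 := (mem_Icc.mp hn).1
    refine Continuous.const_cpow (by fun_prop) (Or.inl ?_)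
    have : n ≠ 0 := by omega
    exact_mod_cast this
  have hsum : ∀ c : ℕ → ℝ, (∀ n, c n ^ 2 ≤ ‖b n‖ ^ 2) →
      ∑ n ∈ Icc 1 Y, (T + n) * (c n ^ 2 * (n : ℝ) ^ (-(2 * (1 / 2 : ℝ)))) ≤ 2 * T * ∑ n ∈ Icc 1 Y, ‖b n‖ ^ 2 / n := by
    intro c hc
    rw [mul_sum]
    refine sum_le_sum fun n hn => ?_
    have hn1 := mem_Icc.mp hn
    have hn0 : (0 : ℝ) < n := by exact_mod_cast hn1.1
    have hnY : (n : ℝ) ≤ T := le_trans (by exact_mod_cast hn1.2) hY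
    have e : (n : ℝ) ^ (-(2 * (1 / 2 : ℝ))) = 1 / n := by
      rw [show -(2 * (1 / 2 : ℝ)) = -1 by norm_num, Real.rpow_neg_one, one_div]
    rw [e]
    calc (T + n) * (c n ^ 2 * (1 / n)) ≤ (2 * T) * (‖b n‖ ^ 2 * (1 / n)) := by
          apply mul_le_mul (by linarith) _ (by positivity) (by positivity)
          exact mul_le_mul_of_nonneg_right (hc n) (by positivity)
      _ = _ := by ring
  have hre := hsum (fun n => (b n).re) (fun n => by
    rw [← sq_abs]; exact pow_le_pow_left₀ (abs_nonneg _) (Complex.abs_re_le_norm _) 2)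
  have him := hsum (fun n => (b n).im) (fun n => by
    rw [← sq_abs]; exact pow_le_pow_left₀ (abs_nonneg _) (Complex.abs_im_le_norm _) 2)
  set Q := ∑ n ∈ Icc 1 Y, ‖b n‖ ^ 2 / n with hQ
  set f1 : ℝ → ℝ := fun t => Real.exp (-(t / T) ^ 2) *
      ‖∑ n ∈ Icc 1 Y, ((b n).re : ℂ) * (n : ℂ) ^ (-(((1 / 2 : ℝ) : ℂ) + t * I))‖ ^ 2 with hf1
  set f2 : ℝ → ℝ := fun t => Real.exp (-(t / T) ^ 2) *
      ‖∑ n ∈ Icc 1 Y, ((b n).im : ℂ) * (n : ℂ) ^ (-(((1 / 2 : ℝ) : ℂ) + t * I))‖ ^ 2 with hf2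
  have hle : T / 4 ≤ 4 * T := by linarith
  have hfin : IntegrableOn (fun t => Real.exp 16 * (2 * f1 t + 2 * f2 t)) (Set.Ioc (T / 4) (4 * T)) :=
    (((i1.const_mul 2).add (i2.const_mul 2)).const_mul (Real.exp 16)).integrableOn
  calc ∫ t in (T / 4)..(4 * T), ‖MM Y b (((1 / 2 : ℝ) : ℂ) + (t : ℂ) * I)‖ ^ 2
      ≤ ∫ t in (T / 4)..(4 * T), Real.exp 16 * (2 * f1 t + 2 * f2 t) := by
        refine intervalIntegral.integral_mono_on hle (hcont.intervalIntegrable _ _) ?_ fun t ht => ?_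
        · rw [intervalIntegrable_iff_integrableOn_Ioc_of_le hle]
          exact hfin
        · have h3 := hE t ht
          have h4 := hsplit t
          set A2 := ‖∑ n ∈ Icc 1 Y, ((b n).re : ℂ) * (n : ℂ) ^ (-(((1 / 2 : ℝ) : ℂ) + t * I))‖ ^ 2 with hA2
          set B2 := ‖∑ n ∈ Icc 1 Y, ((b n).im : ℂ) * (n : ℂ) ^ (-(((1 / 2 : ℝ) : ℂ) + t * I))‖ ^ 2 with hB2
          have hA0 : 0 ≤ A2 := by positivity
          have hB0 : 0 ≤ B2 := by positivity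
          have h5 : Real.exp 16 * (2 * f1 t + 2 * f2 t) = (Real.exp 16 * Real.exp (-(t / T) ^ 2)) * (2 * A2 + 2 * B2) := by
            rw [hf1, hf2]
            ring
          rw [h5]
          refine h4.trans ?_
          nlinarith
    _ ≤ ∫ t : ℝ, Real.exp 16 * (2 * f1 t + 2 * f2 t) := by
        rw [intervalIntegral.integral_of_le hle]
        refine setIntegral_le_integral (((i1.const_mul 2).add (i2.const_mul 2)).const_mul (Real.exp 16))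
          (Eventually.of_forall fun t => ?_)
        simp only [hf1, hf2, Pi.zero_apply]
        positivity
    _ = Real.exp 16 * (2 * (∫ t : ℝ, f1 t) + 2 * ∫ t : ℝ, f2 t) := by
        rw [integral_const_mul, integral_add (i1.const_mul 2) (i2.const_mul 2), integral_const_mul, integral_const_mul]
    _ ≤ Real.exp 16 * (2 * (24 * Real.sqrt Real.pi * (2 * T * Q)) + 2 * (24 * Real.sqrt Real.pi * (2 * T * Q))) := by
        have a1 : ∫ t : ℝ, f1 t ≤ 24 * Real.sqrt Real.pi * (2 * T * Q) :=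
          h1.trans (mul_le_mul_of_nonneg_left hre (by positivity))
        have a2 : ∫ t : ℝ, f2 t ≤ 24 * Real.sqrt Real.pi * (2 * T * Q) :=
          h2.trans (mul_le_mul_of_nonneg_left him (by positivity))
        gcongr
    _ = _ := by ring

/-- the mean square of the long factor -/
theorem msq_IV {th C : ℝ} (hd : Dat ps lam th C) {θ : ℝ} (hθ : 0 < θ) (K : ℕ) : ∃ C1 : ℝ, 0 < C1 ∧
    ∀ (T : ℝ) (Y : ℕ), 3 ≤ T → (Y : ℝ) ≤ T →
    ∫ t in (T / 4)..(4 * T), ‖MM Y (IV ps lam θ (Real.log T) K) (((1 / 2 : ℝ) : ℂ) + (t : ℂ) * I)‖ ^ 2 ≤ C1 * T := by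
  obtain ⟨K1, hK1, h1⟩ := SQ_IV hd hθ K
  refine ⟨(Real.exp 16 * (192 * Real.sqrt Real.pi)) * (Real.exp 1 * K1), by positivity, fun T Y hT hY => ?_⟩
  have hT0 : 0 < T := by linarith
  have hL : 1 ≤ Real.log T := by
    rw [Real.le_log_iff_exp_le hT0]
    have := Real.exp_one_lt_d9
    linarith
  have hL0 : 0 < Real.log T := by linarith
  refine (msq _ Y (by linarith) hY).trans ?_
  have h2 : ∑ n ∈ Icc 1 Y, ‖(IV ps lam θ (Real.log T) K) n‖ ^ 2 / n ≤ Real.exp 1 * K1 := by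
    refine le_trans ?_ (mul_le_mul_of_nonneg_left (h1 (Real.log T) Y hL) (Real.exp_pos 1).le)
    rw [mul_sum]
    refine sum_le_sum fun n hn => ?_
    have hn1 := mem_Icc.mp hn
    have hn0 : (0 : ℝ) < n := by exact_mod_cast hn1.1
    have hnT : (n : ℝ) ≤ T := le_trans (by exact_mod_cast hn1.2) hY
    have e1 : (1 : ℝ) / n ≤ Real.exp 1 * (n : ℝ) ^ (-(1 + 1 / Real.log T)) := by
      have e2 : (n : ℝ) ^ (-(1 + 1 / Real.log T)) = (1 / n) * Real.exp (-(Real.log n / Real.log T)) := by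
        have e6 : (n : ℝ) ^ (-(1 / Real.log T)) = Real.exp (-(Real.log n / Real.log T)) := by
          rw [Real.rpow_def_of_pos hn0]
          congr 1
          ring
        rw [neg_add, Real.rpow_add hn0, Real.rpow_neg_one, e6, one_div]
      rw [e2]
      have e3 : Real.log n / Real.log T ≤ 1 := by
        rw [div_le_one hL0]
        exact Real.log_le_log hn0 hnT
      have e4 : 1 ≤ Real.exp 1 * Real.exp (-(Real.log n / Real.log T)) := by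
        rw [← Real.exp_add]
        apply Real.one_le_exp
        linarith
      have e5 : 0 ≤ (1 : ℝ) / n := by positivity
      nlinarith
    calc ‖(IV ps lam θ (Real.log T) K) n‖ ^ 2 / n = ‖(IV ps lam θ (Real.log T) K) n‖ ^ 2 * (1 / n) := by ring
      _ ≤ ‖(IV ps lam θ (Real.log T) K) n‖ ^ 2 * (Real.exp 1 * (n : ℝ) ^ (-(1 + 1 / Real.log T))) :=
          mul_le_mul_of_nonneg_left e1 (sq_nonneg _)
      _ = _ := by ring
  calc (Real.exp 16 * (192 * Real.sqrt Real.pi)) * T * ∑ n ∈ Icc 1 Y, ‖(IV ps lam θ (Real.log T) K) n‖ ^ 2 / n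
      ≤ (Real.exp 16 * (192 * Real.sqrt Real.pi)) * T * (Real.exp 1 * K1) := by gcongr
    _ = _ := by ring

end Pool.Agent.Y24.GL
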