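import Pool.Agent.Y24.GL.G5

set_option autoImplicit false

/-!
The product `F m M` to the right.
-/

namespace Pool.Agent.Y24.GL

open Complex Finset Filter
open Pool.Agent.H24R2.DZ (MM ph)
open Pool.Agent.Y771.GL
open Pool.Agent.Y671.GL (mf bq IsL mT yT)

variable {ps lam : ℕ → ℂ}

/-- families with bounded absolute sums -/
def AB (f : ℝ → ArithmeticFunction ℂ) : Prop := ∃ S : ℝ, 0 < S ∧ ∀ (L : ℝ) (X : ℕ),
  ∑ n ∈ Icc 1 X, ‖(f L) n‖ / (n : ℝ) ^ 2 ≤ S

lemma AB.mul {f g : ℝ → ArithmeticFunction ℂ} (hf : AB f) (hg : AB g) : AB (fun L => f L * g L) := by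
  obtain ⟨S1, hS1, h1⟩ := hf
  obtain ⟨S2, hS2, h2⟩ := hg
  refine ⟨S1 * S2, by positivity, fun L X => ?_⟩
  have e1 : ∀ n ∈ Icc 1 X, ‖(f L * g L) n‖ / (n : ℝ) ^ 2 ≤
      ∑ x ∈ n.divisorsAntidiagonal, (‖(f L) x.1‖ / (x.1 : ℝ) ^ 2) * (‖(g L) x.2‖ / (x.2 : ℝ) ^ 2) := by
    intro n hn
    have hn0 : (0 : ℝ) < n := by exact_mod_cast (mem_Icc.mp hn).1
    rw [div_le_iff₀ (by positivity), ArithmeticFunction.mul_apply, sum_mul]
    refine (norm_sum_le _ _).trans (sum_le_sum fun x hx => ?_)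
    have h3 := Nat.ne_zero_of_mem_divisorsAntidiagonal hx
    have h4 := (Nat.mem_divisorsAntidiagonal.mp hx).1
    have h5 : (n : ℝ) = x.1 * x.2 := by exact_mod_cast h4.symm
    have h6 : (x.1 : ℝ) ≠ 0 := by exact_mod_cast h3.1
    have h7 : (x.2 : ℝ) ≠ 0 := by exact_mod_cast h3.2
    rw [norm_mul, h5]
    apply le_of_eq
    field_simp
  refine (sum_le_sum e1).trans ?_
  rw [← sum_biUnion]
  · calc ∑ x ∈ (Icc 1 X).biUnion fun n => n.divisorsAntidiagonal,
          (‖(f L) x.1‖ / (x.1 : ℝ) ^ 2) * (‖(g L) x.2‖ / (x.2 : ℝ) ^ 2)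
        ≤ ∑ x ∈ Icc 1 X ×ˢ Icc 1 X, (‖(f L) x.1‖ / (x.1 : ℝ) ^ 2) * (‖(g L) x.2‖ / (x.2 : ℝ) ^ 2) := by
          refine sum_le_sum_of_subset_of_nonneg ?_ fun x _ _ => by positivity
          intro x hx
          rw [mem_biUnion] at hx
          obtain ⟨n, hn, hx⟩ := hx
          have h3 := Nat.ne_zero_of_mem_divisorsAntidiagonal hx
          have h4 := (Nat.mem_divisorsAntidiagonal.mp hx).1
          have hn1 := mem_Icc.mp hn
          have h5 : x.1 ≤ n := by rw [← h4]; exact Nat.le_mul_of_pos_right _ (by omega)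
          have h6 : x.2 ≤ n := by rw [← h4]; exact Nat.le_mul_of_pos_left _ (by omega)
          rw [mem_product, mem_Icc, mem_Icc]
          omega
      _ = (∑ a ∈ Icc 1 X, ‖(f L) a‖ / (a : ℝ) ^ 2) * ∑ b ∈ Icc 1 X, ‖(g L) b‖ / (b : ℝ) ^ 2 := by
          rw [sum_mul_sum, sum_product]
      _ ≤ S1 * S2 := mul_le_mul (h1 L X) (h2 L X) (sum_nonneg fun _ _ => by positivity) hS1.le
  · intro a _ b _ hab
    simp only [Function.onFun]
    rw [disjoint_left]
    intro x hx hx2
    have h4 := (Nat.mem_divisorsAntidiagonal.mp hx).1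
    have h5 := (Nat.mem_divisorsAntidiagonal.mp hx2).1
    exact hab (h4.symm.trans h5)

lemma AB.sub {f g : ℝ → ArithmeticFunction ℂ} (hf : AB f) (hg : AB g) : AB (fun L => f L - g L) := by
  obtain ⟨S1, hS1, h1⟩ := hf
  obtain ⟨S2, hS2, h2⟩ := hg
  refine ⟨S1 + S2, by positivity, fun L X => ?_⟩
  refine le_trans (sum_le_sum fun n hn => ?_) (le_trans (le_of_eq sum_add_distrib) (add_le_add (h1 L X) (h2 L X)))
  rw [← add_div]
  apply div_le_div_of_nonneg_right _ (by positivity)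
  rw [show (f L - g L) n = (f L) n - (g L) n by
    rw [sub_eq_add_neg, ArithmeticFunction.add_apply, ArithmeticFunction.neg_apply, sub_eq_add_neg]]
  exact norm_sub_le _ _

lemma AB.add {f g : ℝ → ArithmeticFunction ℂ} (hf : AB f) (hg : AB g) : AB (fun L => f L + g L) := by
  obtain ⟨S1, hS1, h1⟩ := hf
  obtain ⟨S2, hS2, h2⟩ := hg
  refine ⟨S1 + S2, by positivity, fun L X => ?_⟩
  refine le_trans (sum_le_sum fun n hn => ?_) (le_trans (le_of_eq sum_add_distrib) (add_le_add (h1 L X) (h2 L X)))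
  rw [← add_div]
  apply div_le_div_of_nonneg_right _ (by positivity)
  rw [ArithmeticFunction.add_apply]
  exact norm_add_le _ _

lemma AB.one : AB (fun _ => 1) := by
  refine ⟨1, one_pos, fun L X => ?_⟩
  have : ∀ n ∈ Icc 1 X, ‖(1 : ArithmeticFunction ℂ) n‖ / (n : ℝ) ^ 2 = if n = 1 then 1 else 0 := by
    intro n _
    rw [ArithmeticFunction.one_apply]
    split_ifs with h
    · rw [h]; simp
    · simp
  rw [sum_congr rfl this, sum_ite_eq']
  split_ifs <;> norm_num

lemma AB.pow {f : ℝ → ArithmeticFunction ℂ} (hf : AB f) (k : ℕ) : AB (fun L => f L ^ k) := by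
  induction k with
  | zero => simpa using AB.one
  | succ k ih =>
    simp only [pow_succ]
    exact ih.mul hf

lemma AB.of_bd {f : ℝ → ArithmeticFunction ℂ} {C t : ℝ} (hC : 0 ≤ C) (ht : t < 1)
    (h : ∀ (L : ℝ) (n : ℕ), 1 ≤ n → ‖(f L) n‖ ≤ C * (n : ℝ) ^ t) : AB f := by
  have hs : Summable fun n : ℕ => (n : ℝ) ^ (t - 2) := Real.summable_nat_rpow.mpr (by linarith)
  refine ⟨C * ∑' n : ℕ, (n : ℝ) ^ (t - 2) + 1, by
    have : 0 ≤ ∑' n : ℕ, (n : ℝ) ^ (t - 2) := tsum_nonneg fun n => Real.rpow_nonneg (Nat.cast_nonneg _) _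
    positivity, fun L X => ?_⟩
  have h1 : ∑ n ∈ Icc 1 X, ‖(f L) n‖ / (n : ℝ) ^ 2 ≤ ∑ n ∈ Icc 1 X, C * (n : ℝ) ^ (t - 2) := by
    refine sum_le_sum fun n hn => ?_
    have hn1 := (mem_Icc.mp hn).1
    have hn0 : (0 : ℝ) < n := by exact_mod_cast hn1
    rw [div_le_iff₀ (by positivity), mul_assoc, ← Real.rpow_natCast (n : ℝ) 2, ← Real.rpow_add hn0]
    have : t - 2 + ((2 : ℕ) : ℝ) = t := by push_cast; ring
    rw [this]
    exact h L n hn1
  refine h1.trans ?_
  rw [← mul_sum]
  have h2 := hs.sum_le_tsum (Icc 1 X) (fun n _ => Real.rpow_nonneg (Nat.cast_nonneg _) _)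
  have := mul_le_mul_of_nonneg_left h2 hC
  linarith

/-- the Dirichlet series to the right -/
theorem ls_bd {f : ArithmeticFunction ℂ} {S : ℝ} (hS : ∀ X : ℕ, ∑ n ∈ Icc 1 X, ‖f n‖ / (n : ℝ) ^ 2 ≤ S)
    {s : ℂ} (hs : 2 ≤ s.re) {D : ℝ} (h0 : ∀ n : ℕ, 1 ≤ n → Real.log n < D → f n = 0) :
    LSeriesSummable (fun n => f n) s ∧ ‖LSeries (fun n => f n) s‖ ≤ Real.exp (-((s.re - 2) * D)) * S := by
  have ha : Summable (fun n : ℕ => ‖f n‖ / (n : ℝ) ^ 2) := by
    refine summable_of_sum_range_le (c := S) (fun n => by positivity) fun n => ?_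
    refine le_trans ?_ (hS n)
    have h1 : range n ⊆ insert 0 (Icc 1 n) := by
      intro m hm
      rw [mem_range] at hm
      rw [mem_insert, mem_Icc]
      omega
    refine (sum_le_sum_of_subset_of_nonneg h1 fun _ _ _ => by positivity).trans ?_
    rw [sum_insert (by simp)]
    simp
  have hb : ∑' n : ℕ, ‖f n‖ / (n : ℝ) ^ 2 ≤ S := by
    refine Real.tsum_le_of_sum_range_le (fun n => by positivity) fun n => ?_
    refine le_trans ?_ (hS n)
    have h1 : range n ⊆ insert 0 (Icc 1 n) := by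
      intro m hm
      rw [mem_range] at hm
      rw [mem_insert, mem_Icc]
      omega
    refine (sum_le_sum_of_subset_of_nonneg h1 fun _ _ _ => by positivity).trans ?_
    rw [sum_insert (by simp)]
    simp
  have hE : 0 ≤ Real.exp (-((s.re - 2) * D)) := (Real.exp_pos _).le
  have ht : ∀ n : ℕ, ‖LSeries.term (fun n => f n) s n‖ ≤ Real.exp (-((s.re - 2) * D)) * (‖f n‖ / (n : ℝ) ^ 2) := by
    intro n
    rcases Nat.eq_zero_or_pos n with h1 | h1
    · subst h1
      simp
    · rw [LSeries.term_of_ne_zero (by omega), norm_div, Complex.norm_natCast_cpow_of_pos h1]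
      have hn0 : (0 : ℝ) < n := by exact_mod_cast h1
      by_cases h2 : f n = 0
      · rw [h2]; simp
      · have h3 : D ≤ Real.log n := by
          by_contra hcon
          exact h2 (h0 n h1 (not_le.mp hcon))
        have h4 : (n : ℝ) ^ s.re = (n : ℝ) ^ (s.re - 2) * (n : ℝ) ^ 2 := by
          rw [← Real.rpow_natCast, ← Real.rpow_add hn0]
          congr 1; push_cast; ring
        have h5 : Real.exp ((s.re - 2) * D) ≤ (n : ℝ) ^ (s.re - 2) := by
          rw [Real.rpow_def_of_pos hn0]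
          apply Real.exp_le_exp.mpr
          rw [mul_comm]
          exact mul_le_mul_of_nonneg_right h3 (by linarith)
        rw [h4, Real.exp_neg]
        have h6 : 0 < (n : ℝ) ^ (s.re - 2) := by positivity
        calc ‖f n‖ / ((n : ℝ) ^ (s.re - 2) * (n : ℝ) ^ 2) ≤ ‖f n‖ / (Real.exp ((s.re - 2) * D) * (n : ℝ) ^ 2) := by
              gcongr
          _ = _ := by field_simp
  refine ⟨Summable.of_norm_bounded (ha.mul_left _) ht, ?_⟩
  calc ‖LSeries (fun n => f n) s‖ ≤ ∑' n : ℕ, Real.exp (-((s.re - 2) * D)) * (‖f n‖ / (n : ℝ) ^ 2) :=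
        tsum_of_norm_bounded (ha.mul_left _).hasSum ht
    _ = Real.exp (-((s.re - 2) * D)) * ∑' n : ℕ, ‖f n‖ / (n : ℝ) ^ 2 := tsum_mul_left
    _ ≤ _ := mul_le_mul_of_nonneg_left hb hE

lemma AB_lam {th C : ℝ} (hd : Dat ps lam th C) : AB (fun _ => af lam) := by
  refine AB.of_bd (C := C) (t := th) (by linarith [hd.C1]) (by linarith [hd.th1]) fun L n hn => ?_
  rw [af_apply (by omega)]
  exact hd.bd n hn

lemma norm_bq_le (θ L : ℝ) (n : ℕ) : ‖bq ps lam θ L 0 n‖ ≤ ‖mf ps lam n‖ := by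
  unfold bq
  rw [neg_zero, Complex.cpow_zero, mul_one, norm_mul, Complex.norm_real, Real.norm_eq_abs]
  refine mul_le_of_le_one_right (norm_nonneg _) ?_
  unfold Pool.Agent.H24R2.DZ.ph
  rw [abs_of_nonneg (Real.smoothTransition.nonneg _)]
  exact Real.smoothTransition.le_one _

lemma AB_bq {th C : ℝ} (hd : Dat ps lam th C) (θ : ℝ) : AB (fun L => af (bq ps lam θ L 0)) := by
  obtain ⟨t, C', _, ht1, hb⟩ := hd.mf_bd
  have hC' : 0 ≤ C' := by
    have := (norm_nonneg _).trans (hb 1 le_rfl)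
    simpa using this
  refine AB.of_bd (t := t) hC' (by linarith) fun L n hn => ?_
  rw [af_apply (by omega)]
  exact (norm_bq_le θ L n).trans (hb n hn)

lemma AB_BA {th C : ℝ} (hd : Dat ps lam th C) (θ : ℝ) : AB (fun L => BA ps lam θ L) := by
  unfold BA
  exact (AB_bq hd θ).mul (AB_lam hd)

lemma AB_IV {th C : ℝ} (hd : Dat ps lam th C) (θ : ℝ) (K : ℕ) : AB (fun L => IV ps lam θ L K) := by
  unfold IV
  induction K with
  | zero =>
    refine ⟨1, one_pos, fun L X => ?_⟩
    simp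
  | succ K ih =>
    simp only [sum_range_succ]
    exact ih.add ((AB.one.sub (AB_BA hd θ)).pow K)

/-- the first coefficients of `F m` -/
lemma BA_van {th C : ℝ} (hd : Dat ps lam th C) {θ L : ℝ} (hθ : 0 < θ) (hL : 0 < L) (n : ℕ) (hn : 1 ≤ n)
    (hlog : Real.log n < θ / 2 * L) : (1 - BA ps lam θ L) n = 0 := by
  rw [sub_eq_add_neg, ArithmeticFunction.add_apply, ArithmeticFunction.neg_apply, ← sub_eq_add_neg, sub_eq_zero]
  have h1 : BA ps lam θ L n = ∑ x ∈ n.divisorsAntidiagonal, mf ps lam x.1 * lam x.2 := by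
    unfold BA
    rw [ArithmeticFunction.mul_apply]
    refine sum_congr rfl fun x hx => ?_
    have h3 := Nat.ne_zero_of_mem_divisorsAntidiagonal hx
    have h4 := (Nat.mem_divisorsAntidiagonal.mp hx).1
    rw [af_apply h3.1, af_apply h3.2]
    unfold bq
    rw [neg_zero, Complex.cpow_zero, mul_one]
    have h5 : x.1 ≤ n := by rw [← h4]; exact Nat.le_mul_of_pos_right _ (by omega)
    have h6 : (0 : ℝ) < x.1 := by exact_mod_cast (by omega : 0 < x.1)
    have h7 : Real.log x.1 < θ / 2 * L := (Real.log_le_log h6 (by exact_mod_cast h5)).trans_lt hlog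
    have h8 : Real.log x.1 / (θ * L) ≤ 1 / 2 := by
      rw [div_le_iff₀ (by positivity)]
      nlinarith
    unfold Pool.Agent.H24R2.DZ.ph
    rw [Real.smoothTransition.one_of_one_le (by linarith)]
    simp
  rw [h1, Nat.sum_divisorsAntidiagonal (fun a b => mf ps lam a * lam b), inverse hd.hk n hn,
    ArithmeticFunction.one_apply]

/-- the Dirichlet series of `F m` -/
lemma LS_BA {th C : ℝ} (hd : Dat ps lam th C) {F : ℂ → ℂ} (hF : IsL lam F) {θ T : ℝ} (hθ : 0 < θ) (hT : 3 ≤ T)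
    {s : ℂ} (hs : 2 ≤ s.re) : LSeries (fun n => BA ps lam θ (Real.log T) n) s = F s * mT ps lam θ T s := by
  obtain ⟨S1, _, h1⟩ := AB_bq hd θ
  obtain ⟨S2, _, h2⟩ := AB_lam hd
  have a1 := (ls_bd (h1 (Real.log T)) hs (D := -1) (fun n hn h => by
    exact absurd h (not_lt.mpr (le_trans (by norm_num) (Real.log_natCast_nonneg n))))).1
  have a2 := (ls_bd (h2 (Real.log T)) hs (D := -1) (fun n hn h => by
    exact absurd h (not_lt.mpr (le_trans (by norm_num) (Real.log_natCast_nonneg n))))).1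
  have hT0 : 0 < T := by linarith
  have hlT : 1 ≤ Real.log T := by
    rw [Real.le_log_iff_exp_le hT0]
    have := Real.exp_one_lt_d9
    linarith
  unfold BA
  rw [ArithmeticFunction.LSeries_mul' a1 a2, mul_comm]
  congr 1
  · rw [hF.ser s (by linarith)]
    unfold LSeries
    refine tsum_congr fun n => ?_
    rcases Nat.eq_zero_or_pos n with h | h
    · subst h
      have : (0 : ℂ) ^ (-s) = 0 := Complex.zero_cpow (by
        intro h; have := congrArg Complex.re h; simp at this; linarith)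
      simp [this]
    · rw [LSeries.term_of_ne_zero (by omega), af_apply (by omega), Complex.cpow_neg]
      rfl
  · unfold Pool.Agent.Y671.GL.mT Pool.Agent.H24R2.DZ.MM LSeries
    rw [tsum_eq_sum (s := Icc 1 (yT θ T))]
    · refine sum_congr rfl fun n hn => ?_
      have hn1 := (mem_Icc.mp hn).1
      rw [LSeries.term_of_ne_zero (by omega), af_apply (by omega), Complex.cpow_neg]
      rfl
    · intro n hn
      rcases Nat.eq_zero_or_pos n with h0 | h0
      · subst h0; simp
      · rw [LSeries.term_of_ne_zero (by omega), af_apply (by omega)]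
        have h3 : yT θ T < n := by
          by_contra hcon
          exact hn (mem_Icc.mpr ⟨h0, by omega⟩)
        rw [Pool.Agent.Y494.GL.bq_zero_of (Real.log T) hlT hθ 0 ps lam (yT θ T) n ?_ h3]
        · simp
        · unfold Pool.Agent.Y671.GL.yT
          refine le_trans (le_of_eq ?_) (Nat.le_ceil _)
          rw [Real.rpow_def_of_pos hT0, mul_comm]

lemma LS_pow {f : ArithmeticFunction ℂ} {s : ℂ} (h : LSeriesSummable (fun n => f n) s) (k : ℕ) :
    LSeriesSummable (fun n => (f ^ k) n) s ∧ LSeries (fun n => (f ^ k) n) s = LSeries (fun n => f n) s ^ k := by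
  induction k with
  | zero =>
    simp only [pow_zero]
    have e : (fun n => (1 : ArithmeticFunction ℂ) n) = LSeries.delta := by
      funext n
      simp [ArithmeticFunction.one_apply, LSeries.delta]
    rw [e]
    refine ⟨?_, by rw [LSeries_delta]; rfl⟩
    unfold LSeriesSummable
    refine summable_of_ne_finset_zero (s := {1}) fun n hn => ?_
    rw [mem_singleton] at hn
    rcases eq_or_ne n 0 with h0 | h0
    · rw [h0]; simp
    · rw [LSeries.term_of_ne_zero h0]
      simp [LSeries.delta, hn]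
  | succ k ih =>
    simp only [pow_succ]
    refine ⟨ArithmeticFunction.LSeriesSummable_mul ih.1 h, ?_⟩
    rw [ArithmeticFunction.LSeries_mul' ih.1 h, ih.2]

lemma LS_IV {th C : ℝ} (hd : Dat ps lam th C) {θ L : ℝ} (K : ℕ) {s : ℂ} (hs : 2 ≤ s.re) :
    LSeriesSummable (fun n => IV ps lam θ L K n) s ∧
    LSeries (fun n => IV ps lam θ L K n) s = ∑ k ∈ range K, (1 - LSeries (fun n => BA ps lam θ L n) s) ^ k := by
  have hneg : ∀ n : ℕ, 1 ≤ n → Real.log n < -1 → False := fun n _ h => by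
    exact absurd h (not_lt.mpr (le_trans (by norm_num) (Real.log_natCast_nonneg n)))
  obtain ⟨S1, _, h1⟩ := AB.one
  obtain ⟨S2, _, h2⟩ := AB_BA hd θ
  obtain ⟨S3, _, h3⟩ := AB.one.sub (AB_BA hd θ)
  have a1 := (ls_bd (h1 L) hs (D := -1) (fun n hn h => (hneg n hn h).elim)).1
  have a2 := (ls_bd (h2 L) hs (D := -1) (fun n hn h => (hneg n hn h).elim)).1
  have a3 := (ls_bd (h3 L) hs (D := -1) (fun n hn h => (hneg n hn h).elim)).1
  have e1 : LSeries (fun n => (1 - BA ps lam θ L) n) s = 1 - LSeries (fun n => BA ps lam θ L n) s := by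
    have e2 : (fun n => (1 - BA ps lam θ L) n) = (fun n => (1 : ArithmeticFunction ℂ) n) - fun n => BA ps lam θ L n := by
      funext n
      rw [Pi.sub_apply, sub_eq_add_neg, ArithmeticFunction.add_apply, ArithmeticFunction.neg_apply, ← sub_eq_add_neg]
    rw [e2, LSeries_sub a1 a2]
    congr 1
    have h0 := (LS_pow (f := 1) a1 0).2
    simpa using h0
  induction K with
  | zero =>
    have e0 : (fun n => IV ps lam θ L 0 n) = fun _ => (0 : ℂ) := by
      funext n
      simp [IV]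
    rw [e0]
    refine ⟨?_, ?_⟩
    · have : LSeries.term (fun _ => (0 : ℂ)) s = fun _ => 0 := by
        funext n
        rcases eq_or_ne n 0 with h | h
        · rw [h]; simp
        · rw [LSeries.term_of_ne_zero h]; simp
      unfold LSeriesSummable
      rw [this]
      exact summable_zero
    · have : LSeries (fun _ => (0 : ℂ)) s = 0 := by
        have h5 := LSeries_zero
        exact congrFun h5 s
      rw [this]
      simp
  | succ K ih =>
    have e5 : (fun n => IV ps lam θ L (K + 1) n) = (fun n => IV ps lam θ L K n) + fun n => ((1 - BA ps lam θ L) ^ K) n := by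
      funext n
      unfold IV
      rw [sum_range_succ, ArithmeticFunction.add_apply]
      rfl
    have h5 := LS_pow a3 K
    rw [e5]
    refine ⟨ih.1.add h5.1, ?_⟩
    rw [LSeries_add ih.1 h5.1, ih.2, h5.2, e1, sum_range_succ]

/-- the product to the right -/
theorem right_bd {th C : ℝ} (hd : Dat ps lam th C) {F : ℂ → ℂ} (hF : IsL lam F) {θ : ℝ} (hθ : 0 < θ)
    {K : ℕ} (hK : 2 ≤ θ * K) : ∃ C1 : ℝ, 0 < C1 ∧ ∀ (T D : ℝ), 3 ≤ T → 0 ≤ D → D ≤ Real.log T →
    ∀ s : ℂ, 2 ≤ s.re →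
    ‖F s * mT ps lam θ T s * MM ⌊Real.exp D⌋₊ (IV ps lam θ (Real.log T) K) s - 1‖ ≤
      C1 * Real.exp (-((s.re - 2) * D)) := by
  obtain ⟨S2, hS2, h2⟩ := AB_BA hd θ
  obtain ⟨S3, hS3, h3⟩ := AB.one.sub (AB_BA hd θ)
  obtain ⟨S4, hS4, h4⟩ := AB_IV hd θ K
  refine ⟨S2 * S4 + S3 ^ K, by positivity, fun T D hT hD hDT s hs => ?_⟩
  have hneg : ∀ n : ℕ, 1 ≤ n → Real.log n < -1 → False := fun n _ h => by
    exact absurd h (not_lt.mpr (le_trans (by norm_num) (Real.log_natCast_nonneg n)))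
  have hneg0 : ∀ n : ℕ, 1 ≤ n → Real.log n < 0 → False := fun n _ h => by
    exact absurd h (not_lt.mpr (Real.log_natCast_nonneg n))
  have hT0 : 0 < T := by linarith
  have hlT : 1 ≤ Real.log T := by
    rw [Real.le_log_iff_exp_le hT0]
    have := Real.exp_one_lt_d9
    linarith
  have hs2 : 0 ≤ s.re - 2 := by linarith
  set L := Real.log T with hL
  set W := LSeries (fun n => BA ps lam θ L n) s with hW
  set V := LSeries (fun n => IV ps lam θ L K n) s with hV
  have hFW : F s * mT ps lam θ T s = W := (LS_BA hd hF hθ hT hs).symm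
  obtain ⟨sV, eV⟩ := LS_IV hd (θ := θ) (L := L) K hs
  rw [← hW, ← hV] at eV
  -- the sum of the geometric series
  have hWV : W * V - 1 = -(1 - W) ^ K := by
    have h5 := geom_sum_mul (1 - W) K
    rw [← eV] at h5
    linear_combination -h5
  -- bounds
  have bW : ‖W‖ ≤ S2 := by
    have h5 := (ls_bd (h2 L) hs (D := 0) (fun n hn h => (hneg0 n hn h).elim)).2
    rw [← hW] at h5
    simpa using h5
  have b1W : ‖1 - W‖ ≤ Real.exp (-((s.re - 2) * (θ / 2 * L))) * S3 := by
    have h5 := (ls_bd (h3 L) hs (D := θ / 2 * L) (fun n hn h => BA_van hd hθ (by linarith) n hn h)).2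
    have h6 := (LS_IV hd (θ := θ) (L := L) 1 hs)
    have e1 : LSeries (fun n => (1 - BA ps lam θ L) n) s = 1 - W := by
      obtain ⟨T1, _, t1⟩ := AB.one
      have a1 := (ls_bd (t1 L) hs (D := -1) (fun n hn h => (hneg n hn h).elim)).1
      have a2 := (ls_bd (h2 L) hs (D := -1) (fun n hn h => (hneg n hn h).elim)).1
      have e2 : (fun n => (1 - BA ps lam θ L) n) = (fun n => (1 : ArithmeticFunction ℂ) n) - fun n => BA ps lam θ L n := by
        funext n
        rw [Pi.sub_apply, sub_eq_add_neg, ArithmeticFunction.add_apply, ArithmeticFunction.neg_apply, ← sub_eq_add_neg]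
      rw [e2, LSeries_sub a1 a2]
      congr 1
      have h0 := (LS_pow (f := 1) a1 0).2
      simpa using h0
    rw [e1] at h5
    exact h5
  have bpow : ‖(1 - W) ^ K‖ ≤ Real.exp (-((s.re - 2) * D)) * S3 ^ K := by
    rw [norm_pow]
    calc ‖1 - W‖ ^ K ≤ (Real.exp (-((s.re - 2) * (θ / 2 * L))) * S3) ^ K := pow_le_pow_left₀ (norm_nonneg _) b1W K
      _ = Real.exp (K * (-((s.re - 2) * (θ / 2 * L)))) * S3 ^ K := by rw [mul_pow, ← Real.exp_nat_mul]
      _ ≤ _ := by
          apply mul_le_mul_of_nonneg_right _ (by positivity)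
          apply Real.exp_le_exp.mpr
          have e3 : (K : ℝ) * (-((s.re - 2) * (θ / 2 * L))) = -((s.re - 2) * ((θ * K) / 2 * L)) := by ring
          rw [e3, neg_le_neg_iff]
          apply mul_le_mul_of_nonneg_left _ hs2
          nlinarith
  -- the tail
  have bt : ‖V - MM ⌊Real.exp D⌋₊ (IV ps lam θ L K) s‖ ≤ Real.exp (-((s.re - 2) * D)) * S4 := by
    set g : ArithmeticFunction ℂ := ⟨fun n => if n ≤ ⌊Real.exp D⌋₊ then 0 else IV ps lam θ L K n, by simp⟩ with hg
    have hgn : ∀ n, g n = if n ≤ ⌊Real.exp D⌋₊ then 0 else IV ps lam θ L K n := fun n => rfl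
    have hgS : ∀ X : ℕ, ∑ n ∈ Icc 1 X, ‖g n‖ / (n : ℝ) ^ 2 ≤ S4 := by
      intro X
      refine le_trans (sum_le_sum fun n _ => ?_) (h4 L X)
      apply div_le_div_of_nonneg_right _ (by positivity)
      rw [hgn]
      split_ifs
      · simp
      · exact le_rfl
    have h5 := ls_bd hgS hs (D := D) (fun n hn h => by
      rw [hgn, if_pos]
      rw [Nat.le_floor_iff (Real.exp_pos _).le]
      have hn0 : (0 : ℝ) < n := by exact_mod_cast hn
      exact ((Real.log_le_iff_le_exp hn0).mp h.le))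
    have e4 : V - MM ⌊Real.exp D⌋₊ (IV ps lam θ L K) s = LSeries (fun n => g n) s := by
      rw [sub_eq_iff_eq_add, hV]
      have e5 : MM ⌊Real.exp D⌋₊ (IV ps lam θ L K) s = ∑' n, (if n ≤ ⌊Real.exp D⌋₊ then
          LSeries.term (fun n => IV ps lam θ L K n) s n else 0) := by
        unfold Pool.Agent.H24R2.DZ.MM
        rw [tsum_eq_sum (s := Icc 1 ⌊Real.exp D⌋₊)]
        · refine sum_congr rfl fun n hn => ?_
          have hn1 := mem_Icc.mp hn
          rw [if_pos hn1.2, LSeries.term_of_ne_zero (by omega), Complex.cpow_neg]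
          rfl
        · intro n hn
          split_ifs with h6
          · have : n = 0 := by
              by_contra h7
              exact hn (mem_Icc.mpr ⟨by omega, h6⟩)
            rw [this]; simp
          · rfl
      rw [e5]
      unfold LSeries
      have hfin : Summable fun n => (if n ≤ ⌊Real.exp D⌋₊ then
          LSeries.term (fun n => IV ps lam θ L K n) s n else 0) := by
        refine summable_of_ne_finset_zero (s := Icc 0 ⌊Real.exp D⌋₊) fun n hn => ?_
        rw [if_neg]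
        intro h6
        exact hn (mem_Icc.mpr ⟨by omega, h6⟩)
      rw [← h5.1.tsum_add hfin]
      refine tsum_congr fun n => ?_
      rcases eq_or_ne n 0 with h0 | h0
      · rw [h0]; simp
      · rw [LSeries.term_of_ne_zero h0, LSeries.term_of_ne_zero h0, hgn]
        split_ifs <;> simp
    rw [e4]
    exact h5.2
  have e6 : F s * mT ps lam θ T s * MM ⌊Real.exp D⌋₊ (IV ps lam θ L K) s - 1 =
      (W * V - 1) - W * (V - MM ⌊Real.exp D⌋₊ (IV ps lam θ L K) s) := by
    rw [hFW]; ring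
  rw [e6, hWV]
  have hE := Real.exp_pos (-((s.re - 2) * D))
  calc ‖-(1 - W) ^ K - W * (V - MM ⌊Real.exp D⌋₊ (IV ps lam θ L K) s)‖
      ≤ ‖-(1 - W) ^ K‖ + ‖W * (V - MM ⌊Real.exp D⌋₊ (IV ps lam θ L K) s)‖ := norm_sub_le _ _
    _ ≤ Real.exp (-((s.re - 2) * D)) * S3 ^ K + S2 * (Real.exp (-((s.re - 2) * D)) * S4) := by
        rw [norm_neg, norm_mul]
        exact add_le_add bpow (mul_le_mul bW bt (norm_nonneg _) hS2.le)
    _ = _ := by ring

end Pool.Agent.Y24.GL
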