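import Pool.Agent.Y24.GL.H1

set_option autoImplicit false

/-!
Convexity of mean values over long segments of vertical lines, by averages of unit Gaussians.
-/

namespace Pool.Agent.Y24.GL

open Filter MeasureTheory Complex Topology Set

noncomputable section

/-- entire functions of polynomial growth in a strip -/
structure PG (f : ℂ → ℂ) (A M : ℝ) (B : ℕ) : Prop where
  df : Differentiable ℂ f
  M0 : 0 ≤ M
  gr : ∀ z : ℂ, 1 / 4 ≤ z.re → z.re ≤ A + 1 → ‖f z‖ ≤ M * (1 + |z.im|) ^ B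

/-- the weight -/
def Wt (U1 U2 y : ℝ) : ℝ := ∫ u in U1..U2, Real.exp (-(y - u) ^ 2)

lemma Wt_cont (U1 U2 : ℝ) : Continuous (Wt U1 U2) := by
  unfold Wt
  exact intervalIntegral.continuous_parametric_intervalIntegral_of_continuous' (by
    unfold Function.uncurry
    fun_prop) U1 U2

lemma Wt_nonneg {U1 U2 : ℝ} (h : U1 ≤ U2) (y : ℝ) : 0 ≤ Wt U1 U2 y :=
  intervalIntegral.integral_nonneg h fun _ _ => (Real.exp_pos _).le

lemma g_int (y : ℝ) : Integrable (fun u : ℝ => Real.exp (-(y - u) ^ 2)) := by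
  have h := (integrable_exp_neg_mul_sq (b := 1) one_pos).comp_sub_left y
  simpa using h

lemma g_val (y : ℝ) : ∫ u : ℝ, Real.exp (-(y - u) ^ 2) = Real.sqrt Real.pi := by
  have h := integral_sub_left_eq_self (fun u : ℝ => Real.exp (-u ^ 2)) volume y
  rw [h]
  have h2 := integral_gaussian 1
  simpa using h2

lemma g_int' (u : ℝ) : Integrable (fun y : ℝ => Real.exp (-(y - u) ^ 2)) := by
  have h := (integrable_exp_neg_mul_sq (b := 1) one_pos).comp_sub_right u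
  simpa using h

lemma g_val' (u : ℝ) : ∫ y : ℝ, Real.exp (-(y - u) ^ 2) = Real.sqrt Real.pi := by
  have h := integral_sub_right_eq_self (fun u : ℝ => Real.exp (-u ^ 2)) u (μ := volume)
  rw [h]
  have h2 := integral_gaussian 1
  simpa using h2

lemma sqrt_pi_le : Real.sqrt Real.pi ≤ 2 := by
  rw [Real.sqrt_le_left (by norm_num)]
  have := Real.pi_lt_four
  linarith

lemma Wt_le {U1 U2 : ℝ} (h : U1 ≤ U2) (y : ℝ) : Wt U1 U2 y ≤ 2 := by
  unfold Wt
  rw [intervalIntegral.integral_of_le h]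
  refine (setIntegral_le_integral (g_int y) (Eventually.of_forall fun u => (Real.exp_pos _).le)).trans ?_
  rw [g_val]
  exact sqrt_pi_le

lemma Wt_ge {U1 U2 y : ℝ} (h1 : U1 + 1 ≤ y) (h2 : y + 1 ≤ U2) : 1 / 2 ≤ Wt U1 U2 y := by
  unfold Wt
  have hi : ∀ a b : ℝ, IntervalIntegrable (fun u : ℝ => Real.exp (-(y - u) ^ 2)) volume a b := fun a b =>
    Continuous.intervalIntegrable (by fun_prop) _ _
  have e : ∫ u in U1..U2, Real.exp (-(y - u) ^ 2) = (∫ u in U1..(y - 1), Real.exp (-(y - u) ^ 2)) +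
      (∫ u in (y - 1)..(y + 1), Real.exp (-(y - u) ^ 2)) + ∫ u in (y + 1)..U2, Real.exp (-(y - u) ^ 2) := by
    rw [intervalIntegral.integral_add_adjacent_intervals (hi _ _) (hi _ _),
      intervalIntegral.integral_add_adjacent_intervals (hi _ _) (hi _ _)]
  rw [e]
  have a1 : 0 ≤ ∫ u in U1..(y - 1), Real.exp (-(y - u) ^ 2) :=
    intervalIntegral.integral_nonneg (by linarith) fun _ _ => (Real.exp_pos _).le
  have a2 : 0 ≤ ∫ u in (y + 1)..U2, Real.exp (-(y - u) ^ 2) :=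
    intervalIntegral.integral_nonneg (by linarith) fun _ _ => (Real.exp_pos _).le
  have a3 : 1 / 2 ≤ ∫ u in (y - 1)..(y + 1), Real.exp (-(y - u) ^ 2) := by
    have h3 : ∫ _u in (y - 1)..(y + 1), (1 / 4 : ℝ) ≤ ∫ u in (y - 1)..(y + 1), Real.exp (-(y - u) ^ 2) := by
      refine intervalIntegral.integral_mono_on (by linarith) (continuous_const.intervalIntegrable _ _) (hi _ _)
        fun u hu => ?_
      have h4 : (y - u) ^ 2 ≤ 1 := by
        have : |y - u| ≤ 1 := by rw [abs_le]; constructor <;> linarith [hu.1, hu.2]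
        rw [← sq_abs]
        exact pow_le_one₀ (abs_nonneg _) this
      have h5 : Real.exp (-1) ≤ Real.exp (-(y - u) ^ 2) := Real.exp_le_exp.mpr (by linarith)
      have h6 : (1 / 4 : ℝ) ≤ Real.exp (-1) := by
        rw [Real.exp_neg, ← one_div]
        apply one_div_le_one_div_of_le (Real.exp_pos 1)
        have := Real.exp_one_lt_d9
        linarith
      linarith
    rw [intervalIntegral.integral_const, smul_eq_mul] at h3
    linarith
  linarith

/-- polynomials against Gaussians -/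
lemma kern (B : ℕ) : ∃ K : ℝ, 0 < K ∧ ∀ y u : ℝ,
    (1 + |y|) ^ B * Real.exp (-(y - u) ^ 2) ≤ K * (1 + |u|) ^ (B + 2) * (1 / (1 + y ^ 2)) := by
  refine ⟨Real.exp (((B + 2 : ℕ) : ℝ) ^ 2), Real.exp_pos _, fun y u => ?_⟩
  have hv : ∀ v : ℝ, (1 + |v|) ^ (B + 2) ≤ Real.exp (((B + 2 : ℕ) : ℝ) ^ 2) * Real.exp (v ^ 2) := by
    intro v
    have h1 : 1 + |v| ≤ Real.exp |v| := by
      have := Real.add_one_le_exp |v|
      linarith
    calc (1 + |v|) ^ (B + 2) ≤ Real.exp |v| ^ (B + 2) := pow_le_pow_left₀ (by positivity) h1 _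
      _ = Real.exp (((B + 2 : ℕ) : ℝ) * |v|) := by rw [← Real.exp_nat_mul]
      _ ≤ Real.exp (((B + 2 : ℕ) : ℝ) ^ 2 + v ^ 2) := by
          apply Real.exp_le_exp.mpr
          have h2 : |v| ^ 2 = v ^ 2 := sq_abs v
          nlinarith [sq_nonneg (((B + 2 : ℕ) : ℝ) - |v|), sq_nonneg (((B + 2 : ℕ) : ℝ)), sq_nonneg |v|]
      _ = _ := Real.exp_add _ _
  have h3 : 1 + |y| ≤ (1 + |u|) * (1 + |y - u|) := by
    have h4 : |y| ≤ |u| + |y - u| := by
      have h5 : y = u + (y - u) := by ring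
      calc |y| = |u + (y - u)| := by rw [← h5]
        _ ≤ _ := abs_add_le _ _
    nlinarith [abs_nonneg u, abs_nonneg (y - u)]
  have h6 : 1 + y ^ 2 ≤ (1 + |y|) ^ 2 := by
    rw [← sq_abs]; nlinarith [abs_nonneg y]
  rw [mul_one_div, le_div_iff₀ (by positivity)]
  calc (1 + |y|) ^ B * Real.exp (-(y - u) ^ 2) * (1 + y ^ 2)
      ≤ (1 + |y|) ^ B * Real.exp (-(y - u) ^ 2) * (1 + |y|) ^ 2 := by gcongr
    _ = (1 + |y|) ^ (B + 2) * Real.exp (-(y - u) ^ 2) := by ring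
    _ ≤ ((1 + |u|) * (1 + |y - u|)) ^ (B + 2) * Real.exp (-(y - u) ^ 2) := by gcongr
    _ = (1 + |u|) ^ (B + 2) * ((1 + |y - u|) ^ (B + 2) * Real.exp (-(y - u) ^ 2)) := by rw [mul_pow]; ring
    _ ≤ (1 + |u|) ^ (B + 2) * ((Real.exp (((B + 2 : ℕ) : ℝ) ^ 2) * Real.exp ((y - u) ^ 2)) * Real.exp (-(y - u) ^ 2)) := by
        gcongr
        exact hv _
    _ = Real.exp (((B + 2 : ℕ) : ℝ) ^ 2) * (1 + |u|) ^ (B + 2) * (Real.exp ((y - u) ^ 2) * Real.exp (-(y - u) ^ 2)) := by ring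
    _ = _ := by
        rw [← Real.exp_add]
        simp

/-- the localised function -/
def gu (f : ℂ → ℂ) (u : ℝ) (z : ℂ) : ℂ := f z * cexp ((z - u * I) ^ 2)

lemma norm_gu (f : ℂ → ℂ) (u : ℝ) (z : ℂ) :
    ‖gu f u z‖ = Real.exp (z.re ^ 2) * (‖f z‖ * Real.exp (-(z.im - u) ^ 2)) := by
  unfold gu
  rw [norm_mul, Complex.norm_exp]
  have h1 : ((z - u * I) ^ 2).re = z.re ^ 2 + -(z.im - u) ^ 2 := by
    rw [sq, Complex.mul_re]
    simp
    ring
  rw [h1, Real.exp_add]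
  ring

variable {f : ℂ → ℂ} {A M : ℝ} {B : ℕ}

lemma PG.sd (hf : PG f A M B) (u : ℝ) : ∃ C : ℝ, SD (gu f u) (1 / 2) A (1 / 8) C := by
  obtain ⟨K, hK, hk⟩ := kern B
  have hM := hf.M0
  refine ⟨Real.exp ((|A| + 1) ^ 2) * (M * (K * (1 + |u|) ^ (B + 2))), by norm_num, by norm_num, by positivity, fun z _ _ => ?_, fun z h1 h2 => ?_⟩
  · unfold gu
    exact (hf.df z).mul (by fun_prop)
  · rw [norm_gu]
    have e1 := hf.gr z (by linarith) (by linarith)
    have e2 := hk z.im u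
    have e3 : Real.exp (z.re ^ 2) ≤ Real.exp ((|A| + 1) ^ 2) := by
      apply Real.exp_le_exp.mpr
      have h3 : |z.re| ≤ |A| + 1 := by
        rw [abs_le]
        have := le_abs_self A
        have := abs_nonneg A
        constructor <;> linarith
      rw [← sq_abs]
      exact pow_le_pow_left₀ (abs_nonneg _) h3 2
    calc Real.exp (z.re ^ 2) * (‖f z‖ * Real.exp (-(z.im - u) ^ 2))
        ≤ Real.exp ((|A| + 1) ^ 2) * ((M * (1 + |z.im|) ^ B) * Real.exp (-(z.im - u) ^ 2)) := by gcongr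
      _ = Real.exp ((|A| + 1) ^ 2) * (M * ((1 + |z.im|) ^ B * Real.exp (-(z.im - u) ^ 2))) := by ring
      _ ≤ Real.exp ((|A| + 1) ^ 2) * (M * (K * (1 + |u|) ^ (B + 2) * (1 / (1 + z.im ^ 2)))) := by gcongr
      _ = _ := by ring

/-- the local mean value -/
def Ps (f : ℂ → ℂ) (x u : ℝ) : ℝ := ∫ y : ℝ, ‖f ((x : ℂ) + (y : ℂ) * I)‖ * Real.exp (-(y - u) ^ 2)

lemma lre (x y : ℝ) : ((x : ℂ) + (y : ℂ) * I).re = x := by simp
lemma lim (x y : ℝ) : ((x : ℂ) + (y : ℂ) * I).im = y := by simp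

lemma gu_line (f : ℂ → ℂ) (x u : ℝ) : ∫ y : ℝ, ‖gu f u ((x : ℂ) + (y : ℂ) * I)‖ = Real.exp (x ^ 2) * Ps f x u := by
  unfold Ps
  rw [← integral_const_mul]
  refine integral_congr_ae (Eventually.of_forall fun y => ?_)
  simp only
  rw [norm_gu, lre, lim]

lemma Ps_nonneg (f : ℂ → ℂ) (x u : ℝ) : 0 ≤ Ps f x u := integral_nonneg fun y => by positivity

lemma f_line (hf : PG f A M B) (x : ℝ) : Continuous fun y : ℝ => f ((x : ℂ) + (y : ℂ) * I) :=
  hf.df.continuous.comp (by fun_prop)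

/-- joint integrability -/
lemma joint (hf : PG f A M B) {x : ℝ} (h1 : 1 / 2 ≤ x) (h2 : x ≤ A) {U1 U2 : ℝ} (hU : U1 ≤ U2) :
    Integrable (fun p : ℝ × ℝ => ‖f ((x : ℂ) + (p.2 : ℂ) * I)‖ * Real.exp (-(p.2 - p.1) ^ 2))
      ((volume.restrict (Set.Ioc U1 U2)).prod volume) := by
  obtain ⟨K, hK, hk⟩ := kern B
  have hM := hf.M0
  set U := |U1| + |U2| with hUd
  have hb : Integrable (fun p : ℝ × ℝ => (1 : ℝ) * (M * (K * (1 + U) ^ (B + 2)) * (1 + p.2 ^ 2)⁻¹))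
      ((volume.restrict (Set.Ioc U1 U2)).prod volume) := by
    refine Integrable.mul_prod (f := fun _ : ℝ => (1 : ℝ)) (g := fun y : ℝ => M * (K * (1 + U) ^ (B + 2)) * (1 + y ^ 2)⁻¹) ?_ ?_
    · exact integrable_const _
    · exact integrable_inv_one_add_sq.const_mul _
  refine hb.mono' ?_ ?_
  · refine Continuous.aestronglyMeasurable ?_
    refine Continuous.mul ?_ (by fun_prop)
    exact ((f_line hf x).comp continuous_snd).norm
  · have hm : ∀ᵐ p : ℝ × ℝ ∂((volume.restrict (Set.Ioc U1 U2)).prod volume), p.1 ∈ Set.Ioc U1 U2 := by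
      have := MeasureTheory.Measure.quasiMeasurePreserving_fst (μ := volume.restrict (Set.Ioc U1 U2)) (ν := (volume : Measure ℝ))
      exact this.ae (ae_restrict_mem measurableSet_Ioc)
    filter_upwards [hm] with p hp
    have e1 := hf.gr ((x : ℂ) + (p.2 : ℂ) * I) (by rw [lre]; linarith) (by rw [lre]; linarith)
    rw [lim] at e1
    have e2 := hk p.2 p.1
    have e3 : |p.1| ≤ U := by
      rw [hUd, abs_le]
      have a1 := neg_abs_le U1
      have a2 := le_abs_self U2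
      have a3 := abs_nonneg U1
      have a4 := abs_nonneg U2
      constructor <;> linarith [hp.1, hp.2]
    rw [Real.norm_of_nonneg (by positivity), one_mul]
    calc ‖f ((x : ℂ) + (p.2 : ℂ) * I)‖ * Real.exp (-(p.2 - p.1) ^ 2)
        ≤ (M * (1 + |p.2|) ^ B) * Real.exp (-(p.2 - p.1) ^ 2) := by gcongr
      _ = M * ((1 + |p.2|) ^ B * Real.exp (-(p.2 - p.1) ^ 2)) := by ring
      _ ≤ M * (K * (1 + |p.1|) ^ (B + 2) * (1 / (1 + p.2 ^ 2))) := by gcongr
      _ ≤ M * (K * (1 + U) ^ (B + 2) * (1 / (1 + p.2 ^ 2))) := by gcongr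
      _ = _ := by rw [one_div]; ring

/-- Fubini -/
lemma fubW (hf : PG f A M B) {x : ℝ} (h1 : 1 / 2 ≤ x) (h2 : x ≤ A) {U1 U2 : ℝ} (hU : U1 ≤ U2) :
    Integrable (fun y : ℝ => ‖f ((x : ℂ) + (y : ℂ) * I)‖ * Wt U1 U2 y) ∧
    IntervalIntegrable (Ps f x) volume U1 U2 ∧
    ∫ y : ℝ, ‖f ((x : ℂ) + (y : ℂ) * I)‖ * Wt U1 U2 y = ∫ u in U1..U2, Ps f x u := by
  have hj := joint hf h1 h2 hU
  have e : ∀ y : ℝ, ‖f ((x : ℂ) + (y : ℂ) * I)‖ * Wt U1 U2 y =
      ∫ u in Set.Ioc U1 U2, ‖f ((x : ℂ) + (y : ℂ) * I)‖ * Real.exp (-(y - u) ^ 2) := by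
    intro y
    unfold Wt
    rw [intervalIntegral.integral_of_le hU, integral_const_mul]
  refine ⟨?_, ?_, ?_⟩
  · simp_rw [e]
    exact hj.integral_prod_right
  · rw [intervalIntegrable_iff_integrableOn_Ioc_of_le hU]
    exact hj.integral_prod_left
  · simp_rw [e]
    rw [intervalIntegral.integral_of_le hU]
    unfold Ps
    exact (integral_integral_swap hj).symm

/-- the mean value between the lines -/
theorem mid (hf : PG f A M B) (hA : 1 / 2 < A) {U1 U2 : ℝ} (hU : U1 ≤ U2) {E : ℝ} (hE : 0 ≤ E)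
    (hr : ∀ y : ℝ, ‖f ((A : ℂ) + (y : ℂ) * I)‖ ≤ E) {x : ℝ} (h1 : 1 / 2 ≤ x) (h2 : x ≤ A) :
    Integrable (fun y : ℝ => ‖f ((x : ℂ) + (y : ℂ) * I)‖ * Wt U1 U2 y) ∧
    ∫ y : ℝ, ‖f ((x : ℂ) + (y : ℂ) * I)‖ * Wt U1 U2 y ≤
      Real.exp (A ^ 2) * ((U2 - U1) + ∫ y : ℝ, ‖f (((1 / 2 : ℝ) : ℂ) + (y : ℂ) * I)‖ * Wt U1 U2 y) *
        (2 * E) ^ ((x - 1 / 2) / (A - 1 / 2)) := by
  obtain ⟨a1, a2, a3⟩ := fubW hf h1 h2 hU
  obtain ⟨b1, b2, b3⟩ := fubW hf le_rfl hA.le hU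
  refine ⟨a1, ?_⟩
  rw [a3, b3]
  set θ := (x - 1 / 2) / (A - 1 / 2) with hθ
  have hθ0 : 0 ≤ θ := div_nonneg (by linarith) (by linarith)
  have hθ1 : θ ≤ 1 := by rw [hθ, div_le_one (by linarith)]; linarith
  have hPA : ∀ u, Ps f A u ≤ 2 * E := by
    intro u
    have h3 : Ps f A u ≤ ∫ y : ℝ, E * Real.exp (-(y - u) ^ 2) := by
      unfold Ps
      refine integral_mono_of_nonneg (Eventually.of_forall fun y => by positivity) ((g_int' u).const_mul E)
        (Eventually.of_forall fun y => ?_)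
      simp only
      exact mul_le_mul_of_nonneg_right (hr y) (Real.exp_pos _).le
    rw [integral_const_mul, g_val'] at h3
    have := mul_le_mul_of_nonneg_left sqrt_pi_le hE
    linarith
  have key : ∀ u, Ps f x u ≤ Real.exp (A ^ 2) * (1 + Ps f (1 / 2) u) * (2 * E) ^ θ := by
    intro u
    obtain ⟨C, hC⟩ := hf.sd u
    have p1 := Ps_nonneg f (1 / 2) u
    have p2 := Ps_nonneg f A u
    have h3 := conv_l1 hC (σ := x) hA h1 h2 (A := Real.exp ((1 / 2 : ℝ) ^ 2) * Ps f (1 / 2) u)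
      (B := Real.exp (A ^ 2) * Ps f A u) (le_of_eq (gu_line f (1 / 2) u)) (le_of_eq (gu_line f A u))
    rw [gu_line, ← hθ] at h3
    have h4 : Ps f x u ≤ Real.exp (x ^ 2) * Ps f x u := by
      have h5 : 1 ≤ Real.exp (x ^ 2) := Real.one_le_exp (sq_nonneg x)
      have := Ps_nonneg f x u
      nlinarith
    refine h4.trans (h3.trans ?_)
    rw [Real.mul_rpow (Real.exp_pos _).le p1, Real.mul_rpow (Real.exp_pos _).le p2]
    have h6 : Ps f (1 / 2) u ^ (1 - θ) ≤ 1 + Ps f (1 / 2) u := by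
      calc Ps f (1 / 2) u ^ (1 - θ) ≤ (1 + Ps f (1 / 2) u) ^ (1 - θ) :=
            Real.rpow_le_rpow p1 (by linarith) (by linarith)
        _ ≤ (1 + Ps f (1 / 2) u) ^ (1 : ℝ) := Real.rpow_le_rpow_of_exponent_le (by linarith) (by linarith)
        _ = _ := Real.rpow_one _
    have h7 : Ps f A u ^ θ ≤ (2 * E) ^ θ := Real.rpow_le_rpow p2 (hPA u) hθ0
    have h8 : Real.exp ((1 / 2 : ℝ) ^ 2) ^ (1 - θ) * Real.exp (A ^ 2) ^ θ ≤ Real.exp (A ^ 2) := by
      rw [← Real.exp_mul, ← Real.exp_mul, ← Real.exp_add]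
      apply Real.exp_le_exp.mpr
      have h9 : (1 / 2 : ℝ) ^ 2 ≤ A ^ 2 := pow_le_pow_left₀ (by norm_num) hA.le 2
      nlinarith
    have h10 : 0 ≤ Ps f (1 / 2) u ^ (1 - θ) := Real.rpow_nonneg p1 _
    have h11 : 0 ≤ Ps f A u ^ θ := Real.rpow_nonneg p2 _
    calc Real.exp ((1 / 2 : ℝ) ^ 2) ^ (1 - θ) * Ps f (1 / 2) u ^ (1 - θ) * (Real.exp (A ^ 2) ^ θ * Ps f A u ^ θ)
        = (Real.exp ((1 / 2 : ℝ) ^ 2) ^ (1 - θ) * Real.exp (A ^ 2) ^ θ) * Ps f (1 / 2) u ^ (1 - θ) * Ps f A u ^ θ := by ring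
      _ ≤ Real.exp (A ^ 2) * (1 + Ps f (1 / 2) u) * (2 * E) ^ θ := by
          have h12 : 0 ≤ (2 * E) ^ θ := Real.rpow_nonneg (by positivity) _
          gcongr
  have hEθ : 0 ≤ (2 * E) ^ θ := Real.rpow_nonneg (by positivity) _
  calc ∫ u in U1..U2, Ps f x u ≤ ∫ u in U1..U2, Real.exp (A ^ 2) * (1 + Ps f (1 / 2) u) * (2 * E) ^ θ := by
        refine intervalIntegral.integral_mono_on hU a2 ?_ fun u _ => key u
        exact (((intervalIntegrable_const).add b2).const_mul _).mul_const _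
    _ = Real.exp (A ^ 2) * ((U2 - U1) + ∫ u in U1..U2, Ps f (1 / 2) u) * (2 * E) ^ θ := by
        rw [intervalIntegral.integral_mul_const, intervalIntegral.integral_const_mul,
          intervalIntegral.integral_add intervalIntegrable_const b2, intervalIntegral.integral_const, smul_eq_mul, mul_one]

end

end Pool.Agent.Y24.GL
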