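import Pool.Agent.Y24.GL.H2
import Pool.Agent.H448R2.GC.F0

set_option autoImplicit false

/-!
Mollified L-functions: mean values of exponent one on the vertical lines.
-/

namespace Pool.Agent.Y24.GL

open Filter MeasureTheory Complex Topology Set

noncomputable section

/-- L-functions -/
structure LFn (F : ℂ → ℂ) : Prop where
  diff : Differentiable ℂ F
  gro : ∀ A : ℝ, ∃ (C : ℝ) (B : ℕ), 0 < C ∧ ∀ z : ℂ, 1 / 4 ≤ z.re → z.re ≤ A → ‖F z‖ ≤ C * (1 + |z.im|) ^ B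
  low : ∃ c : ℝ, 0 < c ∧ ∀ z : ℂ, 2 ≤ z.re → c ≤ ‖F z‖
  ne : ∀ z : ℂ, 1 < z.re → F z ≠ 0

/-- mollifiers of length `T ^ κ` -/
structure Mol (F : ℂ → ℂ) (P : ℝ → ℂ → ℂ) (κ : ℝ) : Prop where
  κ0 : 0 < κ
  κ1 : κ ≤ 1
  diff : ∀ T, Differentiable ℂ (P T)
  gro : ∃ (C : ℝ) (B : ℕ), 0 < C ∧ ∀ T : ℝ, 3 ≤ T → ∀ s : ℂ, 0 ≤ s.re → ‖P T s‖ ≤ C * T ^ B
  left : ∃ C : ℝ, 0 < C ∧ ∀ᶠ T : ℝ in atTop, ∫ t in (T / 4)..(4 * T),
    ‖F (((1 / 2 : ℝ) : ℂ) + (t : ℂ) * I) * P T (((1 / 2 : ℝ) : ℂ) + (t : ℂ) * I)‖ ≤ C * T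
  right : ∃ C : ℝ, 0 < C ∧ ∀ T : ℝ, 3 ≤ T → ∀ s : ℂ, 2 ≤ s.re →
    ‖F s * P T s - 1‖ ≤ C * Real.exp (-((s.re - 2) * (κ * Real.log T)))

/-- the function to be estimated -/
def fd (F : ℂ → ℂ) (P : ℝ → ℂ → ℂ) (T : ℝ) (z : ℂ) : ℂ := F z * P T z - 1

variable {F : ℂ → ℂ} {P : ℝ → ℂ → ℂ} {κ : ℝ}

lemma fd_pg (hF : LFn F) (hP : Mol F P κ) (A : ℝ) : ∃ (C : ℝ) (B B' : ℕ), 0 < C ∧ ∀ T : ℝ, 3 ≤ T →
    PG (fd F P T) A (C * T ^ B') B := by
  obtain ⟨C1, B1, hC1, h1⟩ := hF.gro (A + 1)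
  obtain ⟨C2, B2, hC2, h2⟩ := hP.gro
  refine ⟨C1 * C2 + 1, B1, B2, by positivity, fun T hT => ⟨?_, by positivity, fun z hz1 hz2 => ?_⟩⟩
  · unfold fd
    exact (hF.diff.mul (hP.diff T)).sub_const 1
  · unfold fd
    have a1 := h1 z hz1 hz2
    have a2 := h2 T hT z (by linarith)
    have hy : 0 ≤ |z.im| := abs_nonneg _
    have e1 : (1 : ℝ) ≤ (1 + |z.im|) ^ B1 := one_le_pow₀ (by linarith)
    have e2 : (1 : ℝ) ≤ T ^ B2 := one_le_pow₀ (by linarith)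
    calc ‖F z * P T z - 1‖ ≤ ‖F z‖ * ‖P T z‖ + 1 := by
          refine (norm_sub_le _ _).trans ?_
          rw [norm_mul, norm_one]
      _ ≤ (C1 * (1 + |z.im|) ^ B1) * (C2 * T ^ B2) + 1 * (T ^ B2 * (1 + |z.im|) ^ B1) := by
          refine add_le_add (mul_le_mul a1 a2 (norm_nonneg _) (by positivity)) ?_
          rw [one_mul]
          exact one_le_mul_of_one_le_of_one_le e2 e1
      _ = _ := by ring

lemma W_far {T y : ℝ} (hT : 16 ≤ T) (hy : y ∉ Set.Icc (T / 4) (4 * T)) :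
    Wt (T - 4) (2 * T + 4) y ≤ (T + 8) * Real.exp (-(T ^ 2 / 8 + y ^ 2 / 32)) := by
  have hU : T - 4 ≤ 2 * T + 4 := by linarith
  unfold Wt
  have h : ∫ u in (T - 4)..(2 * T + 4), Real.exp (-(y - u) ^ 2) ≤
      ∫ _u in (T - 4)..(2 * T + 4), Real.exp (-(T ^ 2 / 8 + y ^ 2 / 32)) := by
    refine intervalIntegral.integral_mono_on hU (Continuous.intervalIntegrable (by fun_prop) _ _)
      (continuous_const.intervalIntegrable _ _) fun u hu => Real.exp_le_exp.mpr ?_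
    have key : T / 2 ≤ |y - u| ∧ |y| / 4 ≤ |y - u| := by
      rw [Set.mem_Icc, not_and_or, not_le, not_le] at hy
      rcases hy with h1 | h1
      · have e : |y - u| = u - y := by rw [abs_of_nonpos (by linarith [hu.1])]; ring
        rw [e]
        refine ⟨by linarith [hu.1], ?_⟩
        rcases le_total 0 y with h2 | h2
        · rw [abs_of_nonneg h2]; linarith [hu.1]
        · rw [abs_of_nonpos h2]; linarith [hu.1]
      · have e : |y - u| = y - u := abs_of_nonneg (by linarith [hu.2])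
        rw [e, abs_of_nonneg (by linarith)]
        constructor <;> linarith [hu.2]
    obtain ⟨k1, k2⟩ := key
    have q1 := pow_le_pow_left₀ (by linarith) k1 2
    have q2 := pow_le_pow_left₀ (by positivity) k2 2
    rw [sq_abs] at q1 q2
    rw [div_pow, sq_abs] at q2
    nlinarith
  refine h.trans (le_of_eq ?_)
  rw [intervalIntegral.integral_const, smul_eq_mul]
  ring

/-- the left line -/
theorem left_W (hF : LFn F) (hP : Mol F P κ) : ∃ C : ℝ, 0 < C ∧ ∀ᶠ T : ℝ in atTop,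
    ∫ y : ℝ, ‖fd F P T (((1 / 2 : ℝ) : ℂ) + (y : ℂ) * I)‖ * Wt (T - 4) (2 * T + 4) y ≤ C * T := by
  obtain ⟨C1, B, B', hC1, hpg⟩ := fd_pg hF hP 1
  obtain ⟨C2, hC2, hleft⟩ := hP.left
  obtain ⟨K1, hK1, hk1⟩ := Pool.Agent.H448R2.GC.F0.poly_le_exp (B + 2) (1 / 32) (by norm_num)
  obtain ⟨K2, hK2, hk2⟩ := Pool.Agent.H448R2.GC.F0.poly_le_exp (B' + 2) (1 / 8) (by norm_num)
  refine ⟨2 * (C2 + 4) + C1 * K1 * K2 * 4, by positivity, ?_⟩
  filter_upwards [hleft, eventually_ge_atTop 16] with T hleft hT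
  have hT0 : 0 < T := by linarith
  have hp := hpg T (by linarith)
  have hU : T - 4 ≤ 2 * T + 4 := by linarith
  set Φ : ℝ → ℂ := fun y => F (((1 / 2 : ℝ) : ℂ) + (y : ℂ) * I) * P T (((1 / 2 : ℝ) : ℂ) + (y : ℂ) * I) with hΦ
  have hΦc : Continuous Φ := by
    have h1 := hF.diff.continuous
    have h2 := (hP.diff T).continuous
    rw [hΦ]
    exact (h1.comp (by fun_prop)).mul (h2.comp (by fun_prop))
  have hfd : ∀ y : ℝ, ‖fd F P T (((1 / 2 : ℝ) : ℂ) + (y : ℂ) * I)‖ ≤ ‖Φ y‖ + 1 := by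
    intro y
    unfold fd
    refine (norm_sub_le _ _).trans ?_
    rw [norm_one]
  have hpt : ∀ y : ℝ, ‖fd F P T (((1 / 2 : ℝ) : ℂ) + (y : ℂ) * I)‖ * Wt (T - 4) (2 * T + 4) y ≤
      Set.indicator (Set.Icc (T / 4) (4 * T)) (fun y => 2 * (‖Φ y‖ + 1)) y + C1 * K1 * K2 * (1 + y ^ 2)⁻¹ := by
    intro y
    have hW := Wt_le hU y
    have hW0 := Wt_nonneg hU y
    have h0 : 0 ≤ Set.indicator (Set.Icc (T / 4) (4 * T)) (fun y => 2 * (‖Φ y‖ + 1)) y :=
      Set.indicator_nonneg (fun _ _ => by positivity) _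
    have h1 : 0 ≤ C1 * K1 * K2 * (1 + y ^ 2)⁻¹ := by positivity
    have hmain : ‖fd F P T (((1 / 2 : ℝ) : ℂ) + (y : ℂ) * I)‖ * Wt (T - 4) (2 * T + 4) y ≤ 2 * (‖Φ y‖ + 1) := by
      calc ‖fd F P T (((1 / 2 : ℝ) : ℂ) + (y : ℂ) * I)‖ * Wt (T - 4) (2 * T + 4) y ≤ (‖Φ y‖ + 1) * 2 :=
            mul_le_mul (hfd y) hW hW0 (by positivity)
        _ = _ := by ring
    by_cases hy : y ∈ Set.Icc (T / 4) (4 * T)
    · have e : Set.indicator (Set.Icc (T / 4) (4 * T)) (fun y => 2 * (‖Φ y‖ + 1)) y = 2 * (‖Φ y‖ + 1) :=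
        Set.indicator_of_mem hy _
      rw [e]; linarith
    · have hf := W_far hT hy
      have hg := hp.gr (((1 / 2 : ℝ) : ℂ) + (y : ℂ) * I) (by rw [lre]; norm_num) (by rw [lre]; norm_num)
      rw [lim] at hg
      have e1 := hk1 y
      have e2 := hk2 T
      rw [abs_of_pos hT0] at e2
      have e3 : T ^ B' * (T + 8) ≤ (1 + T) ^ (B' + 2) := by
        rw [pow_add]
        apply mul_le_mul (pow_le_pow_left₀ hT0.le (by linarith) _) (by nlinarith) (by positivity) (by positivity)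
      have e4 : 1 + y ^ 2 ≤ (1 + |y|) ^ 2 := by
        rw [← sq_abs]; nlinarith [abs_nonneg y]
      have e5 : (1 + |y|) ^ B * Real.exp (-(y ^ 2 / 32)) ≤ K1 * (1 + y ^ 2)⁻¹ := by
        rw [← div_eq_mul_inv, le_div_iff₀ (by positivity)]
        calc (1 + |y|) ^ B * Real.exp (-(y ^ 2 / 32)) * (1 + y ^ 2)
            ≤ (1 + |y|) ^ B * Real.exp (-(y ^ 2 / 32)) * (1 + |y|) ^ 2 := by gcongr
          _ = (1 + |y|) ^ (B + 2) * Real.exp (-(y ^ 2 / 32)) := by ring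
          _ ≤ (K1 * Real.exp (1 / 32 * y ^ 2)) * Real.exp (-(y ^ 2 / 32)) := by gcongr
          _ = K1 * (Real.exp (1 / 32 * y ^ 2) * Real.exp (-(y ^ 2 / 32))) := by ring
          _ = K1 := by
              rw [← Real.exp_add]
              have : 1 / 32 * y ^ 2 + -(y ^ 2 / 32) = 0 := by ring
              rw [this, Real.exp_zero, mul_one]
      have e6 : T ^ B' * (T + 8) * Real.exp (-(T ^ 2 / 8)) ≤ K2 := by
        calc T ^ B' * (T + 8) * Real.exp (-(T ^ 2 / 8)) ≤ (K2 * Real.exp (1 / 8 * T ^ 2)) * Real.exp (-(T ^ 2 / 8)) :=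
              mul_le_mul_of_nonneg_right (e3.trans e2) (Real.exp_pos _).le
          _ = K2 * (Real.exp (1 / 8 * T ^ 2) * Real.exp (-(T ^ 2 / 8))) := by ring
          _ = K2 := by
              rw [← Real.exp_add]
              have : 1 / 8 * T ^ 2 + -(T ^ 2 / 8) = 0 := by ring
              rw [this, Real.exp_zero, mul_one]
      have hfar : ‖fd F P T (((1 / 2 : ℝ) : ℂ) + (y : ℂ) * I)‖ * Wt (T - 4) (2 * T + 4) y ≤
          C1 * K1 * K2 * (1 + y ^ 2)⁻¹ := by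
        calc ‖fd F P T (((1 / 2 : ℝ) : ℂ) + (y : ℂ) * I)‖ * Wt (T - 4) (2 * T + 4) y
            ≤ (C1 * T ^ B' * (1 + |y|) ^ B) * ((T + 8) * Real.exp (-(T ^ 2 / 8 + y ^ 2 / 32))) :=
              mul_le_mul hg hf hW0 (by positivity)
          _ = C1 * (T ^ B' * (T + 8) * Real.exp (-(T ^ 2 / 8))) * ((1 + |y|) ^ B * Real.exp (-(y ^ 2 / 32))) := by
              rw [neg_add, Real.exp_add]; ring
          _ ≤ C1 * K2 * (K1 * (1 + y ^ 2)⁻¹) := by gcongr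
          _ = _ := by ring
      linarith
  have hi1 : Integrable (Set.indicator (Set.Icc (T / 4) (4 * T)) (fun y => 2 * (‖Φ y‖ + 1))) := by
    rw [integrable_indicator_iff measurableSet_Icc]
    have hc : Continuous fun y => 2 * (‖Φ y‖ + 1) := by fun_prop
    exact hc.integrableOn_Icc
  have hi3 : Integrable (fun y : ℝ => C1 * K1 * K2 * (1 + y ^ 2)⁻¹) := integrable_inv_one_add_sq.const_mul _
  have hv1 : ∫ y, Set.indicator (Set.Icc (T / 4) (4 * T)) (fun y => 2 * (‖Φ y‖ + 1)) y ≤ 2 * (C2 * T + 4 * T) := by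
    rw [integral_indicator measurableSet_Icc, integral_Icc_eq_integral_Ioc, ← intervalIntegral.integral_of_le (by linarith),
      intervalIntegral.integral_const_mul, intervalIntegral.integral_add (hΦc.norm.intervalIntegrable _ _)
      (continuous_const.intervalIntegrable _ _), intervalIntegral.integral_const, smul_eq_mul]
    have : ∫ t in (T / 4)..(4 * T), ‖Φ t‖ ≤ C2 * T := hleft
    linarith
  have hv3 : ∫ y : ℝ, C1 * K1 * K2 * (1 + y ^ 2)⁻¹ ≤ C1 * K1 * K2 * 4 := by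
    rw [integral_const_mul, integral_univ_inv_one_add_sq]
    have := Real.pi_lt_four
    gcongr
  calc ∫ y : ℝ, ‖fd F P T (((1 / 2 : ℝ) : ℂ) + (y : ℂ) * I)‖ * Wt (T - 4) (2 * T + 4) y
      ≤ ∫ y, (Set.indicator (Set.Icc (T / 4) (4 * T)) (fun y => 2 * (‖Φ y‖ + 1)) y + C1 * K1 * K2 * (1 + y ^ 2)⁻¹) :=
        integral_mono_of_nonneg (Eventually.of_forall fun y => mul_nonneg (norm_nonneg _) (Wt_nonneg hU y))
          (hi1.add hi3) (Eventually.of_forall hpt)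
    _ ≤ 2 * (C2 * T + 4 * T) + C1 * K1 * K2 * 4 := by
        rw [integral_add hi1 hi3]
        linarith
    _ ≤ _ := by
        have h1 : C1 * K1 * K2 * 4 ≤ C1 * K1 * K2 * 4 * T := by
          have : 0 ≤ C1 * K1 * K2 * 4 := by positivity
          nlinarith
        linarith

/-- the mean values between the lines -/
theorem mid_W (hF : LFn F) (hP : Mol F P κ) {A : ℝ} (hA : 3 ≤ A) : ∃ C : ℝ, 0 < C ∧ ∀ᶠ T : ℝ in atTop,
    ∀ x : ℝ, 1 / 2 ≤ x → x ≤ A →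
    Integrable (fun y : ℝ => ‖fd F P T ((x : ℂ) + (y : ℂ) * I)‖ * Wt (T - 4) (2 * T + 4) y) ∧
    ∫ y : ℝ, ‖fd F P T ((x : ℂ) + (y : ℂ) * I)‖ * Wt (T - 4) (2 * T + 4) y ≤
      C * T * Real.exp (-((A - 2) / (A - 1 / 2) * κ * Real.log T * (x - 1 / 2))) := by
  obtain ⟨C1, B, B', hC1, hpg⟩ := fd_pg hF hP A
  obtain ⟨C2, hC2, hleft⟩ := left_W hF hP
  obtain ⟨C3, hC3, hright⟩ := hP.right
  set M := max 1 (2 * C3) with hM
  have hM1 : 1 ≤ M := le_max_left _ _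
  refine ⟨Real.exp (A ^ 2) * (2 + C2) * M, by positivity, ?_⟩
  filter_upwards [hleft, eventually_ge_atTop 16] with T hleft hT x hx1 hx2
  have hT0 : 0 < T := by linarith
  have hU : T - 4 ≤ 2 * T + 4 := by linarith
  set L := Real.log T with hL
  set E := C3 * Real.exp (-((A - 2) * (κ * L))) with hE
  have hE0 : 0 ≤ E := by positivity
  obtain ⟨m1, m2⟩ := mid (hpg T (by linarith)) (by linarith : 1 / 2 < A) hU hE0 (fun y => by
    have := hright T (by linarith) ((A : ℂ) + (y : ℂ) * I) (by rw [lre]; linarith)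
    rw [lre] at this
    exact this) hx1 hx2
  refine ⟨m1, m2.trans ?_⟩
  set θ := (x - 1 / 2) / (A - 1 / 2) with hθ
  have hθ0 : 0 ≤ θ := div_nonneg (by linarith) (by linarith)
  have hθ1 : θ ≤ 1 := by rw [hθ, div_le_one (by linarith)]; linarith
  have h1 : (2 * E) ^ θ ≤ M * Real.exp (-((A - 2) / (A - 1 / 2) * κ * L * (x - 1 / 2))) := by
    rw [hE, ← mul_assoc, Real.mul_rpow (by positivity) (Real.exp_pos _).le, ← Real.exp_mul]
    have h2 : (2 * C3) ^ θ ≤ M := by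
      calc (2 * C3) ^ θ ≤ M ^ θ := Real.rpow_le_rpow (by positivity) (le_max_right _ _) hθ0
        _ ≤ M ^ (1 : ℝ) := Real.rpow_le_rpow_of_exponent_le hM1 hθ1
        _ = M := Real.rpow_one M
    have h3 : -((A - 2) * (κ * L)) * θ = -((A - 2) / (A - 1 / 2) * κ * L * (x - 1 / 2)) := by
      rw [hθ]
      have : A - 1 / 2 ≠ 0 := by linarith
      field_simp
    rw [h3]
    exact mul_le_mul_of_nonneg_right h2 (Real.exp_pos _).le
  have hLW0 : 0 ≤ ∫ y : ℝ, ‖fd F P T (((1 / 2 : ℝ) : ℂ) + (y : ℂ) * I)‖ * Wt (T - 4) (2 * T + 4) y :=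
    integral_nonneg fun y => mul_nonneg (norm_nonneg _) (Wt_nonneg hU y)
  have h4 : (2 * T + 4 - (T - 4)) + ∫ y : ℝ, ‖fd F P T (((1 / 2 : ℝ) : ℂ) + (y : ℂ) * I)‖ * Wt (T - 4) (2 * T + 4) y ≤
      (2 + C2) * T := by linarith
  calc _ ≤ Real.exp (A ^ 2) * ((2 + C2) * T) * (M * Real.exp (-((A - 2) / (A - 1 / 2) * κ * L * (x - 1 / 2)))) := by
        gcongr
    _ = _ := by ring

end

end Pool.Agent.Y24.GL
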