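import Pool.Agent.Y24.GL.H3
import Pool.Agent.Y24.E1

set_option autoImplicit false

/-!
Zeros of a mollified L-function in dyadic windows.
-/

namespace Pool.Agent.Y24.GL

open Finset Filter MeasureTheory Complex Metric
open Pool.Agent.Y24 (jensen_low log_one_sub_sq_ge circle_re avg_cont fub)

noncomputable section

/-- the weight of a zero -/
lemma weight_le {L σ : ℝ} (hL : 1 ≤ L) (h1 : 1 / 2 ≤ σ) (h2 : σ ≤ 1) {ρ : ℂ} (hρ1 : σ + 1 / L ≤ ρ.re) (hρ2 : ρ.re ≤ 1)
    {t : ℝ} (ht : |t - ρ.im| ≤ 1 / Real.sqrt L) :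
    ρ ∈ closedBall ((3 : ℂ) + (t : ℂ) * I) (3 - σ) ∧
    1 / (7 * L) ≤ Real.log ((3 - σ) * ‖((3 : ℂ) + (t : ℂ) * I) - ρ‖⁻¹) := by
  have hL0 : 0 < L := by linarith
  set R := 3 - σ with hR
  have hR2 : 2 ≤ R := by linarith
  have hR3 : R ≤ 5 / 2 := by linarith
  set d := ‖((3 : ℂ) + (t : ℂ) * I) - ρ‖ with hd
  have hd2 : d ^ 2 = (3 - ρ.re) ^ 2 + (t - ρ.im) ^ 2 := by
    rw [hd, ← Complex.normSq_eq_norm_sq, Complex.normSq_apply]
    simp
    ring
  have hre1 : 3 - ρ.re ≤ R - 1 / L := by linarith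
  have hre2 : 2 ≤ 3 - ρ.re := by linarith
  have ht2 : (t - ρ.im) ^ 2 ≤ 1 / L := by
    have h3 := pow_le_pow_left₀ (abs_nonneg _) ht 2
    rw [sq_abs, div_pow, one_pow, Real.sq_sqrt hL0.le] at h3
    exact h3
  have hinv : 1 / L ≤ 1 := by rw [div_le_one hL0]; exact hL
  have hinv0 : 0 < 1 / L := by positivity
  have hd3 : d ^ 2 ≤ R ^ 2 - 2 * (1 / L) := by
    rw [hd2]
    have h4 : (3 - ρ.re) ^ 2 ≤ (R - 1 / L) ^ 2 := pow_le_pow_left₀ (by linarith) hre1 2
    nlinarith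
  have hdpos : 0 < d := by
    rw [hd, norm_pos_iff]
    intro h
    have := congrArg Complex.re h
    simp at this
    linarith
  have hdR : d ≤ R := by
    apply le_of_sq_le_sq _ (by linarith)
    linarith
  refine ⟨?_, ?_⟩
  · rw [mem_closedBall, dist_eq_norm']; exact hdR
  · have h5 : Real.log (R * d⁻¹) = -(1 / 2 * Real.log (d ^ 2 / R ^ 2)) := by
      rw [← div_eq_mul_inv, ← div_pow, Real.log_pow, Real.log_div (by linarith) hdpos.ne', Real.log_div hdpos.ne' (by linarith)]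
      push_cast; ring
    rw [h5]
    have hR0 : 0 < R ^ 2 := by positivity
    have h6 := Real.log_le_sub_one_of_pos (show 0 < d ^ 2 / R ^ 2 by positivity)
    have h7 : d ^ 2 / R ^ 2 ≤ 1 - 2 * (1 / L) / R ^ 2 := by
      rw [div_le_iff₀ hR0, sub_mul, div_mul_cancel₀ _ hR0.ne']; linarith
    have h8 : 1 / (7 * L) ≤ (1 / L) / R ^ 2 := by
      rw [div_div]
      apply one_div_le_one_div_of_le (by positivity)
      rw [mul_comm]
      gcongr
      nlinarith
    have h9 : 2 * (1 / L) / R ^ 2 = 2 * ((1 / L) / R ^ 2) := by ring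
    rw [h9] at h7
    linarith

/-- the logarithm of `1 - f^2` -/
lemma log_le2 (f : ℂ) : Real.log ‖1 - f ^ 2‖ ≤ 2 * ‖f‖ := by
  have hf := norm_nonneg f
  have h1 : Real.log (1 + ‖f‖ ^ 2) ≤ 2 * ‖f‖ := by
    have h2 : Real.log (1 + ‖f‖ ^ 2) ≤ Real.log ((1 + ‖f‖) ^ 2) :=
      Real.log_le_log (by positivity) (by nlinarith)
    rw [Real.log_pow] at h2
    have h3 := Real.log_le_sub_one_of_pos (show 0 < 1 + ‖f‖ by linarith)
    push_cast at h2
    linarith
  refine le_trans ?_ h1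
  rcases (norm_nonneg (1 - f ^ 2)).eq_or_lt with h0 | h0
  · rw [← h0, Real.log_zero]
    exact Real.log_nonneg (by nlinarith [sq_nonneg ‖f‖])
  · apply Real.log_le_log h0
    calc ‖1 - f ^ 2‖ ≤ ‖(1:ℂ)‖ + ‖f ^ 2‖ := norm_sub_le _ _
      _ = 1 + ‖f‖ ^ 2 := by rw [norm_one, norm_pow]

variable {F : ℂ → ℂ} {P : ℝ → ℂ → ℂ} {κ : ℝ}

/-- the weighted function -/
def Gw (F : ℂ → ℂ) (P : ℝ → ℂ → ℂ) (T : ℝ) (z : ℂ) : ℝ := ‖fd F P T z‖ * Wt (T - 4) (2 * T + 4) z.im

lemma fd_diff (hF : LFn F) (hP : Mol F P κ) (T : ℝ) : Differentiable ℂ (fd F P T) := by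
  unfold fd
  exact (hF.diff.mul (hP.diff T)).sub_const 1

lemma Gw_cont (hF : LFn F) (hP : Mol F P κ) (T : ℝ) : Continuous (Gw F P T) := by
  unfold Gw
  exact (fd_diff hF hP T).continuous.norm.mul ((Wt_cont _ _).comp Complex.continuous_im)

lemma pt_jensen (hF : LFn F) (hP : Mol F P κ) {T E0 : ℝ} (hT : 16 ≤ T)
    (hright : ∀ s : ℂ, s.re = 3 → ‖F s * P T s - 1‖ ≤ E0) (hsmall : E0 ^ 2 ≤ 1 / 2)
    {L : ℝ} (hL : 1 ≤ L) {σ t : ℝ} (hσ1 : 1 / 2 ≤ σ) (hσ2 : σ ≤ 1) (ht1 : T - 1 / 2 ≤ t) (ht2 : t ≤ 2 * T + 1 / 2)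
    (S : Finset ℂ) (hS : ∀ ρ ∈ S, σ + 1 / L ≤ ρ.re ∧ ρ.re ≤ 1) :
    ∑ ρ ∈ S, (analyticOrderNatAt F ρ : ℝ) *
      Set.indicator (Set.Icc (ρ.im - 1 / Real.sqrt L) (ρ.im + 1 / Real.sqrt L)) (fun _ => 1 / (7 * L)) t ≤
      4 * Real.circleAverage (Gw F P T) ((3 : ℂ) + (t : ℂ) * I) (3 - σ) + 2 * E0 ^ 2 := by
  have hL0 : 0 < L := by linarith
  set R := 3 - σ with hR
  have hR2 : 2 ≤ R := by linarith
  have hR3 : R ≤ 5 / 2 := by linarith
  have hR0 : 0 < R := by linarith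
  set c : ℂ := (3 : ℂ) + (t : ℂ) * I with hc
  have hcre : c.re = 3 := by simp [hc]
  have hcim : c.im = t := by simp [hc]
  -- points of the ball
  have hball : ∀ z ∈ closedBall c R, T - 3 ≤ z.im ∧ z.im ≤ 2 * T + 3 := by
    intro z hz
    rw [mem_closedBall_iff_norm] at hz
    have e2 := (Complex.abs_im_le_norm (z - c)).trans hz
    rw [Complex.sub_im, hcim] at e2
    obtain ⟨a3, a4⟩ := abs_le.mp e2
    constructor <;> linarith
  set f : ℂ → ℂ := fd F P T with hf
  set h : ℂ → ℂ := fun z => 1 - f z ^ 2 with hh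
  have hfd := fd_diff hF hP T
  have hhd : Differentiable ℂ h := (differentiable_const 1).sub (hfd.pow 2)
  have hFan : ∀ z, AnalyticAt ℂ F z := fun z => hF.diff.analyticAt z
  have hPan : ∀ z, AnalyticAt ℂ (P T) z := fun z => (hP.diff T).analyticAt z
  have hhB : AnalyticOnNhd ℂ h (closedBall c R) := fun z _ => hhd.analyticAt z
  have hcB : c ∈ closedBall c R := mem_closedBall_self hR0.le
  have hfc : ‖f c‖ ≤ E0 := hright c hcre
  have hfc2 : ‖f c‖ ^ 2 ≤ E0 ^ 2 := pow_le_pow_left₀ (norm_nonneg _) hfc 2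
  obtain ⟨hc0, hclog⟩ := log_one_sub_sq_ge (hfc2.trans hsmall)
  have hhc : h c ≠ 0 := hc0
  have horder : ∀ ρ ∈ closedBall c R, analyticOrderNatAt F ρ ≤ analyticOrderNatAt h ρ := by
    intro ρ hρ
    have h1 : analyticOrderAt h ρ ≠ ⊤ :=
      AnalyticOnNhd.analyticOrderAt_ne_top_of_isPreconnected hhB (convex_closedBall c R).isPreconnected hcB hρ
        (by rw [(hhB c hcB).analyticOrderAt_eq_zero.mpr hhc]; simp)
    set q : ℂ → ℂ := fun z => P T z * (2 - F z * P T z) with hq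
    have hqan : AnalyticAt ℂ q ρ := (hPan ρ).mul (analyticAt_const.sub ((hFan ρ).mul (hPan ρ)))
    have hprod : h = F * q := by
      funext z
      simp only [hh, hf, hq, Pi.mul_apply, fd]
      ring
    have h2 := analyticOrderAt_mul (hFan ρ) hqan
    rw [← hprod] at h2
    have h3 : analyticOrderAt F ρ ≠ ⊤ := by
      intro h4; rw [h4, top_add] at h2; exact h1 h2
    have h4 : analyticOrderAt q ρ ≠ ⊤ := by
      intro h5; rw [h5, add_top] at h2; exact h1 h2
    rw [hprod, analyticOrderNatAt_mul (hFan ρ) hqan h3 h4]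
    omega
  have hJ := jensen_low (h := h) (c := c) (R := R) hR0 hhB hhc S (analyticOrderNatAt F)
    (fun ρ => Set.indicator (Set.Icc (ρ.im - 1 / Real.sqrt L) (ρ.im + 1 / Real.sqrt L)) (fun _ => 1 / (7 * L)) t)
    (fun ρ _ hρ => horder ρ hρ)
    (fun ρ _ => Set.indicator_nonneg (fun _ _ => by positivity) _)
    (fun ρ hρ hρB => by
      by_cases hm : t ∈ Set.Icc (ρ.im - 1 / Real.sqrt L) (ρ.im + 1 / Real.sqrt L)
      · rw [Set.indicator_of_mem hm]
        exact (weight_le hL hσ1 hσ2 (hS ρ hρ).1 (hS ρ hρ).2 (by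
          rw [abs_le]; constructor <;> linarith [hm.1, hm.2])).2
      · rw [Set.indicator_of_notMem hm]
        rw [mem_closedBall, dist_eq_norm'] at hρB
        have hpos : 0 < ‖c - ρ‖ := by
          rw [norm_pos_iff]
          intro h5
          have := congrArg Complex.re h5
          rw [Complex.sub_re, hcre] at this
          have := (hS ρ hρ).2
          simp at *
          linarith
        apply Real.log_nonneg
        rw [← div_eq_mul_inv, one_le_div hpos]; exact hρB)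
    (fun ρ hρ hρB => by
      apply Set.indicator_of_notMem
      intro hm
      exact hρB (weight_le hL hσ1 hσ2 (hS ρ hρ).1 (hS ρ hρ).2 (by
          rw [abs_le]; constructor <;> linarith [hm.1, hm.2])).1)
  refine hJ.trans ?_
  -- the circle average
  set G : ℂ → ℝ := Gw F P T with hG
  have hsph : ∀ z ∈ sphere c |R|, Real.log ‖h z‖ ≤ 4 * G z := by
    intro z hz
    rw [abs_of_pos hR0] at hz
    obtain ⟨b1, b2⟩ := hball z (sphere_subset_closedBall hz)
    refine (log_le2 (f z)).trans ?_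
    have hW := Wt_ge (U1 := T - 4) (U2 := 2 * T + 4) (y := z.im) (by linarith) (by linarith)
    have h5 : ‖f z‖ * (1 / 2) ≤ G z := by
      rw [hG]
      unfold Gw
      exact mul_le_mul_of_nonneg_left hW (norm_nonneg _)
    linarith
  have hGc := Gw_cont hF hP T
  have hci2 : CircleIntegrable (fun z => 4 * G z) c R := by
    apply ContinuousOn.circleIntegrable'
    exact (continuous_const.mul hGc).continuousOn
  have hci1 : CircleIntegrable (fun z => Real.log ‖h z‖) c R := by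
    apply MeromorphicOn.circleIntegrable_log_norm
    rw [abs_of_pos hR0]
    exact (hhB.mono sphere_subset_closedBall).meromorphicOn
  have hmono := Real.circleAverage_mono hci1 hci2 hsph
  have hK2 : Real.circleAverage (fun z => 4 * G z) c R = 4 * Real.circleAverage G c R := by
    have := Real.circleAverage_fun_smul (a := (4:ℝ)) (f := G) (c := c) (R := R)
    simpa [smul_eq_mul] using this
  rw [hK2] at hmono
  linarith

lemma ind_int {a b u v w : ℝ} (hu : a < u) (huv : u ≤ v) (hv : v ≤ b) :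
    ∫ t in a..b, Set.indicator (Set.Icc u v) (fun _ => w) t = (v - u) * w := by
  rw [intervalIntegral.integral_of_le (by linarith), setIntegral_indicator measurableSet_Icc]
  have h1 : Set.Ioc a b ∩ Set.Icc u v = Set.Icc u v := by
    apply Set.inter_eq_right.mpr
    intro t ht
    exact ⟨by linarith [ht.1], by linarith [ht.2]⟩
  rw [h1, setIntegral_const, Real.volume_real_Icc_of_le huv, smul_eq_mul]

/-- zeros in a window -/
theorem window (hF : LFn F) (hP : Mol F P κ) {q0 : ℝ} (hq0 : 1 / 2 ≤ q0) (hq1 : q0 < κ) : ∃ C : ℝ, 0 < C ∧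
    ∀ᶠ T : ℝ in atTop, ∀ σ : ℝ, 1 / 2 ≤ σ → σ ≤ 1 → ∀ S : Finset ℂ,
    (∀ ρ ∈ S, σ + 1 / Real.log T ≤ ρ.re ∧ ρ.re ≤ 1 ∧ T ≤ ρ.im ∧ ρ.im ≤ 2 * T) →
    ∑ ρ ∈ S, (analyticOrderNatAt F ρ : ℝ) ≤
      C * (T * Real.log T) * Real.exp (-(q0 * (σ - 1 / 2) * Real.log T)) := by
  have hκ0 := hP.κ0
  have hκ1 := hP.κ1
  set r : ℝ := q0 / κ with hr
  have hr1 : r < 1 := by rw [hr, div_lt_one hκ0]; exact hq1
  have hr0 : 0 < r := by rw [hr]; positivity
  set A : ℝ := 2 / (1 - r) + 6 with hA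
  have hA6 : 6 ≤ A := by
    rw [hA]
    have : 0 ≤ 2 / (1 - r) := div_nonneg (by norm_num) (by linarith)
    linarith
  have hAr : r ≤ (A - 2) / (A - 1 / 2) := by
    rw [le_div_iff₀ (by linarith)]
    have h1 : A * (1 - r) = 2 + 6 * (1 - r) := by
      rw [hA, add_mul, div_mul_cancel₀ _ (by linarith)]
    nlinarith
  have hA1 : (A - 2) / (A - 1 / 2) ≤ 1 := by
    rw [div_le_one (by linarith)]; linarith
  set s := (A - 2) / (A - 1 / 2) with hs
  have hsq : q0 ≤ s * κ := by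
    calc q0 = r * κ := by rw [hr]; field_simp
      _ ≤ _ := mul_le_mul_of_nonneg_right hAr hκ0.le
  have hs0 : 0 < s := hr0.trans_le hAr
  obtain ⟨C, hC, hmid⟩ := mid_W hF hP (A := A) (by linarith)
  obtain ⟨C1, hC1, hright⟩ := hP.right
  refine ⟨7 / 2 * (8 * C + 4 * C1 ^ 2), by positivity, ?_⟩
  have evL1 : ∀ᶠ T : ℝ in atTop, (16 + (1 / κ) ^ 2 + (4 * C1 ^ 2 + 1) / κ : ℝ) ≤ Real.log T :=
    Real.tendsto_log_atTop.eventually_ge_atTop _
  filter_upwards [hmid, evL1, eventually_ge_atTop 16] with T hmid hL16 hT16 σ hσ1 hσ2 S hS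
  set L := Real.log T with hLdef
  have b1 : 0 ≤ (1 / κ) ^ 2 := sq_nonneg _
  have b2 : 0 ≤ (4 * C1 ^ 2 + 1) / κ := by positivity
  have hL16' : 16 ≤ L := by linarith
  have hL0 : 0 < L := by linarith
  have hT0 : 0 < T := by linarith
  set D := κ * L with hD
  have hD0 : 0 < D := by positivity
  have hDC : 4 * C1 ^ 2 + 1 ≤ D := by
    have hq : (4 * C1 ^ 2 + 1) / κ ≤ L := by linarith
    rw [div_le_iff₀ hκ0] at hq
    rw [hD]
    linarith
  set μ := s * κ * L with hμ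
  have hμL : q0 * L ≤ μ := mul_le_mul_of_nonneg_right hsq hL0.le
  have hμ1 : L / 2 ≤ μ := by
    have : 1 / 2 * L ≤ q0 * L := mul_le_mul_of_nonneg_right hq0 hL0.le
    linarith
  have hμ0 : 0 < μ := by linarith
  have hμD : μ ≤ D := by
    rw [hμ, hD]
    calc s * κ * L = s * (κ * L) := by ring
      _ ≤ 1 * (κ * L) := mul_le_mul_of_nonneg_right hA1 hD0.le
      _ = _ := one_mul _
  set G : ℂ → ℝ := Gw F P T with hG
  have hGc : Continuous G := Gw_cont hF hP T
  have hGn : ∀ z, 0 ≤ G z := fun z => mul_nonneg (norm_nonneg _) (Wt_nonneg (by linarith) _)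
  set R := 3 - σ with hR
  have hR2 : 2 ≤ R := by linarith
  have hR3 : R ≤ 5 / 2 := by linarith
  have hGline : ∀ x y : ℝ, G ((x : ℂ) + (y : ℂ) * I) = ‖fd F P T ((x : ℂ) + (y : ℂ) * I)‖ * Wt (T - 4) (2 * T + 4) y := by
    intro x y
    rw [hG]
    unfold Gw
    rw [lim]
  have hfub := fub (G := G) hGc.continuousOn hGn (c₀ := 3) (R := R) (a := T - 1 / 2) (b := 2 * T + 1 / 2)
    (K := C * T) (μ := μ) (σ := 1 / 2) (by linarith) (by linarith) (by linarith) (by positivity) hμ0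
    (fun x hx1 hx2 => by
      simp only [hGline]
      exact (hmid x (by linarith) (by linarith)).1)
    (fun x hx1 hx2 => by
      simp only [hGline]
      exact (hmid x (by linarith) (by linarith)).2)
  have h3 : (3:ℝ) - R - 1 / 2 = σ - 1 / 2 := by rw [hR]; ring
  rw [h3] at hfub
  set E := Real.exp (-(μ * (σ - 1 / 2))) with hE
  have hE0 : 0 < E := Real.exp_pos _
  have hsqL : 0 < Real.sqrt L := Real.sqrt_pos.mpr hL0
  have hsq4 : 4 ≤ Real.sqrt L := Real.le_sqrt_of_sq_le (by norm_num; exact hL16')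
  have hsqr : Real.sqrt (Real.pi / (μ * R)) ≤ 2 / Real.sqrt L := by
    have h1 : Real.pi / (μ * R) ≤ 2 ^ 2 / L := by
      rw [div_le_div_iff₀ (by positivity) hL0]
      have h2 : L / 2 * 2 ≤ μ * R := by gcongr
      nlinarith [Real.pi_lt_four]
    calc Real.sqrt (Real.pi / (μ * R)) ≤ Real.sqrt (2 ^ 2 / L) := Real.sqrt_le_sqrt h1
      _ = _ := by rw [Real.sqrt_div (by positivity), Real.sqrt_sq (by norm_num)]
  -- smallness of the terms at the centre
  have hexpD : Real.exp (-D) ≤ 1 / Real.sqrt L := by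
    rw [le_div_iff₀ hsqL, Real.exp_neg, inv_mul_le_iff₀ (Real.exp_pos _), mul_one]
    have h1 := Real.add_one_le_exp D
    have h2 : Real.sqrt L ≤ D := by
      rw [Real.sqrt_le_left hD0.le, hD, mul_pow]
      have h4 : (1 / κ) ^ 2 ≤ L := by linarith
      have h5 : 1 ≤ κ ^ 2 * L := by
        rw [div_pow, one_pow, div_le_iff₀ (by positivity)] at h4
        linarith
      calc L = 1 * L := (one_mul _).symm
        _ ≤ (κ ^ 2 * L) * L := mul_le_mul_of_nonneg_right h5 hL0.le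
        _ = _ := by ring
    linarith
  set E0 := C1 * Real.exp (-D) with hE0d
  have hcen : E0 ^ 2 ≤ C1 ^ 2 * (E * (1 / Real.sqrt L)) := by
    rw [hE0d, mul_pow]
    have h1 : Real.exp (-D) ^ 2 = Real.exp (-D) * Real.exp (-D) := sq _
    rw [h1]
    have h2 : Real.exp (-D) ≤ E := by
      apply Real.exp_le_exp.mpr
      have h4 : μ * (σ - 1 / 2) ≤ μ * 1 := mul_le_mul_of_nonneg_left (by linarith) hμ0.le
      linarith
    gcongr
  have hsmall : E0 ^ 2 ≤ 1 / 2 := by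
    have h1 : Real.exp (-D) ^ 2 ≤ 1 / D := by
      rw [← Real.exp_nat_mul, le_div_iff₀ hD0]
      have h2 : ((2:ℕ):ℝ) * -D = -(2 * D) := by push_cast; ring
      rw [h2, Real.exp_neg, inv_mul_le_iff₀ (Real.exp_pos _), mul_one]
      have h4 := Real.add_one_le_exp (2 * D)
      linarith
    rw [hE0d, mul_pow]
    calc C1 ^ 2 * Real.exp (-D) ^ 2 ≤ C1 ^ 2 * (1 / D) := by gcongr
      _ ≤ 1 / 2 := by
        rw [mul_one_div, div_le_iff₀ hD0]
        linarith
  -- the pointwise inequality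
  have hpt : ∀ t ∈ Set.Icc (T - 1 / 2) (2 * T + 1 / 2), ∑ ρ ∈ S, (analyticOrderNatAt F ρ : ℝ) *
      Set.indicator (Set.Icc (ρ.im - 1 / Real.sqrt L) (ρ.im + 1 / Real.sqrt L)) (fun _ => 1 / (7 * L)) t ≤
      4 * Real.circleAverage G (((3:ℝ) : ℂ) + (t : ℂ) * I) R + 2 * E0 ^ 2 := by
    intro t ht
    exact pt_jensen hF hP hT16 (fun s hs => by
      have := hright T (by linarith) s (by rw [hs]; norm_num)
      rw [hs] at this
      refine this.trans (le_of_eq ?_)
      have e3 : (3 - 2 : ℝ) * (κ * Real.log T) = D := by rw [hD, hLdef]; ring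
      rw [hE0d, e3]) hsmall (L := L) (by linarith) hσ1 hσ2 ht.1 ht.2 S (fun ρ hρ => ⟨(hS ρ hρ).1, (hS ρ hρ).2.1⟩)
  have hintS : ∀ ρ ∈ S, IntervalIntegrable (fun t => (analyticOrderNatAt F ρ : ℝ) *
      Set.indicator (Set.Icc (ρ.im - 1 / Real.sqrt L) (ρ.im + 1 / Real.sqrt L)) (fun _ => 1 / (7 * L)) t) volume
      (T - 1 / 2) (2 * T + 1 / 2) := by
    intro ρ _
    apply IntervalIntegrable.const_mul
    have : Integrable (Set.indicator (Set.Icc (ρ.im - 1 / Real.sqrt L) (ρ.im + 1 / Real.sqrt L)) (fun _ => 1 / (7 * L))) := by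
      rw [integrable_indicator_iff measurableSet_Icc]
      exact integrableOn_const (by simp)
    exact this.intervalIntegrable
  have hintL : IntervalIntegrable (fun t => ∑ ρ ∈ S, (analyticOrderNatAt F ρ : ℝ) *
      Set.indicator (Set.Icc (ρ.im - 1 / Real.sqrt L) (ρ.im + 1 / Real.sqrt L)) (fun _ => 1 / (7 * L)) t) volume
      (T - 1 / 2) (2 * T + 1 / 2) := by
    have h5 := IntervalIntegrable.sum S hintS
    have e : (∑ ρ ∈ S, fun t => (analyticOrderNatAt F ρ : ℝ) *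
      Set.indicator (Set.Icc (ρ.im - 1 / Real.sqrt L) (ρ.im + 1 / Real.sqrt L)) (fun _ => 1 / (7 * L)) t) =
      (fun t => ∑ ρ ∈ S, (analyticOrderNatAt F ρ : ℝ) *
      Set.indicator (Set.Icc (ρ.im - 1 / Real.sqrt L) (ρ.im + 1 / Real.sqrt L)) (fun _ => 1 / (7 * L)) t) := by
      funext t
      simp
    rw [e] at h5
    exact h5
  have havgc := avg_cont (G := G) hGc.continuousOn (c₀ := 3) (R := R) (by linarith) (by linarith)
  have hcK : Continuous fun t : ℝ => 4 * Real.circleAverage G (((3:ℝ) : ℂ) + (t : ℂ) * I) R :=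
    continuous_const.mul havgc
  have hcK2 : Continuous fun t : ℝ => 4 * Real.circleAverage G (((3:ℝ) : ℂ) + (t : ℂ) * I) R +
      2 * E0 ^ 2 := hcK.add continuous_const
  have hI := intervalIntegral.integral_mono_on (μ := volume) (by linarith : T - 1 / 2 ≤ 2 * T + 1 / 2) hintL
    (hcK2.intervalIntegrable _ _) hpt
  rw [intervalIntegral.integral_finsetSum hintS] at hI
  have hlhs : ∑ ρ ∈ S, ∫ t in (T - 1 / 2)..(2 * T + 1 / 2), (analyticOrderNatAt F ρ : ℝ) *
      Set.indicator (Set.Icc (ρ.im - 1 / Real.sqrt L) (ρ.im + 1 / Real.sqrt L)) (fun _ => 1 / (7 * L)) t =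
      (∑ ρ ∈ S, (analyticOrderNatAt F ρ : ℝ)) * (2 / (7 * (L * Real.sqrt L))) := by
    rw [Finset.sum_mul]
    refine Finset.sum_congr rfl fun ρ hρ => ?_
    obtain ⟨_, _, g1, g2⟩ := hS ρ hρ
    have hsl : 1 / Real.sqrt L ≤ 1 / 4 := one_div_le_one_div_of_le (by norm_num) hsq4
    have hsl0 : 0 < 1 / Real.sqrt L := by positivity
    rw [intervalIntegral.integral_const_mul, ind_int (by linarith) (by linarith) (by linarith)]
    field_simp
    ring
  rw [hlhs] at hI
  have hrhs : ∫ t in (T - 1 / 2)..(2 * T + 1 / 2), (4 * Real.circleAverage G (((3:ℝ) : ℂ) + (t : ℂ) * I) R + 2 * E0 ^ 2) ≤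
      T * E / Real.sqrt L * (8 * C + 4 * C1 ^ 2) := by
    rw [intervalIntegral.integral_add (hcK.intervalIntegrable _ _)
      (continuous_const.intervalIntegrable _ _), intervalIntegral.integral_const_mul,
      intervalIntegral.integral_const]
    have e1 : 2 * T + 1 / 2 - (T - 1 / 2) = T + 1 := by ring
    rw [e1, smul_eq_mul]
    calc 4 * (∫ t in (T - 1 / 2)..(2 * T + 1 / 2), Real.circleAverage G (((3:ℝ) : ℂ) + (t : ℂ) * I) R) + (T + 1) * (2 * E0 ^ 2)
        ≤ 4 * (C * T * E * (2 / Real.sqrt L)) + (2 * T) * (2 * (C1 ^ 2 * (E * (1 / Real.sqrt L)))) := by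
          gcongr
          · refine hfub.trans ?_
            gcongr
          · linarith
      _ = _ := by field_simp; ring
  have hfin := hI.trans hrhs
  have hN : ∑ ρ ∈ S, (analyticOrderNatAt F ρ : ℝ) ≤ 7 / 2 * (8 * C + 4 * C1 ^ 2) * (T * L) * E := by
    have h4 : 0 < 2 / (7 * (L * Real.sqrt L)) := by positivity
    rw [← le_div_iff₀ h4] at hfin
    refine hfin.trans (le_of_eq ?_)
    field_simp
  refine hN.trans ?_
  have hE2 : E ≤ Real.exp (-(q0 * (σ - 1 / 2) * L)) := by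
    apply Real.exp_le_exp.mpr
    have h4 : q0 * L * (σ - 1 / 2) ≤ μ * (σ - 1 / 2) := mul_le_mul_of_nonneg_right hμL (by linarith)
    linarith
  gcongr

end

end Pool.Agent.Y24.GL
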