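import Pool.Agent.Y24.GL.H4
import Pool.Agent.Y24.E1

set_option autoImplicit false

/-!
The number of zeros of an L-function.
-/

namespace Pool.Agent.Y24.GL

open Finset Filter MeasureTheory Complex Metric Topology

noncomputable section

/-- the zeros of `F` with real part at least `σ` and imaginary part in `(0, T]` -/
def ZF (F : ℂ → ℂ) (σ T : ℝ) : Set ℂ := {ρ : ℂ | F ρ = 0 ∧ σ ≤ ρ.re ∧ 0 < ρ.im ∧ ρ.im ≤ T}

variable {F : ℂ → ℂ} {P : ℝ → ℂ → ℂ} {κ : ℝ}

lemma re_le_one (hF : LFn F) {ρ : ℂ} (h : F ρ = 0) : ρ.re ≤ 1 := by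
  by_contra hcon
  push Not at hcon
  exact hF.ne ρ hcon h

lemma ZF_fin (hF : LFn F) (σ T : ℝ) : (ZF F σ T).Finite := by
  have hK : IsCompact (Set.Icc σ 1 ×ℂ Set.Icc 0 T) := isCompact_Icc.reProdIm isCompact_Icc
  by_contra hinf
  have hsub : ZF F σ T ⊆ Set.Icc σ 1 ×ℂ Set.Icc 0 T := by
    intro ρ hρ
    obtain ⟨h1, h2, h3, h4⟩ := hρ
    exact ⟨⟨h2, re_le_one hF h1⟩, ⟨h3.le, h4⟩⟩
  obtain ⟨z₀, _, hz₀⟩ := Set.Infinite.exists_accPt_of_subset_isCompact hinf hK hsub
  have han : AnalyticOnNhd ℂ F Set.univ := fun z _ => hF.diff.analyticAt z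
  have hfr : ∃ᶠ z in 𝓝[≠] z₀, F z = 0 := by
    have h1 := accPt_iff_frequently_nhdsNE.mp hz₀
    exact h1.mono fun z hz => hz.1
  have h2 := han.eqOn_zero_of_preconnected_of_frequently_eq_zero isPreconnected_univ
    (Set.mem_univ z₀) hfr (Set.mem_univ (2:ℂ))
  simp only [Pi.zero_apply] at h2
  exact hF.ne 2 (by norm_num) h2

/-- the number of zeros at distance at most `1/2` from a height -/
lemma unit_count (hF : LFn F) : ∃ C : ℝ, 0 < C ∧ ∀ t : ℝ, 0 ≤ t → ∀ S : Finset ℂ,
    (∀ ρ ∈ S, 1 / 2 ≤ ρ.re ∧ ρ.re ≤ 1 ∧ |ρ.im - t| ≤ 1 / 2) →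
    ∑ ρ ∈ S, (analyticOrderNatAt F ρ : ℝ) ≤ C * Real.log (t + 3) := by
  obtain ⟨c, hc, hlow⟩ := hF.low
  obtain ⟨C, B, hC, hZ⟩ := hF.gro 4
  refine ⟨12 * (|Real.log (1 + C)| + B + |Real.log c|) + 12, by positivity, fun t ht S hS => ?_⟩
  have ht0 : 0 < t + 3 := by linarith
  have hlt : 1 ≤ Real.log (t + 3) := by
    rw [Real.le_log_iff_exp_le ht0]
    have := Real.exp_one_lt_d9
    linarith
  set z0 : ℂ := (2 : ℂ) + (t : ℂ) * I with hz0
  have h0re : z0.re = 2 := by simp [hz0]
  have h0im : z0.im = t := by simp [hz0]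
  have hball : ∀ z ∈ closedBall z0 (7 / 4), 1 / 4 ≤ z.re ∧ z.re ≤ 4 ∧ 1 + |z.im| ≤ t + 3 := by
    intro z hz
    rw [mem_closedBall_iff_norm] at hz
    have e1 := (Complex.abs_re_le_norm (z - z0)).trans hz
    have e2 := (Complex.abs_im_le_norm (z - z0)).trans hz
    rw [Complex.sub_re, h0re] at e1
    rw [Complex.sub_im, h0im] at e2
    obtain ⟨a1, a2⟩ := abs_le.mp e1
    obtain ⟨a3, a4⟩ := abs_le.mp e2
    refine ⟨by linarith, by linarith, ?_⟩
    have : |z.im| ≤ t + 7 / 4 := by
      rw [abs_le]; constructor <;> linarith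
    linarith
  have hζan : AnalyticOnNhd ℂ F (closedBall z0 (7 / 4)) := fun z _ => hF.diff.analyticAt z
  have hlow0 := hlow z0 (by rw [h0re])
  have hz0ne : F z0 ≠ 0 := by
    intro h; rw [h, norm_zero] at hlow0; linarith
  have hdist : ∀ ρ ∈ S, 0 < ‖z0 - ρ‖ ∧ ‖z0 - ρ‖ ≤ 8 / 5 := by
    intro ρ hρ
    obtain ⟨h1, h2, h3⟩ := hS ρ hρ
    obtain ⟨h4, h5⟩ := abs_le.mp h3
    have hd2 : ‖z0 - ρ‖ ^ 2 = (2 - ρ.re) ^ 2 + (t - ρ.im) ^ 2 := by
      rw [← Complex.normSq_eq_norm_sq, Complex.normSq_apply, Complex.sub_re, Complex.sub_im, h0re, h0im]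
      ring
    constructor
    · rw [norm_pos_iff]
      intro h6
      have := congrArg Complex.re h6
      rw [Complex.sub_re, h0re] at this
      simp at this
      linarith
    · have h6 : ‖z0 - ρ‖ ^ 2 ≤ (8 / 5) ^ 2 := by
        rw [hd2]
        nlinarith
      exact (pow_le_pow_iff_left₀ (norm_nonneg _) (by norm_num) (by norm_num)).mp h6
  have hJ := Pool.Agent.Y24.jensen_low (h := F) (c := z0) (R := 7 / 4) (by norm_num) hζan hz0ne S
    (analyticOrderNatAt F) (fun _ => 1 / 12)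
    (fun ρ _ _ => le_rfl) (fun ρ _ => by norm_num)
    (fun ρ hρ _ => by
      obtain ⟨h1, h2⟩ := hdist ρ hρ
      have h3 : (35:ℝ) / 32 ≤ 7 / 4 * ‖z0 - ρ‖⁻¹ := by
        rw [← div_eq_mul_inv, le_div_iff₀ h1]; linarith
      have h4 : (1:ℝ) / 12 ≤ Real.log (35 / 32) := by
        have := Real.one_sub_inv_le_log_of_pos (show (0:ℝ) < 35 / 32 by norm_num)
        norm_num at this
        linarith
      exact h4.trans (Real.log_le_log (by norm_num) h3))
    (fun ρ hρ hρB => by
      exfalso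
      apply hρB
      rw [mem_closedBall, dist_eq_norm']
      linarith [(hdist ρ hρ).2])
  have hbd : ∀ z ∈ sphere z0 |7 / 4|, Real.log ‖F z‖ ≤ |Real.log (1 + C)| + B * Real.log (t + 3) := by
    intro z hz
    rw [abs_of_pos (by norm_num : (0:ℝ) < 7 / 4)] at hz
    obtain ⟨b1, b2, b3⟩ := hball z (sphere_subset_closedBall hz)
    have hl0 : 0 ≤ Real.log (t + 3) := by linarith
    rcases (norm_nonneg (F z)).eq_or_lt with h0 | h0
    · rw [← h0, Real.log_zero]; positivity
    · have h1 := hZ z b1 b2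
      have h2 : ‖F z‖ ≤ (1 + C) * (t + 3) ^ B := by
        calc ‖F z‖ ≤ C * (1 + |z.im|) ^ B := h1
          _ ≤ (1 + C) * (t + 3) ^ B := by
            gcongr
            linarith
      calc Real.log ‖F z‖ ≤ Real.log ((1 + C) * (t + 3) ^ B) := Real.log_le_log h0 h2
        _ = Real.log (1 + C) + B * Real.log (t + 3) := by
            rw [Real.log_mul (by positivity) (by positivity), Real.log_pow]
        _ ≤ _ := by gcongr; exact le_abs_self _
  have hci : CircleIntegrable (fun z => Real.log ‖F z‖) z0 (7 / 4) := by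
    apply MeromorphicOn.circleIntegrable_log_norm
    rw [abs_of_pos (by norm_num : (0:ℝ) < 7 / 4)]
    exact (hζan.mono sphere_subset_closedBall).meromorphicOn
  have havg := Real.circleAverage_mono_on_of_le_circle hci hbd
  have hlc : -|Real.log c| ≤ Real.log ‖F z0‖ :=
    (neg_abs_le _).trans (Real.log_le_log hc hlow0)
  rw [← Finset.sum_mul] at hJ
  have hB0 : (0:ℝ) ≤ B := Nat.cast_nonneg B
  have a1 := abs_nonneg (Real.log (1 + C))
  have a2 := abs_nonneg (Real.log c)
  nlinarith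

/-- the total number of zeros -/
lemma total_count (hF : LFn F) : ∃ C : ℝ, 0 < C ∧ ∀ T : ℝ, 2 ≤ T → ∀ S : Finset ℂ,
    (∀ ρ ∈ S, ρ ∈ ZF F (1 / 2) T) →
    ∑ ρ ∈ S, (analyticOrderNatAt F ρ : ℝ) ≤ C * T * Real.log T := by
  obtain ⟨C, hC, hU⟩ := unit_count hF
  refine ⟨6 * C, by positivity, fun T hT S hS => ?_⟩
  have hT0 : 0 < T := by linarith
  classical
  have hmaps : ∀ ρ ∈ S, ⌊ρ.im⌋₊ ∈ Finset.range (⌊T⌋₊ + 1) := by
    intro ρ hρ
    rw [Finset.mem_range]
    have := Nat.floor_le_floor (hS ρ hρ).2.2.2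
    omega
  rw [← Finset.sum_fiberwise_of_maps_to hmaps]
  have hlT : 0 ≤ Real.log T := Real.log_nonneg (by linarith)
  have hterm : ∀ n ∈ Finset.range (⌊T⌋₊ + 1), ∑ ρ ∈ S with ⌊ρ.im⌋₊ = n, (analyticOrderNatAt F ρ : ℝ) ≤
      3 * C * Real.log T := by
    intro n hn
    rw [Finset.mem_range] at hn
    have hnT : (n:ℝ) ≤ T := by
      have h1 : n ≤ ⌊T⌋₊ := by omega
      exact (by exact_mod_cast h1 : (n:ℝ) ≤ ⌊T⌋₊).trans (Nat.floor_le hT0.le)
    have h5 := hU ((n:ℝ) + 1 / 2) (by positivity) (S.filter fun ρ => ⌊ρ.im⌋₊ = n) (fun ρ hρ => by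
      rw [Finset.mem_filter] at hρ
      obtain ⟨h6, h7⟩ := hρ
      obtain ⟨g1, g2, g3, g4⟩ := hS ρ h6
      have h8 := Nat.lt_floor_add_one ρ.im
      have h9 := Nat.floor_le g3.le
      rw [h7] at h8 h9
      refine ⟨g2, re_le_one hF g1, ?_⟩
      rw [abs_le]; constructor <;> linarith)
    refine h5.trans ?_
    have h6 : Real.log ((n:ℝ) + 1 / 2 + 3) ≤ 3 * Real.log T := by
      have : 3 * Real.log T = Real.log (T ^ 3) := by rw [Real.log_pow]; push_cast; ring
      rw [this]
      apply Real.log_le_log (by positivity)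
      have h8 : 4 ≤ T ^ 2 := by nlinarith
      have h7 : 4 * T ≤ T ^ 3 := by
        calc 4 * T ≤ T ^ 2 * T := by gcongr
          _ = _ := by ring
      linarith
    calc C * Real.log ((n:ℝ) + 1 / 2 + 3) ≤ C * (3 * Real.log T) := by gcongr
      _ = _ := by ring
  refine (Finset.sum_le_sum hterm).trans ?_
  rw [Finset.sum_const, Finset.card_range, nsmul_eq_mul]
  have hfl : ((⌊T⌋₊ + 1 : ℕ) : ℝ) ≤ 2 * T := by
    push_cast
    have := Nat.floor_le hT0.le
    linarith
  calc ((⌊T⌋₊ + 1 : ℕ) : ℝ) * (3 * C * Real.log T) ≤ (2 * T) * (3 * C * Real.log T) := by gcongr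
    _ = _ := by ring

/-- the number of zeros, as a finite sum -/
def NF (hF : LFn F) (σ T : ℝ) : ℝ := ∑ ρ ∈ (ZF_fin hF σ T).toFinset, (analyticOrderNatAt F ρ : ℝ)

lemma NF_mono (hF : LFn F) {σ σ' T T' : ℝ} (h1 : σ' ≤ σ) (h2 : T ≤ T') : NF hF σ T ≤ NF hF σ' T' := by
  apply Finset.sum_le_sum_of_subset_of_nonneg
  · intro ρ hρ
    rw [Set.Finite.mem_toFinset] at hρ ⊢
    exact ⟨hρ.1, h1.trans hρ.2.1, hρ.2.2.1, hρ.2.2.2.trans h2⟩
  · intro ρ _ _
    positivity

lemma NF_step (hF : LFn F) {σ T T' : ℝ} : NF hF σ T ≤ NF hF σ T' +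
    ∑ ρ ∈ (ZF_fin hF σ T).toFinset.filter (fun ρ => T' < ρ.im), (analyticOrderNatAt F ρ : ℝ) := by
  unfold NF
  rw [← Finset.sum_filter_add_sum_filter_not (ZF_fin hF σ T).toFinset (fun ρ => T' < ρ.im), add_comm]
  apply add_le_add_left
  apply Finset.sum_le_sum_of_subset_of_nonneg
  · intro ρ hρ
    rw [Finset.mem_filter, Set.Finite.mem_toFinset] at hρ
    rw [Set.Finite.mem_toFinset]
    exact ⟨hρ.1.1, hρ.1.2.1, hρ.1.2.2.1, not_lt.mp hρ.2⟩
  · intro ρ _ _
    positivity

theorem density1 (hF : LFn F) (hP : Mol F P κ) {q0 : ℝ} (hq0 : 1 / 2 ≤ q0) (hq1 : q0 < κ) :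
    ∃ C : ℝ, 0 < C ∧ ∀ σ T : ℝ, 1 / 2 ≤ σ → σ ≤ 1 → 2 ≤ T →
    NF hF σ T ≤ C * T ^ (1 - q0 * (σ - 1 / 2)) * Real.log T := by
  obtain ⟨C0, hC0, hW⟩ := window hF hP hq0 hq1
  obtain ⟨C2, hC2, hTot⟩ := total_count hF
  obtain ⟨T0, hT0⟩ := eventually_atTop.mp hW
  have hκ1 := hP.κ1
  set T1 := max (2 * T0) 100 with hT1
  have hq00 : 0 < q0 := by linarith
  have hq01 : q0 < 1 := hq1.trans_le hκ1
  set C' := C2 * T1 + C2 * Real.exp 2 + 4 * (C0 * Real.exp 1) with hC'
  have hT1pos : 0 < T1 := lt_of_lt_of_le (by norm_num) (le_max_right (2 * T0) 100)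
  have hC'0 : 0 < C' := by positivity
  refine ⟨C', hC'0, ?_⟩
  -- the induction
  have hind : ∀ n : ℕ, ∀ σ T : ℝ, T ≤ n → 1 / 2 ≤ σ → σ ≤ 1 → 2 ≤ T →
      NF hF σ T ≤ C' * T ^ (1 - q0 * (σ - 1 / 2)) * Real.log T := by
    intro n
    induction n with
    | zero =>
      intro σ T h1 _ _ h2
      exfalso
      norm_num at h1
      linarith
    | succ n ih =>
      intro σ T hTn hσ1 hσ2 hT2
      have hTpos : 0 < T := by linarith
      set L := Real.log T with hL
      have hL0 : 0 < L := Real.log_pos (by linarith)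
      have htot : NF hF σ T ≤ C2 * T * L := by
        refine (NF_mono hF hσ1 le_rfl).trans ?_
        exact hTot T hT2 _ (fun ρ hρ => by rwa [Set.Finite.mem_toFinset] at hρ)
      set α := 1 - q0 * (σ - 1 / 2) with hα
      have hα3 : 1 / 2 ≤ α := by
        rw [hα]
        have : q0 * (σ - 1 / 2) ≤ 1 * (1 / 2) := mul_le_mul hq01.le (by linarith) (by linarith) (by norm_num)
        linarith
      have hTα1 : 1 ≤ T ^ α := Real.one_le_rpow (by linarith) (by linarith)
      rcases lt_or_ge T T1 with hlt | hge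
      · refine htot.trans ?_
        calc C2 * T * L ≤ C2 * T1 * L := by gcongr
          _ = C2 * T1 * 1 * L := by ring
          _ ≤ C' * T ^ α * L := by
            have h1 : C2 * T1 ≤ C' := by
              rw [hC']
              have : 0 ≤ C2 * Real.exp 2 + 4 * (C0 * Real.exp 1) := by positivity
              linarith
            gcongr
      · set U := T / 2 with hU
        have hT100 : 100 ≤ T := (le_max_right (2 * T0) 100).trans hge
        have hUT0 : T0 ≤ U := by
          have := (le_max_left (2 * T0) 100).trans hge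
          rw [hU]; linarith
        have hU50 : 50 ≤ U := by rw [hU]; linarith
        have hUpos : 0 < U := by linarith
        have hUL : Real.log U = L - Real.log 2 := by
          rw [hU, Real.log_div hTpos.ne' (by norm_num)]
        have hl2a := Real.log_two_lt_d9
        have hl2b := Real.log_two_gt_d9
        have hLU0 : 0 < Real.log U := Real.log_pos (by linarith)
        rcases le_or_gt ((σ - 1 / 2) * Real.log U) 1 with hs | hs
        · refine htot.trans ?_
          have h1 : T ≤ T ^ α * Real.exp 2 := by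
            have h2 : T = T ^ α * Real.exp (q0 * ((σ - 1 / 2) * L)) := by
              have h3 : Real.exp (q0 * ((σ - 1 / 2) * L)) = T ^ (q0 * (σ - 1 / 2)) := by
                rw [Real.rpow_def_of_pos hTpos]; congr 1; ring
              rw [h3, ← Real.rpow_add hTpos, hα, sub_add_cancel, Real.rpow_one]
            have h4 : Real.exp (q0 * ((σ - 1 / 2) * L)) ≤ Real.exp 2 := by
              apply Real.exp_le_exp.mpr
              have h5 : (σ - 1 / 2) * L ≤ 2 := by
                have e : L = Real.log U + Real.log 2 := by rw [hUL]; ring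
                rw [e, mul_add]
                have : (σ - 1 / 2) * Real.log 2 ≤ 1 / 2 * 1 :=
                  mul_le_mul (by linarith) (by linarith) (by linarith) (by norm_num)
                linarith
              have h6 : 0 ≤ (σ - 1 / 2) * L := mul_nonneg (by linarith) hL0.le
              calc q0 * ((σ - 1 / 2) * L) ≤ 1 * 2 := mul_le_mul hq01.le h5 h6 (by norm_num)
                _ = 2 := by norm_num
            calc T = T ^ α * Real.exp (q0 * ((σ - 1 / 2) * L)) := h2
              _ ≤ _ := by gcongr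
          calc C2 * T * L ≤ C2 * (T ^ α * Real.exp 2) * L := by gcongr
            _ = C2 * Real.exp 2 * T ^ α * L := by ring
            _ ≤ C' * T ^ α * L := by
              have h2 : C2 * Real.exp 2 ≤ C' := by
                rw [hC']
                have : 0 ≤ C2 * T1 + 4 * (C0 * Real.exp 1) := by positivity
                linarith
              gcongr
        · -- the step
          have hUn : U ≤ n := by
            push_cast at hTn
            rw [hU]; linarith
          have hih := ih σ U hUn hσ1 hσ2 (by linarith)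
          have hw := hT0 U hUT0 (σ - 1 / Real.log U) (by
            have : 1 / Real.log U ≤ σ - 1 / 2 := by rw [div_le_iff₀ hLU0]; exact hs.le
            linarith) (by
            have : 0 < 1 / Real.log U := by positivity
            linarith) ((ZF_fin hF σ T).toFinset.filter (fun ρ => U < ρ.im)) (fun ρ hρ => by
              rw [Finset.mem_filter, Set.Finite.mem_toFinset] at hρ
              obtain ⟨⟨g1, g2, g3, g4⟩, g5⟩ := hρ
              refine ⟨by linarith, re_le_one hF g1, g5.le, ?_⟩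
              rw [hU]; linarith)
          have hw2 : ∑ ρ ∈ (ZF_fin hF σ T).toFinset.filter (fun ρ => U < ρ.im), (analyticOrderNatAt F ρ : ℝ) ≤
              C0 * Real.exp 1 * T ^ α * L := by
            refine hw.trans ?_
            have h1 : U * Real.exp (-(q0 * (σ - 1 / Real.log U - 1 / 2) * Real.log U)) = U ^ α * Real.exp q0 := by
              have h3 : -(q0 * (σ - 1 / Real.log U - 1 / 2) * Real.log U) =
                  -(q0 * (σ - 1 / 2)) * Real.log U + q0 := by
                field_simp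
                ring
              have h4 : Real.exp (-(q0 * (σ - 1 / 2)) * Real.log U) = U ^ (-(q0 * (σ - 1 / 2))) := by
                rw [Real.rpow_def_of_pos hUpos]; congr 1; ring
              rw [h3, Real.exp_add, h4, ← mul_assoc]
              congr 1
              nth_rewrite 1 [← Real.rpow_one U]
              rw [← Real.rpow_add hUpos]
              congr 1
            have h5 : Real.exp q0 ≤ Real.exp 1 := Real.exp_le_exp.mpr (by linarith)
            have h6 : U ^ α ≤ T ^ α := Real.rpow_le_rpow hUpos.le (by rw [hU]; linarith) (by linarith)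
            have h7 : Real.log U ≤ L := by rw [hUL]; linarith
            calc C0 * (U * Real.log U) * Real.exp (-(q0 * (σ - 1 / Real.log U - 1 / 2) * Real.log U))
                = C0 * (U * Real.exp (-(q0 * (σ - 1 / Real.log U - 1 / 2) * Real.log U))) * Real.log U := by ring
              _ = C0 * (U ^ α * Real.exp q0) * Real.log U := by rw [h1]
              _ ≤ C0 * (T ^ α * Real.exp 1) * L := by gcongr
              _ = _ := by ring
          have hpow : U ^ α ≤ T ^ α * (3 / 4) := by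
            rw [hU, Real.div_rpow hTpos.le (by norm_num), div_eq_mul_inv]
            apply mul_le_mul_of_nonneg_left _ (by positivity)
            have h1 : (2:ℝ) ^ (1 / 2 : ℝ) ≤ (2:ℝ) ^ α := Real.rpow_le_rpow_of_exponent_le (by norm_num) hα3
            have h2 : (4 / 3 : ℝ) ≤ (2:ℝ) ^ (1 / 2 : ℝ) := by
              rw [← Real.sqrt_eq_rpow]
              exact Real.le_sqrt_of_sq_le (by norm_num)
            have h3 : ((2:ℝ) ^ α)⁻¹ ≤ (4 / 3 : ℝ)⁻¹ := inv_anti₀ (by norm_num) (h2.trans h1)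
            refine h3.trans (by norm_num)
          have hlog : Real.log U ≤ L := by rw [hUL]; linarith
          calc NF hF σ T ≤ NF hF σ U + _ := NF_step hF (T' := U)
            _ ≤ C' * U ^ α * Real.log U + C0 * Real.exp 1 * T ^ α * L := add_le_add hih hw2
            _ ≤ C' * (T ^ α * (3 / 4)) * L + C0 * Real.exp 1 * T ^ α * L := by gcongr
            _ = C' * T ^ α * L - T ^ α * L * (C' / 4 - C0 * Real.exp 1) := by ring
            _ ≤ C' * T ^ α * L := by
              have h2 : 4 * (C0 * Real.exp 1) ≤ C' := by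
                rw [hC']
                have : 0 ≤ C2 * T1 + C2 * Real.exp 2 := by positivity
                linarith
              have h3 : 0 ≤ C' / 4 - C0 * Real.exp 1 := by linarith
              have h4 : 0 ≤ T ^ α * L * (C' / 4 - C0 * Real.exp 1) := by positivity
              linarith
  intro σ T hσ1 hσ2 hT2
  exact hind ⌈T⌉₊ σ T (Nat.le_ceil T) hσ1 hσ2 hT2

/-- **The density theorem.** -/
theorem density (hF : LFn F) (hP : ∀ κ : ℝ, 1 / 2 < κ → κ < 1 → ∃ P : ℝ → ℂ → ℂ, Mol F P κ)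
    {c : ℝ} (hc : c < 1) : ∃ C : ℝ, 0 < C ∧ ∀ σ T : ℝ, 1 / 2 ≤ σ → σ ≤ 1 → 2 ≤ T →
    (ZF F σ T).Finite ∧
    ∑ᶠ ρ ∈ ZF F σ T, (analyticOrderNatAt F ρ : ℝ) ≤ C * T ^ (1 - c * (σ - 1 / 2)) * Real.log T := by
  set c' := max c (1 / 2) with hc'
  have hc'1 : 1 / 2 ≤ c' := le_max_right _ _
  have hc'2 : c' < 1 := max_lt hc (by norm_num)
  obtain ⟨P, hPP⟩ := hP ((1 + c') / 2) (by linarith) (by linarith)
  obtain ⟨C, hC, h⟩ := density1 hF hPP (q0 := c') hc'1 (by linarith)
  refine ⟨C, hC, fun σ T hσ1 hσ2 hT => ⟨ZF_fin hF σ T, ?_⟩⟩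
  have h1 := h σ T hσ1 hσ2 hT
  rw [finsum_mem_eq_finite_toFinset_sum _ (ZF_fin hF σ T)]
  refine h1.trans ?_
  have hlog : 0 ≤ Real.log T := Real.log_nonneg (by linarith)
  have hcc : c ≤ c' := le_max_left _ _
  have hpow : T ^ (1 - c' * (σ - 1 / 2)) ≤ T ^ (1 - c * (σ - 1 / 2)) := by
    apply Real.rpow_le_rpow_of_exponent_le (by linarith)
    have : c * (σ - 1 / 2) ≤ c' * (σ - 1 / 2) := mul_le_mul_of_nonneg_right hcc (by linarith)
    linarith
  gcongr

end

end Pool.Agent.Y24.GL
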