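import Pool.Agent.Y24.GL.G6
import Pool.Agent.Y24.GL.H3
import Pool.Agent.Y671.GL.All

set_option autoImplicit false

/-!
The mollifier of length `T ^ κ`.
-/

namespace Pool.Agent.Y24.GL

open Complex Finset Filter MeasureTheory
open Pool.Agent.H24R2.DZ (MM ph)
open Pool.Agent.Y771.GL
open Pool.Agent.Y671.GL (mf bq IsL mT yT Frm mv1_all)

variable {ps lam : ℕ → ℂ}

/-- the mollifier: short, times the truncated inverse of `F m` -/
noncomputable def PM (ps lam : ℕ → ℂ) (θ κ : ℝ) (K : ℕ) (T : ℝ) (s : ℂ) : ℂ :=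
  mT ps lam θ T s * MM ⌊Real.exp (κ * Real.log T)⌋₊ (IV ps lam θ (Real.log T) K) s

lemma MM_diff (y : ℕ) (b : ℕ → ℂ) : Differentiable ℂ (MM y b) := by
  unfold MM
  refine Differentiable.fun_sum fun h hh => ?_
  have h1 : (h : ℂ) ≠ 0 := by
    have := (mem_Icc.mp hh).1
    exact_mod_cast (by omega : h ≠ 0)
  exact (differentiable_neg.const_cpow (Or.inl h1)).const_mul _

lemma MM_bd {y : ℕ} {b : ℕ → ℂ} {S : ℝ} (hS : ∑ n ∈ Icc 1 y, ‖b n‖ / (n : ℝ) ^ 2 ≤ S) {s : ℂ} (hs : 0 ≤ s.re) :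
    ‖MM y b s‖ ≤ (y : ℝ) ^ 2 * S := by
  unfold MM
  refine (norm_sum_le _ _).trans ?_
  have h1 : ∀ h ∈ Icc 1 y, ‖b h * (h : ℂ) ^ (-s)‖ ≤ (y : ℝ) ^ 2 * (‖b h‖ / (h : ℝ) ^ 2) := by
    intro h hh
    obtain ⟨h1, h2⟩ := mem_Icc.mp hh
    have hp : (1 : ℝ) ≤ h := by exact_mod_cast h1
    have hy : (h : ℝ) ≤ y := by exact_mod_cast h2
    rw [norm_mul, Complex.norm_natCast_cpow_of_pos (by omega), Complex.neg_re]
    have e1 : (h : ℝ) ^ (-s.re) ≤ 1 := Real.rpow_le_one_of_one_le_of_nonpos hp (by linarith)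
    have e2 : 1 ≤ (y : ℝ) ^ 2 / (h : ℝ) ^ 2 := by
      rw [one_le_div (by positivity)]
      gcongr
    calc ‖b h‖ * (h : ℝ) ^ (-s.re) ≤ ‖b h‖ * ((y : ℝ) ^ 2 / (h : ℝ) ^ 2) := by
          apply mul_le_mul_of_nonneg_left (e1.trans e2) (norm_nonneg _)
      _ = _ := by ring
  refine (sum_le_sum h1).trans ?_
  rw [← mul_sum]
  gcongr

/-- **The mollifier exists.** -/
theorem mol {k N : ℕ} {F : ℂ → ℂ} (hf : Frm k N ps lam) (hF : IsL lam F) {κ : ℝ} (hκ0 : 0 < κ) (hκ1 : κ ≤ 1) :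
    ∃ P : ℝ → ℂ → ℂ, Mol F P κ := by
  obtain ⟨th, C, hd⟩ := dat_of_frm hf
  obtain ⟨θ0, hθ0, hθ1, hmv⟩ := mv1_all k N ps lam F hf hF
  obtain ⟨C0, T0, hC0, hT0, hmv⟩ := hmv θ0 hθ0 le_rfl
  obtain ⟨K, hK⟩ : ∃ K : ℕ, 2 ≤ θ0 * K := by
    obtain ⟨K, hK⟩ := exists_nat_ge (2 / θ0)
    refine ⟨K, ?_⟩
    rw [div_le_iff₀ hθ0] at hK
    linarith
  obtain ⟨C1, hC1, hms⟩ := msq_IV hd hθ0 K
  obtain ⟨C2, hC2, hri⟩ := right_bd hd hF hθ0 hK
  obtain ⟨S1, hS1, hb1⟩ := AB_bq hd θ0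
  obtain ⟨S2, hS2, hb2⟩ := AB_IV hd θ0 K
  refine ⟨PM ps lam θ0 κ K, hκ0, hκ1, fun T => ?_, ?_, ?_, ?_⟩
  · unfold PM mT
    exact (MM_diff _ _).mul (MM_diff _ _)
  · refine ⟨4 * S1 * S2, 4, by positivity, fun T hT s hs => ?_⟩
    have hT0' : 0 < T := by linarith
    unfold PM mT
    rw [norm_mul]
    have hy : (yT θ0 T : ℝ) ≤ 2 * T := by
      unfold yT
      have h1 : T ^ θ0 ≤ T := by
        calc T ^ θ0 ≤ T ^ (1:ℝ) := Real.rpow_le_rpow_of_exponent_le (by linarith) (by linarith)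
          _ = T := Real.rpow_one T
      have h2 := Nat.ceil_lt_add_one (Real.rpow_nonneg hT0'.le θ0)
      linarith
    have hY : (⌊Real.exp (κ * Real.log T)⌋₊ : ℝ) ≤ T := by
      refine (Nat.floor_le (Real.exp_pos _).le).trans ?_
      have hlog : 0 ≤ Real.log T := Real.log_nonneg (by linarith)
      calc Real.exp (κ * Real.log T) ≤ Real.exp (Real.log T) := by
            apply Real.exp_le_exp.mpr
            calc κ * Real.log T ≤ 1 * Real.log T := mul_le_mul_of_nonneg_right hκ1 hlog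
              _ = _ := one_mul _
        _ = T := Real.exp_log hT0'
    have a1 : ‖MM (yT θ0 T) (bq ps lam θ0 (Real.log T) 0) s‖ ≤ (yT θ0 T : ℝ) ^ 2 * S1 := by
      apply MM_bd _ hs
      refine le_trans (le_of_eq (sum_congr rfl fun n hn => ?_)) (hb1 (Real.log T) (yT θ0 T))
      rw [af_apply (by have := (mem_Icc.mp hn).1; omega)]
    have a2 : ‖MM ⌊Real.exp (κ * Real.log T)⌋₊ (IV ps lam θ0 (Real.log T) K) s‖ ≤
        (⌊Real.exp (κ * Real.log T)⌋₊ : ℝ) ^ 2 * S2 := MM_bd (hb2 (Real.log T) _) hs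
    calc ‖MM (yT θ0 T) (bq ps lam θ0 (Real.log T) 0) s‖ * ‖MM ⌊Real.exp (κ * Real.log T)⌋₊ (IV ps lam θ0 (Real.log T) K) s‖
        ≤ ((yT θ0 T : ℝ) ^ 2 * S1) * ((⌊Real.exp (κ * Real.log T)⌋₊ : ℝ) ^ 2 * S2) :=
          mul_le_mul a1 a2 (norm_nonneg _) (by positivity)
      _ ≤ ((2 * T) ^ 2 * S1) * (T ^ 2 * S2) := by gcongr
      _ = _ := by ring
  · refine ⟨C0 + 8 + C1, by positivity, ?_⟩
    filter_upwards [eventually_ge_atTop (max T0 3)] with T hT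
    have hT3 : 3 ≤ T := (le_max_right _ _).trans hT
    have hTT0 : T0 ≤ T := (le_max_left _ _).trans hT
    have hTpos : 0 < T := by linarith
    have hYT : (⌊Real.exp (κ * Real.log T)⌋₊ : ℝ) ≤ T := by
      refine (Nat.floor_le (Real.exp_pos _).le).trans ?_
      have hlog : 0 ≤ Real.log T := Real.log_nonneg (by linarith)
      calc Real.exp (κ * Real.log T) ≤ Real.exp (Real.log T) := by
            apply Real.exp_le_exp.mpr
            calc κ * Real.log T ≤ 1 * Real.log T := mul_le_mul_of_nonneg_right hκ1 hlog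
              _ = _ := one_mul _
        _ = T := Real.exp_log hTpos
    have h1 := hmv T (1 / 2) hTT0 le_rfl (by norm_num)
    have h2 := hms T ⌊Real.exp (κ * Real.log T)⌋₊ hT3 hYT
    set Y := ⌊Real.exp (κ * Real.log T)⌋₊ with hYdef
    have hline : Continuous fun t : ℝ => (((1 / 2 : ℝ) : ℂ) + (t : ℂ) * I) := by fun_prop
    have cF : Continuous fun t : ℝ => F (((1 / 2 : ℝ) : ℂ) + (t : ℂ) * I) := hF.diff.continuous.comp hline
    have cm : Continuous fun t : ℝ => mT ps lam θ0 T (((1 / 2 : ℝ) : ℂ) + (t : ℂ) * I) := by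
      unfold mT
      exact (MM_diff _ _).continuous.comp hline
    have cM : Continuous fun t : ℝ => MM Y (IV ps lam θ0 (Real.log T) K) (((1 / 2 : ℝ) : ℂ) + (t : ℂ) * I) :=
      (MM_diff _ _).continuous.comp hline
    have hle : T / 4 ≤ 4 * T := by linarith
    have hpt : ∀ t ∈ Set.Icc (T / 4) (4 * T), ‖F (((1 / 2 : ℝ) : ℂ) + (t : ℂ) * I) *
        PM ps lam θ0 κ K T (((1 / 2 : ℝ) : ℂ) + (t : ℂ) * I)‖ ≤
        ‖F (((1 / 2 : ℝ) : ℂ) + (t : ℂ) * I) * mT ps lam θ0 T (((1 / 2 : ℝ) : ℂ) + (t : ℂ) * I) - 1‖ ^ 2 + 1 +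
        ‖MM Y (IV ps lam θ0 (Real.log T) K) (((1 / 2 : ℝ) : ℂ) + (t : ℂ) * I)‖ ^ 2 := by
      intro t _
      unfold PM
      rw [← hYdef, ← mul_assoc, norm_mul]
      set a := F (((1 / 2 : ℝ) : ℂ) + (t : ℂ) * I) * mT ps lam θ0 T (((1 / 2 : ℝ) : ℂ) + (t : ℂ) * I) with ha
      set b := MM Y (IV ps lam θ0 (Real.log T) K) (((1 / 2 : ℝ) : ℂ) + (t : ℂ) * I) with hb
      have h3 : ‖a‖ ≤ ‖a - 1‖ + 1 := by
        calc ‖a‖ = ‖(a - 1) + 1‖ := by rw [sub_add_cancel]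
          _ ≤ ‖a - 1‖ + ‖(1:ℂ)‖ := norm_add_le _ _
          _ = _ := by rw [norm_one]
      have h4 : ‖a‖ * ‖b‖ ≤ (‖a - 1‖ + 1) * ‖b‖ := mul_le_mul_of_nonneg_right h3 (norm_nonneg _)
      nlinarith [sq_nonneg (‖a - 1‖ - 1), sq_nonneg (‖a - 1‖ + 1 - ‖b‖), sq_nonneg ‖b‖]
    have hi1 : IntervalIntegrable (fun t : ℝ => ‖F (((1 / 2 : ℝ) : ℂ) + (t : ℂ) * I) *
        mT ps lam θ0 T (((1 / 2 : ℝ) : ℂ) + (t : ℂ) * I) - 1‖ ^ 2) volume (T / 4) (4 * T) :=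
      (((cF.mul cm).sub continuous_const).norm.pow 2).intervalIntegrable _ _
    have hi2 : IntervalIntegrable (fun t : ℝ => ‖MM Y (IV ps lam θ0 (Real.log T) K) (((1 / 2 : ℝ) : ℂ) + (t : ℂ) * I)‖ ^ 2)
        volume (T / 4) (4 * T) := (cM.norm.pow 2).intervalIntegrable _ _
    have hi3 : IntervalIntegrable (fun t : ℝ => ‖F (((1 / 2 : ℝ) : ℂ) + (t : ℂ) * I) *
        PM ps lam θ0 κ K T (((1 / 2 : ℝ) : ℂ) + (t : ℂ) * I)‖) volume (T / 4) (4 * T) := by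
      apply Continuous.intervalIntegrable
      unfold PM
      exact (cF.mul (cm.mul cM)).norm
    have hI := intervalIntegral.integral_mono_on hle hi3 ((hi1.add intervalIntegrable_const).add hi2) hpt
    rw [intervalIntegral.integral_add (hi1.add intervalIntegrable_const) hi2,
      intervalIntegral.integral_add hi1 intervalIntegrable_const, intervalIntegral.integral_const] at hI
    rw [sub_self, mul_zero, zero_mul, neg_zero, Real.exp_zero, mul_one] at h1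
    simp only [smul_eq_mul, mul_one] at hI
    have e4 : (((1 / 2 : ℝ)) : ℂ) = ((1 / 2 : ℝ) : ℂ) := rfl
    refine hI.trans ?_
    calc _ ≤ C0 * T + (4 * T - T / 4) + C1 * T := by gcongr
      _ ≤ _ := by linarith
  · refine ⟨C2, hC2, fun T hT s hs => ?_⟩
    have hlog : 0 ≤ Real.log T := Real.log_nonneg (by linarith)
    have h1 := hri T (κ * Real.log T) hT (by positivity) (by
      calc κ * Real.log T ≤ 1 * Real.log T := mul_le_mul_of_nonneg_right hκ1 hlog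
        _ = _ := one_mul _) s hs
    unfold PM
    rw [← mul_assoc]
    exact h1

end Pool.Agent.Y24.GL
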