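import Pool.Agent.Y24.GL.H3
import Pool.Agent.Y771.GL.MF
import Pool.Agent.Y771.NF.Inst
import Pool.Agent.W388.TW.Good
import Pool.Agent.W108.TW.Mellin
import Pool.Agent.W440.TW.Twist
import Pool.Agent.W820.TW.FE

set_option autoImplicit false

/-!
Newforms: the properties of the L-function.
-/

namespace Pool.Agent.Y24.GL

open UpperHalfPlane hiding I
open MatrixGroups CongruenceSubgroup Filter Topology Complex
open Pool.Agent.Y671.GL (Frm IsL mf aa)
open Pool.Agent.Y771.NF (lm psN)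
open scoped ComplexConjugate

section ser

variable {k N : ℕ} {ps lam : ℕ → ℂ} {Z : ℂ → ℂ}

lemma ser_eq (hf : Frm k N ps lam) (hL : IsL lam Z) {s : ℂ} (hs : 1 < s.re) : Z s = LSeries lam s := by
  rw [hL.ser s hs, LSeries]
  refine tsum_congr fun n => ?_
  rcases Nat.eq_zero_or_pos n with rfl | hn
  · simp [hf.zero]
  · rw [LSeries.term_of_ne_zero hn.ne', Complex.cpow_neg, div_eq_mul_inv]

lemma sum_of {g : ℕ → ℂ} {σ : ℝ} (h : Summable (fun n : ℕ => ‖g n‖ * (n : ℝ) ^ (-σ))) {s : ℂ} (hs : σ ≤ s.re) :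
    LSeriesSummable g s ∧ ‖LSeries g s‖ ≤ ∑' n : ℕ, ‖g n‖ * (n : ℝ) ^ (-σ) := by
  have h1 : ∀ n : ℕ, ‖LSeries.term g s n‖ ≤ ‖g n‖ * (n : ℝ) ^ (-σ) := by
    intro n
    rcases Nat.eq_zero_or_pos n with rfl | hn
    · rw [LSeries.term_zero, norm_zero]
      positivity
    · rw [LSeries.term_of_ne_zero hn.ne', norm_div, Complex.norm_natCast_cpow_of_pos hn, div_eq_mul_inv,
        ← Real.rpow_neg (Nat.cast_nonneg n)]
      apply mul_le_mul_of_nonneg_left _ (norm_nonneg _)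
      apply Real.rpow_le_rpow_of_exponent_le
      · exact_mod_cast hn
      · linarith
  have h2 : Summable (fun n => ‖LSeries.term g s n‖) := h.of_nonneg_of_le (fun n => norm_nonneg _) h1
  exact ⟨h2.of_norm, (norm_tsum_le_tsum_norm h2).trans (h2.tsum_le_tsum h1 h)⟩

lemma inv_mul_one (hf : Frm k N ps lam) {s : ℂ} (hs : 1 < s.re) :
    LSeries (mf ps lam) s * LSeries lam s = 1 := by
  obtain ⟨-, h2, -, h4⟩ := Pool.Agent.Y771.GL.mf k N ps lam hf
  obtain ⟨h5, h6⟩ := h4 s.re hs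
  have h7 := (sum_of h6 le_rfl).1
  have h8 := (sum_of h5 le_rfl).1
  rw [← LSeries_convolution' h7 h8]
  have h9 : LSeries (LSeries.convolution (mf ps lam) lam) s = LSeries LSeries.delta s := by
    apply LSeries_congr
    intro n hn
    rw [LSeries.convolution_def]
    show ∑ p ∈ n.divisorsAntidiagonal, mf ps lam p.1 * lam p.2 = LSeries.delta n
    rw [Nat.sum_divisorsAntidiagonal (fun a b => mf ps lam a * lam b), h2 n (Nat.pos_of_ne_zero hn)]
    unfold LSeries.delta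
    rfl
  rw [h9, LSeries_delta]
  rfl

/-- bounds to the right of the line of absolute convergence -/
theorem rgt_of (hf : Frm k N ps lam) (hL : IsL lam Z) {ε : ℝ} (hε : 0 < ε) : ∃ c K : ℝ, 0 < c ∧ 0 < K ∧
    ∀ s : ℂ, 1 + ε ≤ s.re → c ≤ ‖Z s‖ ∧ ‖Z s‖ ≤ K := by
  obtain ⟨-, -, -, h4⟩ := Pool.Agent.Y771.GL.mf k N ps lam hf
  obtain ⟨h5, -⟩ := h4 (1 + ε / 2) (by linarith)
  obtain ⟨-, h6⟩ := h4 (1 + ε) (by linarith)
  obtain ⟨K1, hK1⟩ : ∃ K1, K1 = ∑' n : ℕ, ‖lam n‖ * (n : ℝ) ^ (-(1 + ε / 2)) := ⟨_, rfl⟩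
  obtain ⟨M1, hM1⟩ : ∃ M1, M1 = ∑' n : ℕ, ‖mf ps lam n‖ * (n : ℝ) ^ (-(1 + ε)) := ⟨_, rfl⟩
  have hK0 : 0 ≤ K1 := by rw [hK1]; exact tsum_nonneg fun n => by positivity
  have hM0 : 0 ≤ M1 := by rw [hM1]; exact tsum_nonneg fun n => by positivity
  refine ⟨1 / (M1 + 1), K1 + 1, by positivity, by positivity, ?_⟩
  intro s hs
  constructor
  · have h7 := inv_mul_one hf (s := s) (by linarith)
    have h8 := (sum_of h6 hs).2
    rw [← hM1] at h8
    have h9 : ‖LSeries (mf ps lam) s‖ * ‖Z s‖ = 1 := by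
      rw [ser_eq hf hL (by linarith), ← norm_mul, h7, norm_one]
    rw [div_le_iff₀ (by linarith)]
    nlinarith [norm_nonneg (Z s)]
  · rw [ser_eq hf hL (by linarith)]
    have := (sum_of h5 (s := s) (by linarith)).2
    rw [← hK1] at this
    linarith

end ser

variable {N : ℕ} [NeZero N] {k : ℕ} {f : CuspForm (Gamma0 N : Subgroup (GL (Fin 2) ℝ)) (k : ℤ)} {ε : ℝ}

/-- the L-function -/
theorem exists_Z (hk : 1 ≤ k) (hf : W388.IsNewf N k f ε) : ∃ Z : ℂ → ℂ, W388.FE2 k N 1 Z ∧ IsL (lm f) Z := by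
  have hF := Pool.Agent.Y771.NF.frm_newf hk hf
  obtain ⟨-, -, -, hS⟩ := Pool.Agent.Y771.GL.mf k N _ _ hF
  have hk' : (1 : ℤ) ≤ (k : ℤ) := by exact_mod_cast hk
  obtain ⟨Z, hZ, hZs⟩ := W388.exists_twist Pool.Agent.W440.TW.t_twist Pool.Agent.W108.TW.t_mellin hk' hf
    (by
      intro q _ χ s hs
      refine ((hS s.re hs).1).of_nonneg_of_le (fun n => norm_nonneg _) fun n => ?_
      rcases Nat.eq_zero_or_pos n with rfl | hn
      · have h0 : W388.lamf f 0 = 0 := (Pool.Agent.Y771.NF.heckeSeq hf).zero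
        rw [h0]
        simp
        positivity
      · rw [norm_mul, norm_mul, Complex.norm_natCast_cpow_of_pos hn, Complex.neg_re]
        have h1 : ‖χ (n : ZMod q)‖ ≤ 1 := χ.norm_le_one _
        have h2 : ‖lm f n‖ = ‖((W388.lamf f n : ℝ) : ℂ)‖ := rfl
        rw [h2]
        have h3 : 0 ≤ ‖((W388.lamf f n : ℝ) : ℂ)‖ * (n : ℝ) ^ (-s.re) := by positivity
        nlinarith) 1 1
    DirichletCharacter.isPrimitive_one_level_one (Nat.coprime_one_left N)
  refine ⟨Z, by simpa using hZ, hZ.diff, ?_⟩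
  intro s hs
  rw [hZs s hs]
  refine tsum_congr fun n => ?_
  have h1 : (1 : DirichletCharacter ℂ 1) ((n : ℕ) : ZMod 1) = 1 := by
    apply MulChar.one_apply
    exact isUnit_of_subsingleton _
  rw [h1, one_mul]
  rfl

theorem gro_Z (hk : 1 ≤ k) {Z : ℂ → ℂ} (hF : W388.FE2 k N 1 Z) {ps lam : ℕ → ℂ} (hfm : Frm k N ps lam)
    (hL : IsL lam Z) : ∃ A : ℝ, ∀ s : ℂ, 1 / 16 ≤ s.re → 1 ≤ s.im → ‖Z s‖ ≤ A * s.im ^ A := by
  obtain ⟨c1, K1, -, hK1, h⟩ := rgt_of hfm hL (ε := 1 / 2) (by norm_num)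
  have hk' : (1 : ℤ) ≤ (k : ℤ) := by exact_mod_cast hk
  have hN : (1 : ℝ) ≤ N := by exact_mod_cast Nat.one_le_iff_ne_zero.2 (NeZero.ne N)
  refine ⟨2 + 2 * (max K1 1 * N) * (((((k : ℤ) : ℝ) - 1) / 2) + 6) ^ 2, ?_⟩
  intro s h1 h2
  have h3 := Pool.Agent.W820.TW.F_growth hk' hN le_rfl (le_max_right K1 1) hF (fun s hs =>
    ((h s (by linarith)).2).trans (le_max_left _ _)) le_rfl s h1 h2
  rwa [one_mul] at h3

/-- real coefficients -/
lemma Z_conj {lam : ℕ → ℂ} (hreal : ∀ n, conj (lam n) = lam n) {Z : ℂ → ℂ} (hL : IsL lam Z)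
    (s : ℂ) : Z (conj s) = conj (Z s) := by
  have hd1 : Differentiable ℂ (conj ∘ Z ∘ conj) := by
    intro z
    have := (hL.diff (conj z)).conj_conj
    rwa [Complex.conj_conj] at this
  have hev : (conj ∘ Z ∘ conj) =ᶠ[𝓝 (2 : ℂ)] Z := by
    have hopen : IsOpen {s : ℂ | 1 < s.re} := isOpen_lt continuous_const Complex.continuous_re
    filter_upwards [hopen.mem_nhds (show (2 : ℂ) ∈ {s : ℂ | 1 < s.re} by simp)] with s hs
    simp only [Function.comp_apply]
    rw [hL.ser s hs, hL.ser (conj s) (by simpa using hs), Complex.conj_tsum]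
    refine tsum_congr fun n => ?_
    rw [map_mul, hreal]
    congr 1
    have h1 : (n : ℂ).arg ≠ Real.pi := by
      rw [Complex.natCast_arg]
      exact Real.pi_ne_zero.symm
    have h2 := Complex.cpow_conj (n : ℂ) (-s) h1
    rw [map_neg, Complex.conj_natCast] at h2
    rw [h2, Complex.conj_conj]
  have h2 := AnalyticOnNhd.eq_of_eventuallyEq (fun z _ => hd1.analyticAt z) (fun z _ => hL.diff.analyticAt z) hev
  have h3 := congrFun h2 s
  simp only [Function.comp_apply] at h3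
  rw [← h3, Complex.conj_conj]

/-- the L-function of a newform -/
theorem lfn_of (hk : 1 ≤ k) {Z : ℂ → ℂ} (hFE : W388.FE2 k N 1 Z) {ps lam : ℕ → ℂ} (hfm : Frm k N ps lam)
    (hreal : ∀ n, conj (lam n) = lam n) (hL : IsL lam Z) : LFn Z where
  diff := hL.diff
  low := by
    obtain ⟨c, K, hc, -, h⟩ := rgt_of hfm hL (ε := 1) one_pos
    exact ⟨c, hc, fun z hz => (h z (by linarith)).1⟩
  ne := fun z hz h0 => by
    obtain ⟨c, K, hc, -, h⟩ := rgt_of hfm hL (ε := z.re - 1) (by linarith)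
    have := (h z (by linarith)).1
    rw [h0, norm_zero] at this
    linarith
  gro := fun A => by
    obtain ⟨a, ha⟩ := gro_Z hk hFE hfm hL
    have hK : IsCompact (Set.Icc (1 / 4) A ×ℂ Set.Icc (-1) 1) := isCompact_Icc.reProdIm isCompact_Icc
    obtain ⟨M, hM⟩ := hK.exists_bound_of_continuousOn hL.diff.continuous.continuousOn
    have hup : ∀ z : ℂ, 1 / 4 ≤ z.re → 1 ≤ z.im → ‖Z z‖ ≤ (|a| + |M| + 1) * (1 + |z.im|) ^ ⌈|a|⌉₊ := by
      intro z h1 h2
      have h3 := ha z (by linarith) h2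
      have h4 : |z.im| = z.im := abs_of_nonneg (by linarith)
      rw [h4]
      have h5 : z.im ^ a ≤ (1 + z.im) ^ ⌈|a|⌉₊ := by
        calc z.im ^ a ≤ z.im ^ (⌈|a|⌉₊ : ℝ) := by
              apply Real.rpow_le_rpow_of_exponent_le h2
              exact (le_abs_self a).trans (Nat.le_ceil _)
          _ = z.im ^ ⌈|a|⌉₊ := Real.rpow_natCast _ _
          _ ≤ _ := by gcongr; linarith
      calc ‖Z z‖ ≤ a * z.im ^ a := h3
        _ ≤ |a| * z.im ^ a := by
            apply mul_le_mul_of_nonneg_right (le_abs_self a) (by positivity)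
        _ ≤ (|a| + |M| + 1) * (1 + z.im) ^ ⌈|a|⌉₊ := by
            gcongr
            have := abs_nonneg M
            linarith
    refine ⟨|a| + |M| + 1, ⌈|a|⌉₊, by positivity, fun z h1 h2 => ?_⟩
    rcases le_or_gt 1 z.im with h3 | h3
    · exact hup z h1 h3
    · rcases le_or_gt z.im (-1) with h4 | h4
      · have h5 := hup (conj z) (by simpa using h1) (by simp; linarith)
        rw [Z_conj hreal hL, Complex.norm_conj, Complex.conj_im, abs_neg] at h5
        exact h5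
      · have h5 := hM z ⟨⟨h1, h2⟩, ⟨h4.le, h3.le⟩⟩
        have h6 : (1 : ℝ) ≤ (1 + |z.im|) ^ ⌈|a|⌉₊ := one_le_pow₀ (by linarith [abs_nonneg z.im])
        have h7 : ‖Z z‖ ≤ |a| + |M| + 1 := by
          have := abs_nonneg a
          have := le_abs_self M
          linarith
        calc ‖Z z‖ ≤ (|a| + |M| + 1) * 1 := by rw [mul_one]; exact h7
          _ ≤ _ := by gcongr

end Pool.Agent.Y24.GL
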