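import Pool.Agent.Y24.GL.H5
import Pool.Agent.Y24.GL.H6
import Pool.Agent.Y24.GL.H7
import Pool.Agent.W169.HF.DefsNF

set_option autoImplicit false

/-!
Newforms of weight two: from the L-function to the completed L-function.
-/

namespace Pool.Agent.Y24.GL

open UpperHalfPlane hiding I
open MatrixGroups CongruenceSubgroup Filter Topology Complex
open Pool.Agent.Y671.GL (Frm IsL mf aa)
open Pool.Agent.Y771.NF (lm psN)
open Pool.Agent.W169.HF (IsForm IsCompleted coef)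
open scoped ComplexConjugate

section

variable {N : ℕ} [NeZero N] {k : ℕ} {f : CuspForm (Gamma0 N : Subgroup (GL (Fin 2) ℝ)) (k : ℤ)} {ε : ℝ}

/-- the series in terms of the coefficients of the form -/
lemma ser_shift (hk : 1 ≤ k) (hf : W388.IsNewf N k f ε) {Z : ℂ → ℂ} (hL : IsL (lm f) Z) {w : ℂ} (hw : 1 / 2 < w.re) :
    ∑' n : ℕ, (qExpansion 1 f).coeff (n + 1) * ((n + 1 : ℕ) : ℂ) ^ (-((k : ℂ) / 2 + w)) = Z (1 / 2 + w) := by
  have hF := Pool.Agent.Y771.NF.frm_newf hk hf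
  obtain ⟨-, -, -, hS⟩ := Pool.Agent.Y771.GL.mf k N _ _ hF
  have hre : (1 / 2 + w : ℂ).re = 1 / 2 + w.re := by simp
  have hs : 1 < (1 / 2 + w : ℂ).re := by rw [hre]; linarith
  have hsum := (sum_of (hS _ hs).1 (s := 1 / 2 + w) le_rfl).1
  rw [ser_eq hF hL hs, LSeries, hsum.tsum_eq_zero_add, LSeries.term_zero, zero_add]
  refine tsum_congr fun n => ?_
  have h0 : n + 1 ≠ 0 := by omega
  have hn0 : ((n + 1 : ℕ) : ℂ) ≠ 0 := by exact_mod_cast h0
  have hnr : (0 : ℝ) < ((n + 1 : ℕ) : ℝ) := by exact_mod_cast Nat.succ_pos n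
  rw [LSeries.term_of_ne_zero h0, ← Pool.Agent.Y771.NF.aa_lm hf (n + 1)]
  unfold aa
  have e2 : lm f (n + 1) / ((n + 1 : ℕ) : ℂ) ^ (1 / 2 + w) =
      lm f (n + 1) * ((n + 1 : ℕ) : ℂ) ^ (-(1 / 2 + w)) := by
    rw [Complex.cpow_neg, div_eq_mul_inv]
  rw [e2, mul_assoc]
  congr 1
  rw [Complex.ofReal_cpow hnr.le, Complex.ofReal_natCast, ← Complex.cpow_add _ _ hn0]
  congr 1
  push_cast
  ring

end

variable {N : ℕ} [NeZero N] {f : CuspForm (Gamma0 N : Subgroup (GL (Fin 2) ℝ)) 2} {w : ℝ}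

theorem newf_of_form (hf : IsForm N f w) :
    W388.IsNewf N ((2 : ℕ) : ℤ) (f : CuspForm (Gamma0 N : Subgroup (GL (Fin 2) ℝ)) ((2 : ℕ) : ℤ)) w where
  one := hf.one
  real := hf.real
  mul := hf.mul
  pow := fun p j hp => by
    have h := hf.pow p j hp
    have e : (p : ℂ) ^ (((2 : ℕ) : ℤ) - 1) = (p : ℂ) := by norm_num
    rw [e]
    exact h
  sign := hf.sign
  fricke := fun τ τ' h => by
    have h1 := hf.fricke τ τ' h
    have hN : (0 : ℝ) ≤ N := Nat.cast_nonneg N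
    have e : (w : ℂ) * (((Real.sqrt N : ℝ) : ℂ) * (τ : ℂ) / Complex.I) ^ ((2 : ℕ) : ℤ) =
        -(w : ℂ) * (N : ℂ) * (τ : ℂ) ^ 2 := by
      rw [zpow_natCast, div_pow, mul_pow, Complex.I_sq, ← Complex.ofReal_pow, Real.sq_sqrt hN,
        Complex.ofReal_natCast]
      ring
    rw [e]
    exact h1

theorem completed_unique {N : ℕ} {f : CuspForm (Gamma0 N : Subgroup (GL (Fin 2) ℝ)) 2} {Λ Λ' : ℂ → ℂ}
    (h : IsCompleted f Λ) (h' : IsCompleted f Λ') : Λ = Λ' := by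
  have hev : Λ =ᶠ[𝓝 (3 : ℂ)] Λ' := by
    have hopen : IsOpen {s : ℂ | 2 < s.re} := isOpen_lt continuous_const Complex.continuous_re
    filter_upwards [hopen.mem_nhds (show (3 : ℂ) ∈ {s : ℂ | 2 < s.re} by simp; norm_num)] with s hs
    rw [h.2 s hs, h'.2 s hs]
  exact AnalyticOnNhd.eq_of_eventuallyEq (fun z _ => h.1.analyticAt z) (fun z _ => h'.1.analyticAt z) hev

/-- the completed L-function -/
theorem lam_eq (hf : IsForm N f w) {Z : ℂ → ℂ}
    (hL : IsL (lm (k := 2) (f : CuspForm (Gamma0 N : Subgroup (GL (Fin 2) ℝ)) ((2 : ℕ) : ℤ))) Z)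
    {Λ : ℂ → ℂ} (hΛ : IsCompleted f Λ) {s : ℂ} (hs : 0 < s.re) :
    Λ s = ((Real.sqrt N / (2 * Real.pi) : ℝ) : ℂ) ^ s * Complex.Gamma s * Z (s - 1 / 2) := by
  have hnf := newf_of_form hf
  have hN0 : (0 : ℝ) < N := by exact_mod_cast Nat.pos_of_ne_zero (NeZero.ne N)
  have hc0 : (((Real.sqrt N / (2 * Real.pi) : ℝ)) : ℂ) ≠ 0 := by
    have := Real.pi_pos
    have : 0 < Real.sqrt N / (2 * Real.pi) := by positivity
    exact_mod_cast this.ne'
  have hopen : IsOpen {s : ℂ | 0 < s.re} := isOpen_lt continuous_const Complex.continuous_re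
  have hconv : Convex ℝ {s : ℂ | 0 < s.re} := convex_halfSpace_re_gt 0
  have hg : DifferentiableOn ℂ (fun s : ℂ => ((Real.sqrt N / (2 * Real.pi) : ℝ) : ℂ) ^ s * Complex.Gamma s * Z (s - 1 / 2))
      {s : ℂ | 0 < s.re} := by
    intro z hz
    apply DifferentiableAt.differentiableWithinAt
    refine DifferentiableAt.mul (DifferentiableAt.mul ?_ ?_) ?_
    · exact differentiableAt_id.const_cpow (Or.inl hc0)
    · apply Complex.differentiableAt_Gamma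
      intro m hm
      rw [hm] at hz
      simp only [Set.mem_setOf_eq, neg_re, natCast_re] at hz
      have : (0 : ℝ) ≤ m := Nat.cast_nonneg m
      linarith
    · have h1 : DifferentiableAt ℂ (fun s : ℂ => s - 1 / 2) z := by fun_prop
      exact (hL.diff (z - 1 / 2)).comp z h1
  have h1 := (hΛ.1.differentiableOn (s := {s : ℂ | 0 < s.re})).analyticOnNhd hopen
  have h2 := hg.analyticOnNhd hopen
  have h3 := h1.eqOn_of_preconnected_of_eventuallyEq h2 hconv.isPreconnected (z₀ := 3) (by simp) (by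
    have hopen2 : IsOpen {s : ℂ | 2 < s.re} := isOpen_lt continuous_const Complex.continuous_re
    filter_upwards [hopen2.mem_nhds (show (3 : ℂ) ∈ {s : ℂ | 2 < s.re} by simp; norm_num)] with s hs
    have hs' : (2 : ℝ) < s.re := hs
    rw [hΛ.2 s hs]
    have h4 := ser_shift (k := 2) (by norm_num) hnf hL (w := s - 1) (by
      rw [Complex.sub_re, Complex.one_re]; linarith)
    have e1 : (1 / 2 + (s - 1) : ℂ) = s - 1 / 2 := by ring
    have e2 : (-((((2 : ℕ) : ℂ)) / 2 + (s - 1)) : ℂ) = -s := by push_cast; ring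
    rw [e1, e2] at h4
    rw [← h4]
    rfl)
  exact h3 hs

/-- orders of vanishing -/
theorem ord_eq (hf : IsForm N f w) {Z : ℂ → ℂ}
    (hL : IsL (lm (k := 2) (f : CuspForm (Gamma0 N : Subgroup (GL (Fin 2) ℝ)) ((2 : ℕ) : ℤ))) Z)
    {Λ : ℂ → ℂ} (hΛ : IsCompleted f Λ) {s : ℂ} (hs : 0 < s.re) :
    analyticOrderNatAt Λ s = analyticOrderNatAt Z (s - 1 / 2) := by
  have hN0 : (0 : ℝ) < N := by exact_mod_cast Nat.pos_of_ne_zero (NeZero.ne N)
  have hc0 : (((Real.sqrt N / (2 * Real.pi) : ℝ)) : ℂ) ≠ 0 := by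
    have := Real.pi_pos
    have : 0 < Real.sqrt N / (2 * Real.pi) := by positivity
    exact_mod_cast this.ne'
  have hopen : IsOpen {s : ℂ | 0 < s.re} := isOpen_lt continuous_const Complex.continuous_re
  have hev : Λ =ᶠ[𝓝 s] fun s : ℂ => (((Real.sqrt N / (2 * Real.pi) : ℝ) : ℂ) ^ s * Complex.Gamma s) * Z (s - 1 / 2) := by
    filter_upwards [hopen.mem_nhds hs] with z hz
    exact lam_eq hf hL hΛ hz
  have hga : AnalyticAt ℂ (fun s : ℂ => ((Real.sqrt N / (2 * Real.pi) : ℝ) : ℂ) ^ s * Complex.Gamma s) s := by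
    have hd : DifferentiableOn ℂ (fun s : ℂ => ((Real.sqrt N / (2 * Real.pi) : ℝ) : ℂ) ^ s * Complex.Gamma s)
        {s : ℂ | 0 < s.re} := by
      intro z hz
      apply DifferentiableAt.differentiableWithinAt
      refine DifferentiableAt.mul ?_ ?_
      · exact differentiableAt_id.const_cpow (Or.inl hc0)
      · apply Complex.differentiableAt_Gamma
        intro m hm
        rw [hm] at hz
        simp only [Set.mem_setOf_eq, neg_re, natCast_re] at hz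
        have : (0 : ℝ) ≤ m := Nat.cast_nonneg m
        linarith
    exact hd.analyticOnNhd hopen s hs
  have hgne : ((Real.sqrt N / (2 * Real.pi) : ℝ) : ℂ) ^ s * Complex.Gamma s ≠ 0 := by
    apply mul_ne_zero
    · rw [Ne, Complex.cpow_eq_zero_iff]
      exact fun h => hc0 h.1
    · exact Complex.Gamma_ne_zero_of_re_pos hs
  have hZa : AnalyticAt ℂ (fun s : ℂ => Z (s - 1 / 2)) s := by
    have h1 : Differentiable ℂ (fun s : ℂ => Z (s - 1 / 2)) := hL.diff.comp (by fun_prop)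
    exact h1.analyticAt s
  have hsub : AnalyticAt ℂ (fun s : ℂ => s - 1 / 2) s := by fun_prop
  have hcomp : analyticOrderAt (fun s : ℂ => Z (s - 1 / 2)) s = analyticOrderAt Z (s - 1 / 2) := by
    have h1 := analyticOrderAt_comp_of_deriv_ne_zero (f := Z) (g := fun s : ℂ => s - 1 / 2) (z₀ := s) hsub (by
      rw [deriv_sub_const, deriv_id'']
      exact one_ne_zero)
    exact h1
  unfold analyticOrderNatAt
  rw [analyticOrderAt_congr hev]
  have h5 : analyticOrderAt (fun s : ℂ => (((Real.sqrt N / (2 * Real.pi) : ℝ) : ℂ) ^ s * Complex.Gamma s) * Z (s - 1 / 2)) s =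
      analyticOrderAt (fun s : ℂ => Z (s - 1 / 2)) s := by
    have h6 := analyticOrderAt_mul hga hZa
    rw [hga.analyticOrderAt_eq_zero.mpr hgne, zero_add] at h6
    exact h6
  rw [h5, hcomp]

/-- zeros -/
theorem zero_iff (hf : IsForm N f w) {Z : ℂ → ℂ}
    (hL : IsL (lm (k := 2) (f : CuspForm (Gamma0 N : Subgroup (GL (Fin 2) ℝ)) ((2 : ℕ) : ℤ))) Z)
    {Λ : ℂ → ℂ} (hΛ : IsCompleted f Λ) {s : ℂ} (hs : 0 < s.re) : Λ s = 0 ↔ Z (s - 1 / 2) = 0 := by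
  have hN0 : (0 : ℝ) < N := by exact_mod_cast Nat.pos_of_ne_zero (NeZero.ne N)
  have hc0 : (((Real.sqrt N / (2 * Real.pi) : ℝ)) : ℂ) ≠ 0 := by
    have := Real.pi_pos
    have : 0 < Real.sqrt N / (2 * Real.pi) := by positivity
    exact_mod_cast this.ne'
  have hgne : ((Real.sqrt N / (2 * Real.pi) : ℝ) : ℂ) ^ s * Complex.Gamma s ≠ 0 := by
    apply mul_ne_zero
    · rw [Ne, Complex.cpow_eq_zero_iff]
      exact fun h => hc0 h.1
    · exact Complex.Gamma_ne_zero_of_re_pos hs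
  rw [lam_eq hf hL hΛ hs, mul_eq_zero]
  exact ⟨fun h => h.resolve_left hgne, fun h => Or.inr h⟩

/-- transfer of a bound for the number of zeros -/
theorem transfer (hf : IsForm N f w) {Z : ℂ → ℂ}
    (hL : IsL (lm (k := 2) (f : CuspForm (Gamma0 N : Subgroup (GL (Fin 2) ℝ)) ((2 : ℕ) : ℤ))) Z)
    {Λ : ℂ → ℂ} (hΛ : IsCompleted f Λ) {σ T B : ℝ} (hσ : 1 ≤ σ)
    (h : (ZF Z (σ - 1 / 2) T).Finite ∧ ∑ᶠ ρ ∈ ZF Z (σ - 1 / 2) T, (analyticOrderNatAt Z ρ : ℝ) ≤ B) :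
    {ρ : ℂ | Λ ρ = 0 ∧ σ ≤ ρ.re ∧ 0 < ρ.im ∧ ρ.im ≤ T}.Finite ∧
    ∑ᶠ ρ ∈ {ρ : ℂ | Λ ρ = 0 ∧ σ ≤ ρ.re ∧ 0 < ρ.im ∧ ρ.im ≤ T}, (analyticOrderNatAt Λ ρ : ℝ) ≤ B := by
  have himg : {ρ : ℂ | Λ ρ = 0 ∧ σ ≤ ρ.re ∧ 0 < ρ.im ∧ ρ.im ≤ T} = (fun z : ℂ => z + 1 / 2) '' ZF Z (σ - 1 / 2) T := by
    ext ρ
    simp only [Set.mem_setOf_eq, Set.mem_image]
    have hhalf : (1 / 2 : ℂ).re = 1 / 2 ∧ (1 / 2 : ℂ).im = 0 := by constructor <;> norm_num
    constructor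
    · rintro ⟨h1, h2, h3, h4⟩
      refine ⟨ρ - 1 / 2, ⟨(zero_iff hf hL hΛ (by linarith)).mp h1, ?_, ?_, ?_⟩, by ring⟩
      · rw [Complex.sub_re, hhalf.1]; linarith
      · rw [Complex.sub_im, hhalf.2]; linarith
      · rw [Complex.sub_im, hhalf.2]; linarith
    · rintro ⟨z, ⟨h1, h2, h3, h4⟩, rfl⟩
      have hre : (z + 1 / 2 : ℂ).re = z.re + 1 / 2 := by rw [Complex.add_re, hhalf.1]
      have him : (z + 1 / 2 : ℂ).im = z.im := by rw [Complex.add_im, hhalf.2, add_zero]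
      refine ⟨?_, by rw [hre]; linarith, by rw [him]; exact h3, by rw [him]; exact h4⟩
      rw [zero_iff hf hL hΛ (by rw [hre]; linarith), add_sub_cancel_right]
      exact h1
  rw [himg]
  refine ⟨h.1.image _, ?_⟩
  rw [finsum_mem_image (fun a _ b _ hab => add_right_cancel hab)]
  refine le_trans (le_of_eq (finsum_mem_congr rfl fun z hz => ?_)) h.2
  have hhalf : (1 / 2 : ℂ).re = 1 / 2 := by norm_num
  rw [ord_eq hf hL hΛ (by rw [Complex.add_re, hhalf]; linarith [hz.2.1]), add_sub_cancel_right]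

/-- **The density theorem for newforms of weight two.** -/
theorem nf_density (hf : IsForm N f w) {Λ : ℂ → ℂ} (hΛ : IsCompleted f Λ) {c : ℝ} (hc : c < 1) :
    ∃ C : ℝ, 0 < C ∧ ∀ σ T : ℝ, 1 ≤ σ → σ ≤ 3 / 2 → 2 ≤ T →
    {ρ : ℂ | Λ ρ = 0 ∧ σ ≤ ρ.re ∧ 0 < ρ.im ∧ ρ.im ≤ T}.Finite ∧
    ∑ᶠ ρ ∈ {ρ : ℂ | Λ ρ = 0 ∧ σ ≤ ρ.re ∧ 0 < ρ.im ∧ ρ.im ≤ T}, (analyticOrderNatAt Λ ρ : ℝ) ≤
      C * T ^ (1 - c * (σ - 1)) * Real.log T := by
  have hnf := newf_of_form hf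
  obtain ⟨Z, hFE, hL⟩ := exists_Z (k := 2) (by norm_num) hnf
  have hF := Pool.Agent.Y771.NF.frm_newf (k := 2) (by norm_num) hnf
  have hreal : ∀ n, conj (lm (k := 2) (f : CuspForm (Gamma0 N : Subgroup (GL (Fin 2) ℝ)) ((2 : ℕ) : ℤ)) n) =
      lm (k := 2) (f : CuspForm (Gamma0 N : Subgroup (GL (Fin 2) ℝ)) ((2 : ℕ) : ℤ)) n := by
    intro n
    unfold lm
    exact Complex.conj_ofReal _
  have hlfn := lfn_of (by norm_num) hFE hF hreal hL
  obtain ⟨C, hC, h⟩ := density hlfn (fun κ h1 h2 => mol hF hL (by linarith) h2.le) hc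
  refine ⟨C, hC, fun σ T h1 h2 h3 => transfer hf hL hΛ h1 ?_⟩
  have h4 := h (σ - 1 / 2) T (by linarith) (by linarith) h3
  have e : σ - 1 / 2 - 1 / 2 = σ - 1 := by ring
  rw [e] at h4
  exact h4

end Pool.Agent.Y24.GL
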